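import Pool.Agent.H44.EFDefs

set_option autoImplicit false

namespace Pool.Agent.H44

/-- two unit fractions give coprime divisors -/
lemma exists_divisors_of_rep {x y : ℕ} (hx : 3 ≤ x) (hy : 0 < y) (hxy : Nat.Coprime x y)
    {s : Finset ℕ} (hs : IsRep s ((x : ℚ) / y)) (hc : s.card ≤ 2) :
    ∃ d1 d2 : ℕ, Nat.Coprime d1 d2 ∧ d1 ∣ y ∧ d2 ∣ y ∧ x ∣ d1 + d2 := by
  obtain ⟨hpos, hsum⟩ := hs
  have hyq : (y : ℚ) ≠ 0 := by exact_mod_cast hy.ne'
  have hxq : (x : ℚ) ≠ 0 := by
    have : x ≠ 0 := by omega
    exact_mod_cast this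
  interval_cases hcard : s.card
  · -- empty
    rw [Finset.card_eq_zero] at hcard
    subst hcard
    rw [Finset.sum_empty] at hsum
    exact absurd hsum.symm (div_ne_zero hxq hyq)
  · rw [Finset.card_eq_one] at hcard
    obtain ⟨a, rfl⟩ := hcard
    simp only [Finset.sum_singleton] at hsum
    have ha : 0 < a := hpos a (by simp)
    have haq : (a : ℚ) ≠ 0 := by exact_mod_cast ha.ne'
    have h1 : x * a = y := by
      have : (x : ℚ) * a = y := by
        field_simp at hsum
        linarith
      exact_mod_cast this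
    exfalso
    have h2 : x ∣ y := ⟨a, h1.symm⟩
    have h3 : x = 1 := by
      have := Nat.Coprime.eq_one_of_dvd hxy h2
      exact this
    omega
  · rw [Finset.card_eq_two] at hcard
    obtain ⟨a, b, hab, rfl⟩ := hcard
    rw [Finset.sum_pair hab] at hsum
    have ha : 0 < a := hpos a (by simp)
    have hb : 0 < b := hpos b (by simp)
    have haq : (a : ℚ) ≠ 0 := by exact_mod_cast ha.ne'
    have hbq : (b : ℚ) ≠ 0 := by exact_mod_cast hb.ne'
    have h1 : x * (a * b) = y * (a + b) := by
      have : (x : ℚ) * (a * b) = y * (a + b) := by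
        field_simp at hsum
        linarith
      exact_mod_cast this
    obtain ⟨g, a', b', hg, hcop, rfl, rfl⟩ := Nat.exists_coprime' (m := a) (n := b)
      (Nat.gcd_pos_of_pos_left _ ha)
    have hg0 : 0 < g := by
      rcases Nat.eq_zero_or_pos g with h | h
      · subst h; simp at ha
      · exact h
    have h2 : x * g * (a' * b') = y * (a' + b') := by
      have : g * (x * g * (a' * b')) = g * (y * (a' + b')) := by
        calc g * (x * g * (a' * b')) = x * (a' * g * (b' * g)) := by ring
          _ = y * (a' * g + b' * g) := h1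
          _ = g * (y * (a' + b')) := by ring
      exact Nat.eq_of_mul_eq_mul_left hg0 this
    refine ⟨a', b', hcop, ?_, ?_, ?_⟩
    · have : a' ∣ y * (a' + b') := ⟨x * g * b', by rw [← h2]; ring⟩
      have hc : Nat.Coprime a' (a' + b') := by
        rw [Nat.coprime_self_add_right]; exact hcop
      exact hc.dvd_of_dvd_mul_right this
    · have : b' ∣ y * (a' + b') := ⟨x * g * a', by rw [← h2]; ring⟩
      have hc : Nat.Coprime b' (a' + b') := by
        rw [Nat.coprime_add_self_right]; exact hcop.symm
      exact hc.dvd_of_dvd_mul_right this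
    · have : x ∣ y * (a' + b') := ⟨g * (a' * b'), by rw [← h2]; ring⟩
      exact hxy.dvd_of_dvd_mul_left this

/-- divisors `d1 ≠ d2` of `y` with `x ∣ d1 + d2` give a representation with two terms. -/
lemma rep_of_divisors {x y d1 d2 N : ℕ} (hx : 0 < x) (hy : 0 < y)
    (h1 : d1 ∣ y) (h2 : d2 ∣ y) (hne : d1 ≠ d2) (hd : x ∣ d1 + d2)
    (hb1 : N * d1 ≤ (N + 1) * d2) (hb2 : N * d2 ≤ (N + 1) * d1) :
    ∃ s : Finset ℕ, IsRep s ((x : ℚ) / y) ∧ s.card = 2 ∧
      N * (s.sup id * x) ≤ (2 * N + 1) * y := by
  obtain ⟨c, hc⟩ := hd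
  obtain ⟨e1, he1⟩ := h1
  obtain ⟨e2, he2⟩ := h2
  have hd1 : 0 < d1 := Nat.pos_of_ne_zero (by rintro rfl; simp at he1; omega)
  have hd2 : 0 < d2 := Nat.pos_of_ne_zero (by rintro rfl; simp at he2; omega)
  have he1p : 0 < e1 := Nat.pos_of_ne_zero (by rintro rfl; simp at he1; omega)
  have he2p : 0 < e2 := Nat.pos_of_ne_zero (by rintro rfl; simp at he2; omega)
  have hcp : 0 < c := Nat.pos_of_ne_zero (by rintro rfl; simp at hc; omega)
  have hne' : c * e1 ≠ c * e2 := by
    intro h
    have h3 : e1 = e2 := Nat.eq_of_mul_eq_mul_left hcp h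
    subst h3
    apply hne
    have : d1 * e1 = d2 * e1 := by rw [← he1, ← he2]
    exact Nat.eq_of_mul_eq_mul_right he1p this
  refine ⟨{c * e1, c * e2}, ⟨?_, ?_⟩, ?_, ?_⟩
  · intro n hn
    simp only [Finset.mem_insert, Finset.mem_singleton] at hn
    rcases hn with rfl | rfl <;> positivity
  · rw [Finset.sum_pair hne']
    have hyq : (y : ℚ) ≠ 0 := by exact_mod_cast hy.ne'
    have hcq : (c : ℚ) ≠ 0 := by exact_mod_cast hcp.ne'
    have he1q : (e1 : ℚ) ≠ 0 := by exact_mod_cast he1p.ne'
    have he2q : (e2 : ℚ) ≠ 0 := by exact_mod_cast he2p.ne'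
    have k1 : (y : ℚ) = d1 * e1 := by exact_mod_cast he1
    have k2 : (y : ℚ) = d2 * e2 := by exact_mod_cast he2
    have k3 : (d1 : ℚ) + d2 = x * c := by exact_mod_cast hc
    have e1' : (1 : ℚ) / ((c * e1 : ℕ) : ℚ) = d1 / (c * y) := by
      push_cast
      rw [div_eq_div_iff (by positivity) (by positivity), k1]
      ring
    have e2' : (1 : ℚ) / ((c * e2 : ℕ) : ℚ) = d2 / (c * y) := by
      push_cast
      rw [div_eq_div_iff (by positivity) (by positivity), k2]
      ring
    rw [e1', e2', ← add_div, k3]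
    field_simp
  · exact Finset.card_pair hne'
  · have key : ∀ d e d' : ℕ, 0 < d → y = d * e → d + d' = x * c → N * d' ≤ (N + 1) * d →
        N * (c * e * x) ≤ (2 * N + 1) * y := by
      intro d e d' hd0 hy' hs hlt
      have h4 : d * (N * (c * e * x)) ≤ d * ((2 * N + 1) * y) := by
        calc d * (N * (c * e * x)) = N * ((x * c) * (d * e)) := by ring
          _ = (N * d + N * d') * y := by rw [← hs, ← hy']; ring
          _ ≤ (N * d + (N + 1) * d) * y := Nat.mul_le_mul_right _ (by omega)
          _ = d * ((2 * N + 1) * y) := by ring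
      exact le_of_mul_le_mul_left h4 hd0
    have a1 := key d1 e1 d2 hd1 he1 hc hb2
    have a2 := key d2 e2 d1 hd2 he2 (by omega) hb1
    have : ({c * e1, c * e2} : Finset ℕ).sup id = max (c * e1) (c * e2) := by
      simp
    rw [this]
    rcases le_total (c * e1) (c * e2) with h | h
    · rw [max_eq_right h]; exact a2
    · rw [max_eq_left h]; exact a1

/-- a representation with at least three terms has a large denominator -/
lemma large_of_three_le {x y : ℕ} (hy : 0 < y) {s : Finset ℕ}
    (hs : IsRep s ((x : ℚ) / y)) (hc : 3 ≤ s.card) : 3 * y < s.sup id * x := by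
  obtain ⟨hpos, hsum⟩ := hs
  set D := s.sup id with hD
  have hle : ∀ n ∈ s, n ≤ D := fun n hn => Finset.le_sup (f := id) hn
  have hne : s.Nonempty := by
    rw [← Finset.card_pos]; omega
  obtain ⟨a, ha⟩ := hne
  have hD0 : 0 < D := lt_of_lt_of_le (hpos a ha) (hle a ha)
  -- there is an element smaller than D
  have hex : ∃ b ∈ s, b < D := by
    by_contra hcon
    push Not at hcon
    have : s ⊆ {D} := by
      intro n hn
      have h1 := hcon n hn
      have h2 := hle n hn
      simp; omega
    have := Finset.card_le_card this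
    simp at this
    omega
  obtain ⟨b, hb, hbD⟩ := hex
  have hDq : (0 : ℚ) < D := by exact_mod_cast hD0
  have h1 : ∑ n ∈ s, (1 : ℚ) / D < ∑ n ∈ s, (1 : ℚ) / n := by
    apply Finset.sum_lt_sum
    · intro n hn
      have hn0 : (0 : ℚ) < n := by exact_mod_cast hpos n hn
      apply one_div_le_one_div_of_le hn0
      exact_mod_cast hle n hn
    · refine ⟨b, hb, ?_⟩
      have hb0 : (0 : ℚ) < b := by exact_mod_cast hpos b hb
      apply one_div_lt_one_div_of_lt hb0
      exact_mod_cast hbD
  rw [hsum, Finset.sum_const, nsmul_eq_mul] at h1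
  have hyq : (0 : ℚ) < y := by exact_mod_cast hy
  have h3 : (3 : ℚ) ≤ (s.card : ℚ) := by exact_mod_cast hc
  have h2 : (3 : ℚ) * (1 / D) < x / y := lt_of_le_of_lt (by
    apply mul_le_mul_of_nonneg_right h3; positivity) h1
  rw [mul_one_div, div_lt_div_iff₀ hDq hyq] at h2
  have : (3 : ℚ) * y < D * x := by linarith
  exact_mod_cast this

/-- Fibonacci's greedy argument: every fraction below `1/N` is a sum of distinct unit fractions
with denominators above `N`. -/
lemma exists_rep_aux : ∀ x : ℕ, 0 < x → ∀ y N : ℕ, 0 < N → x * N < y →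
    ∃ s : Finset ℕ, IsRep s ((x : ℚ) / y) ∧ ∀ n ∈ s, N < n := by
  intro x
  induction x using Nat.strong_induction_on with
  | _ x ih =>
    intro hx y N hN hlt
    have hxy : x < y := lt_of_le_of_lt (Nat.le_mul_of_pos_right x hN) hlt
    set n := (y + x - 1) / x with hn
    have h1 : y ≤ x * n := by
      have h := Nat.lt_mul_div_succ (y + x - 1) hx
      rw [← hn, mul_add, mul_one] at h
      omega
    have h2 : x * n < y + x := by
      have := Nat.div_mul_le_self (y + x - 1) x
      rw [← hn, mul_comm] at this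
      omega
    have hNn : N < n := by
      by_contra hcon
      push Not at hcon
      have : x * n ≤ x * N := Nat.mul_le_mul_left _ hcon
      omega
    have hyq : (y : ℚ) ≠ 0 := by
      have : y ≠ 0 := by omega
      exact_mod_cast this
    have hnq : (n : ℚ) ≠ 0 := by
      have : n ≠ 0 := by omega
      exact_mod_cast this
    rcases Nat.eq_or_lt_of_le h1 with heq | hlt'
    · refine ⟨{n}, ⟨?_, ?_⟩, ?_⟩
      · intro m hm
        simp at hm; subst hm; omega
      · rw [Finset.sum_singleton, div_eq_div_iff hnq hyq]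
        have : (y : ℚ) = x * n := by exact_mod_cast heq
        rw [this]; ring
      · intro m hm
        simp at hm; subst hm; exact hNn
    · obtain ⟨s, ⟨hs1, hs2⟩, hs3⟩ := ih (x * n - y) (by omega) (by omega) (y * n) n (by omega) (by
        have : x * n - y < y := by omega
        exact Nat.mul_lt_mul_of_pos_right this (by omega))
      have hns : n ∉ s := fun h => lt_irrefl _ (hs3 n h)
      refine ⟨insert n s, ⟨?_, ?_⟩, ?_⟩
      · intro m hm
        rcases Finset.mem_insert.1 hm with rfl | h
        · omega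
        · exact hs1 m h
      · rw [Finset.sum_insert hns, hs2]
        have e : ((x * n - y : ℕ) : ℚ) = x * n - y := by
          rw [Nat.cast_sub h1]; push_cast; ring
        rw [e]
        push_cast
        field_simp
        ring
      · intro m hm
        rcases Finset.mem_insert.1 hm with rfl | h
        · exact hNn
        · exact lt_trans hNn (hs3 m h)

lemma exists_rep {x y : ℕ} (hx : 0 < x) (hxy : x < y) :
    ∃ s : Finset ℕ, IsRep s ((x : ℚ) / y) := by
  obtain ⟨s, hs, -⟩ := exists_rep_aux x hx y 1 one_pos (by omega)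
  exact ⟨s, hs⟩

end Pool.Agent.H44
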