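import Mathlib

set_option autoImplicit false

/-!
# Definitions used in the statements for MP_a692c2_lc
-/

namespace Pool.Agent.H44

/-- `IsRep s q`: the finite set `s` of positive integers is an Egyptian fraction representation
of the rational `q`, i.e. `q` is the sum of the (distinct) unit fractions `1/n`, `n ∈ s`. -/
def IsRep (s : Finset ℕ) (q : ℚ) : Prop :=
  (∀ n ∈ s, 0 < n) ∧ ∑ n ∈ s, (1 : ℚ) / n = q

/-- `L(x/y)`: the least number of terms of an Egyptian fraction representation of `x/y`. -/
noncomputable def minLength (x y : ℕ) : ℕ :=
  sInf {k | ∃ s : Finset ℕ, IsRep s ((x : ℚ) / y) ∧ s.card = k}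

/-- `D(x/y)`: the least possible value of the largest denominator of an Egyptian fraction
representation of `x/y`. -/
noncomputable def minLargest (x y : ℕ) : ℕ :=
  sInf {N | ∃ s : Finset ℕ, IsRep s ((x : ℚ) / y) ∧ s.sup id = N}

/-- SUBSET-SUM: some sub-list of `b` has sum `B`. -/
def SubsetSum (b : List ℕ) (B : ℕ) : Prop := ∃ l : List ℕ, l.Sublist b ∧ l.sum = B

/-- Tape symbols: bits, a comma, and random bits (coins). -/
inductive Sym
  | bit (b : Bool)
  | comma
  | coin (b : Bool)
  deriving DecidableEq, Fintype

/-- a bit string as a string over the tape alphabet -/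
def bs (l : List Bool) : List Sym := l.map Sym.bit

/-- a string of random bits as a string over the tape alphabet -/
def cs (l : List Bool) : List Sym := l.map Sym.coin

/-- encoding of a list of numbers: each number is written in binary and followed by a comma -/
def encNums : List ℕ → List Sym
  | [] => []
  | x :: l => bs x.bits ++ Sym.comma :: encNums l

/-- encoding of a SUBSET-SUM instance `(b, B)` together with a string of random bits: the numbers
of `b` in binary, each followed by a comma, then `B` in binary, then the random bits -/
def encInst (a : (List ℕ × ℕ) × List Bool) : List Sym :=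
  encNums a.1.1 ++ bs a.1.2.bits ++ cs a.2

/-- encoding of a pair of numbers: both in binary, separated by a comma -/
def encPair (z : ℕ × ℕ) : List Sym := bs z.1.bits ++ Sym.comma :: bs z.2.bits

end Pool.Agent.H44
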