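import Pool.Agent.H44.EFFinal

set_option autoImplicit false

namespace Pool.Agent.H44

lemma minLength_spec {x y : ℕ} (hx : 0 < x) (hxy : x < y) :
    ∃ s : Finset ℕ, IsRep s ((x : ℚ) / y) ∧ s.card = minLength x y := by
  obtain ⟨s, hs⟩ := exists_rep hx hxy
  exact Nat.sInf_mem (s := {k | ∃ s : Finset ℕ, IsRep s ((x : ℚ) / y) ∧ s.card = k})
    ⟨s.card, s, hs, rfl⟩

lemma minLargest_spec {x y : ℕ} (hx : 0 < x) (hxy : x < y) :
    ∃ s : Finset ℕ, IsRep s ((x : ℚ) / y) ∧ s.sup id = minLargest x y := by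
  obtain ⟨s, hs⟩ := exists_rep hx hxy
  exact Nat.sInf_mem (s := {N | ∃ s : Finset ℕ, IsRep s ((x : ℚ) / y) ∧ s.sup id = N})
    ⟨s.sup id, s, hs, rfl⟩

lemma minLength_le {x y : ℕ} {s : Finset ℕ} (hs : IsRep s ((x : ℚ) / y)) :
    minLength x y ≤ s.card := Nat.sInf_le ⟨s, hs, rfl⟩

lemma minLargest_le {x y : ℕ} {s : Finset ℕ} (hs : IsRep s ((x : ℚ) / y)) :
    minLargest x y ≤ s.sup id := Nat.sInf_le ⟨s, hs, rfl⟩

/-- a reduced fraction with numerator at least two is not a single unit fraction -/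
lemma two_le_card {x y : ℕ} (hx : 2 ≤ x) (hy : 0 < y) (hxy : Nat.Coprime x y)
    {s : Finset ℕ} (hs : IsRep s ((x : ℚ) / y)) : 2 ≤ s.card := by
  obtain ⟨hpos, hsum⟩ := hs
  have hyq : (y : ℚ) ≠ 0 := by exact_mod_cast hy.ne'
  have hxq : (x : ℚ) ≠ 0 := by
    have : x ≠ 0 := by omega
    exact_mod_cast this
  by_contra hcon
  have hcard : s.card = 0 ∨ s.card = 1 := by omega
  rcases hcard with h | h
  · rw [Finset.card_eq_zero] at h
    subst h
    rw [Finset.sum_empty] at hsum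
    exact absurd hsum.symm (div_ne_zero hxq hyq)
  · rw [Finset.card_eq_one] at h
    obtain ⟨a, rfl⟩ := h
    simp only [Finset.sum_singleton] at hsum
    have ha : 0 < a := hpos a (by simp)
    have haq : (a : ℚ) ≠ 0 := by exact_mod_cast ha.ne'
    have h1 : x * a = y := by
      have : (x : ℚ) * a = y := by
        field_simp at hsum
        linarith
      exact_mod_cast this
    have h2 : x ∣ y := ⟨a, h1.symm⟩
    have h3 := Nat.Coprime.eq_one_of_dvd hxy h2
    omega

/-- the reduction -/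
def red (a : (List ℕ × ℕ) × List Bool) : ℕ × ℕ :=
  (xOut (isize a.1.1 a.1.2), yOut (isize a.1.1 a.1.2) a.1.1 a.1.2 a.2)

lemma red_lt (b : List ℕ) (B : ℕ) (ρ : List Bool) :
    0 < (red ((b, B), ρ)).1 ∧ (red ((b, B), ρ)).1 < (red ((b, B), ρ)).2 := by
  refine ⟨?_, xOut_lt_yOut rfl ρ⟩
  have := xOut_ge (isize b B)
  show 0 < xOut (isize b B)
  omega

lemma encInst_length (b : List ℕ) (B : ℕ) : (encInst ((b, B), [])).length = isize b B := by
  unfold encInst isize
  simp only [List.length_append, encNums_length, bs_length]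
  rfl

/-- the polynomial giving the number of random bits -/
noncomputable def ellP : Polynomial ℕ :=
  3 * (Polynomial.X + 1) * (7 * (16 * (Polynomial.X + 1)) ^ 3)

lemma ellP_eval (n : ℕ) : ellP.eval n = ell n := by
  unfold ellP ell kk
  simp

lemma yes_length (b : List ℕ) (B : ℕ) (h : SubsetSum b B) (ρ : List Bool) :
    minLength (red ((b, B), ρ)).1 (red ((b, B), ρ)).2 = 2 := by
  obtain ⟨s, hs, hc, -⟩ := yes_final (rfl : isize b B = isize b B) h ρ
  apply le_antisymm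
  · rw [← hc]
    exact minLength_le hs
  · obtain ⟨h1, h2⟩ := red_lt b B ρ
    obtain ⟨s', hs', hc'⟩ := minLength_spec h1 h2
    rw [← hc']
    have := xOut_ge (isize b B)
    exact two_le_card (show 2 ≤ xOut (isize b B) by omega) (h1.trans h2) (coprime_out rfl ρ) hs'

lemma yes_largest (b : List ℕ) (B : ℕ) (h : SubsetSum b B) (ρ : List Bool) :
    2 ^ isize b B * (minLargest (red ((b, B), ρ)).1 (red ((b, B), ρ)).2 * (red ((b, B), ρ)).1) ≤
      (2 * 2 ^ isize b B + 1) * (red ((b, B), ρ)).2 := by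
  obtain ⟨s, hs, -, hl⟩ := yes_final (rfl : isize b B = isize b B) h ρ
  refine le_trans ?_ hl
  exact Nat.mul_le_mul_left _ (Nat.mul_le_mul_right _ (minLargest_le hs))

lemma no_card (b : List ℕ) (B : ℕ) (h : ¬ SubsetSum b B)
    (P : (Fin (ell (isize b B)) → Bool) → Prop)
    (hP : ∀ ρ, P ρ → ∃ s : Finset ℕ, IsRep s (((red ((b, B), List.ofFn ρ)).1 : ℚ) /
      ((red ((b, B), List.ofFn ρ)).2 : ℚ)) ∧ s.card ≤ 2) :
    Nat.card {ρ : Fin (ell (isize b B)) → Bool // P ρ} * 4 ^ (isize b B + 1) ≤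
      2 ^ ell (isize b B) := by
  classical
  refine le_trans (Nat.mul_le_mul_right _ ?_) (no_final rfl h)
  rw [Nat.card_eq_fintype_card, Fintype.card_subtype]
  apply Finset.card_le_card
  intro ρ hρ
  rw [Finset.mem_filter] at hρ ⊢
  exact ⟨Finset.mem_univ _, hP ρ hρ.2⟩

end Pool.Agent.H44
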