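import Pool.Agent.H44.EFProg

set_option autoImplicit false

namespace Pool.Agent.H44

open Pool.Agent.StackProg

@[simp] lemma bs_nil : bs [] = [] := rfl
@[simp] lemma bs_cons (b : Bool) (l : List Bool) : bs (b :: l) = Sym.bit b :: bs l := rfl
lemma bs_append (l l' : List Bool) : bs (l ++ l') = bs l ++ bs l' := List.map_append
lemma bs_reverse (l : List Bool) : (bs l).reverse = bs l.reverse := List.map_reverse.symm
lemma bs_length (l : List Bool) : (bs l).length = l.length := List.length_map _
lemma bs_replicate (n : ℕ) (b : Bool) : List.replicate n (Sym.bit b) = bs (List.replicate n b) := by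
  simp [bs]

def isOne : Sym → Bool
  | .bit b => b
  | _ => false

def coinOf : Sym → Bool
  | .coin b => b
  | _ => false

def maj (a y c : Bool) : Bool := (a && y) || (a && c) || (y && c)

def incOut : Bool → List Bool → List Bool
  | _, [] => []
  | c, a :: as => (a ^^ c) :: incOut (a && c) as

def incCy : Bool → List Bool → Bool
  | c, [] => c
  | c, a :: as => incCy (a && c) as

def addOut : Bool → List Bool → List Bool → List Bool
  | _, [], _ => []
  | c, y :: ys, as => (as.headD false ^^ y ^^ c) :: addOut (maj (as.headD false) y c) ys as.tail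

def addCy : Bool → List Bool → List Bool → Bool
  | c, [], _ => c
  | c, y :: ys, as => addCy (maj (as.headD false) y c) ys as.tail

def carryL : Bool → List Bool
  | true => [true]
  | false => []

/-- full adder on bit lists as performed by the machine -/
def addL (c : Bool) (ys as : List Bool) : List Bool :=
  addOut c ys as ++ (incOut (addCy c ys as) (as.drop ys.length) ++
    carryL (incCy (addCy c ys as) (as.drop ys.length)))

def addReg (v : Sym × Bool) (o : Option Sym) : Sym × Bool :=
  (.bit (isOne (o.getD .comma) ^^ isOne v.1 ^^ v.2), maj (isOne (o.getD .comma)) (isOne v.1) v.2)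

def LY : P := .loop .Y (fun v c => (c, v.2))
  (.seq (putc .t1) (.seq (.pop .A addReg) (putc .t2)))

def LA : P := .loop .A (fun v c => (c, v.2))
  (.seq (.load (fun v => (.bit (isOne v.1 ^^ v.2), isOne v.1 && v.2))) (putc .t2))

def FC : P := .ite (fun v => v.2) (put .t2 (.bit true)) .skip

def ADD : P := .seq (.load (fun v => (v.1, false)))
  (.seq LY (.seq LA (.seq FC (.seq (mv .t2 .A) (mv .t1 .Y)))))

lemma LY_spec : ∀ (ys as : List Bool) (c : Bool) (r : Rec), r.Y = bs ys → r.A = bs as →
    ∀ s0, ∃ s1 t, t ≤ 4 * ys.length + 1 ∧ Exec LY ((s0, c), fn r) t ((s1, addCy c ys as),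
      fn { r with Y := [], A := bs (as.drop ys.length), t1 := bs ys.reverse ++ r.t1,
                  t2 := bs (addOut c ys as).reverse ++ r.t2 }) := by
  intro ys
  induction ys with
  | nil =>
    intro as c r hY hA s0
    refine ⟨s0, 1, by simp, ?_⟩
    have e : ({ r with Y := [], A := bs (as.drop ([] : List Bool).length),
                       t1 := bs ([] : List Bool).reverse ++ r.t1,
                       t2 := bs (addOut c [] as).reverse ++ r.t2 } : Rec) = r := by
      cases r
      simp only at hY hA
      subst hY hA
      rfl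
    rw [e]
    exact Exec.loopNil (show get .Y r = [] from hY)
  | cons y ys ih =>
    intro as c r hY hA s0
    -- one iteration
    have h1 : Exec (putc .t1) ((Sym.bit y, c), fn (set .Y (bs ys) r)) 1
        ((Sym.bit y, c), fn (set .t1 (Sym.bit y :: r.t1) (set .Y (bs ys) r))) := by
      have := Exec.push (σ := Sym × Bool) Stk.t1 (fun v => v.1) (Sym.bit y, c) (fn (set .Y (bs ys) r))
      rw [update_fn] at this
      exact this
    have h2 : Exec (.pop .A addReg) ((Sym.bit y, c), fn (set .t1 (Sym.bit y :: r.t1) (set .Y (bs ys) r))) 1
        ((Sym.bit (as.headD false ^^ y ^^ c), maj (as.headD false) y c),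
          fn (set .A (bs as.tail) (set .t1 (Sym.bit y :: r.t1) (set .Y (bs ys) r)))) := by
      have := Exec.pop (σ := Sym × Bool) Stk.A addReg (Sym.bit y, c)
        (fn (set .t1 (Sym.bit y :: r.t1) (set .Y (bs ys) r)))
      rw [update_fn] at this
      have hg : fn (set .t1 (Sym.bit y :: r.t1) (set .Y (bs ys) r)) Stk.A = bs as := hA
      rw [hg] at this
      cases as with
      | nil => exact this
      | cons a as => exact this
    have h3 : Exec (putc .t2) ((Sym.bit (as.headD false ^^ y ^^ c), maj (as.headD false) y c),
          fn (set .A (bs as.tail) (set .t1 (Sym.bit y :: r.t1) (set .Y (bs ys) r)))) 1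
        ((Sym.bit (as.headD false ^^ y ^^ c), maj (as.headD false) y c),
          fn (set .t2 (Sym.bit (as.headD false ^^ y ^^ c) :: r.t2)
            (set .A (bs as.tail) (set .t1 (Sym.bit y :: r.t1) (set .Y (bs ys) r))))) := by
      have := Exec.push (σ := Sym × Bool) Stk.t2 (fun v => v.1)
        (Sym.bit (as.headD false ^^ y ^^ c), maj (as.headD false) y c)
        (fn (set .A (bs as.tail) (set .t1 (Sym.bit y :: r.t1) (set .Y (bs ys) r))))
      rw [update_fn] at this
      exact this
    obtain ⟨s1, t, ht, he⟩ := ih as.tail (maj (as.headD false) y c)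
      (set .t2 (Sym.bit (as.headD false ^^ y ^^ c) :: r.t2)
            (set .A (bs as.tail) (set .t1 (Sym.bit y :: r.t1) (set .Y (bs ys) r)))) rfl rfl
      (Sym.bit (as.headD false ^^ y ^^ c))
    refine ⟨s1, 1 + (1 + (1 + 1)) + t, ?_, ?_⟩
    · simp only [List.length_cons]; omega
    · have hl : fn r Stk.Y = Sym.bit y :: bs ys := hY
      refine Exec.loopCons hl ?_ ?_ (s' := ((Sym.bit (as.headD false ^^ y ^^ c),
        maj (as.headD false) y c), fn (set .t2 (Sym.bit (as.headD false ^^ y ^^ c) :: r.t2)
            (set .A (bs as.tail) (set .t1 (Sym.bit y :: r.t1) (set .Y (bs ys) r))))))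
      · rw [update_fn]
        exact Exec.seq h1 (Exec.seq h2 h3)
      · have e1 : bs (as.tail.drop ys.length) = bs (as.drop (y :: ys).length) := by
          cases as with
          | nil => simp
          | cons a as => rfl
        have e2 : bs ys.reverse ++ Sym.bit y :: r.t1 = bs (y :: ys).reverse ++ r.t1 := by
          simp [bs_append]
        have e3 : bs (addOut (maj (as.headD false) y c) ys as.tail).reverse ++
            Sym.bit (as.headD false ^^ y ^^ c) :: r.t2 =
            bs (addOut c (y :: ys) as).reverse ++ r.t2 := by
          simp [addOut, bs_append]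
        have e4 : ({ (set .t2 (Sym.bit (as.headD false ^^ y ^^ c) :: r.t2)
            (set .A (bs as.tail) (set .t1 (Sym.bit y :: r.t1) (set .Y (bs ys) r)))) with
              Y := [], A := bs (as.tail.drop ys.length),
              t1 := bs ys.reverse ++ Sym.bit y :: r.t1,
              t2 := bs (addOut (maj (as.headD false) y c) ys as.tail).reverse ++
                Sym.bit (as.headD false ^^ y ^^ c) :: r.t2 } : Rec) =
            { r with Y := [], A := bs (as.drop (y :: ys).length),
                     t1 := bs (y :: ys).reverse ++ r.t1,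
                     t2 := bs (addOut c (y :: ys) as).reverse ++ r.t2 } := by
          rw [e1, e2, e3]
          rfl
        rw [← e4]
        exact he

lemma LA_spec : ∀ (as : List Bool) (c : Bool) (r : Rec), r.A = bs as →
    ∀ s0, ∃ s1 t, t ≤ 3 * as.length + 1 ∧ Exec LA ((s0, c), fn r) t ((s1, incCy c as),
      fn { r with A := [], t2 := bs (incOut c as).reverse ++ r.t2 }) := by
  intro as
  induction as with
  | nil =>
    intro c r hA s0
    refine ⟨s0, 1, by simp, ?_⟩
    have e : ({ r with A := [], t2 := bs (incOut c []).reverse ++ r.t2 } : Rec) = r := by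
      cases r
      simp only at hA
      subst hA
      rfl
    rw [e]
    exact Exec.loopNil (show get .A r = [] from hA)
  | cons a as ih =>
    intro c r hA s0
    have h1 : Exec (.load (fun v => (.bit (isOne v.1 ^^ v.2), isOne v.1 && v.2)) : P)
        ((Sym.bit a, c), fn (set .A (bs as) r)) 1
        ((Sym.bit (a ^^ c), a && c), fn (set .A (bs as) r)) :=
      Exec.load (σ := Sym × Bool) _ (Sym.bit a, c) (fn (set .A (bs as) r))
    have h2 : Exec (putc .t2) ((Sym.bit (a ^^ c), a && c), fn (set .A (bs as) r)) 1
        ((Sym.bit (a ^^ c), a && c), fn (set .t2 (Sym.bit (a ^^ c) :: r.t2) (set .A (bs as) r))) := by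
      have := Exec.push (σ := Sym × Bool) Stk.t2 (fun v => v.1) (Sym.bit (a ^^ c), a && c)
        (fn (set .A (bs as) r))
      rw [update_fn] at this
      exact this
    obtain ⟨s1, t, ht, he⟩ := ih (a && c) (set .t2 (Sym.bit (a ^^ c) :: r.t2) (set .A (bs as) r))
      rfl (Sym.bit (a ^^ c))
    refine ⟨s1, 1 + (1 + 1) + t, ?_, ?_⟩
    · simp only [List.length_cons]; omega
    · have hl : fn r Stk.A = Sym.bit a :: bs as := hA
      refine Exec.loopCons hl ?_ ?_ (s' := ((Sym.bit (a ^^ c), a && c),
        fn (set .t2 (Sym.bit (a ^^ c) :: r.t2) (set .A (bs as) r))))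
      · rw [update_fn]
        exact Exec.seq h1 h2
      · have e3 : bs (incOut (a && c) as).reverse ++ Sym.bit (a ^^ c) :: r.t2 =
            bs (incOut c (a :: as)).reverse ++ r.t2 := by
          simp [incOut, bs_append]
        have e4 : ({ (set .t2 (Sym.bit (a ^^ c) :: r.t2) (set .A (bs as) r)) with
              A := [], t2 := bs (incOut (a && c) as).reverse ++ Sym.bit (a ^^ c) :: r.t2 } : Rec) =
            { r with A := [], t2 := bs (incOut c (a :: as)).reverse ++ r.t2 } := by
          rw [e3]
          rfl
        rw [← e4]
        exact he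

lemma addOut_length : ∀ (c : Bool) (ys as : List Bool), (addOut c ys as).length = ys.length
  | _, [], _ => rfl
  | c, y :: ys, as => by simp [addOut, addOut_length]

lemma incOut_length : ∀ (c : Bool) (as : List Bool), (incOut c as).length = as.length
  | _, [] => rfl
  | c, a :: as => by simp [incOut, incOut_length]

lemma addL_length_le (c : Bool) (ys as : List Bool) :
    (addL c ys as).length ≤ ys.length + as.length + 1 := by
  unfold addL
  rw [List.length_append, List.length_append, addOut_length, incOut_length, List.length_drop]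
  have : ∀ c, (carryL c).length ≤ 1 := by intro c; cases c <;> simp [carryL]
  have := this (incCy (addCy c ys as) (as.drop ys.length))
  omega

lemma ADD_spec (ys as : List Bool) (r : Rec) (hY : r.Y = bs ys) (hA : r.A = bs as)
    (h1 : r.t1 = []) (h2 : r.t2 = []) :
    Does ADD r (8 * ys.length + 5 * as.length + 12) { r with A := bs (addL false ys as) } := by
  intro v
  obtain ⟨s1, t1, ht1, he1⟩ := LY_spec ys as false r hY hA v.1
  set r1 : Rec := { r with Y := [], A := bs (as.drop ys.length), t1 := bs ys.reverse ++ r.t1,
                           t2 := bs (addOut false ys as).reverse ++ r.t2 } with hr1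
  obtain ⟨s2, t2, ht2, he2⟩ := LA_spec (as.drop ys.length) (addCy false ys as) r1 rfl s1
  set r2 : Rec := { r1 with A := [], t2 := bs (incOut (addCy false ys as)
    (as.drop ys.length)).reverse ++ r1.t2 } with hr2
  set cy := incCy (addCy false ys as) (as.drop ys.length) with hcy
  set r3 : Rec := { r2 with t2 := bs (carryL cy) ++ r2.t2 } with hr3
  have he3 : ∃ t, t ≤ 2 ∧ Exec FC ((s2, cy), fn r2) t ((s2, cy), fn r3) := by
    by_cases hc : cy = true
    · refine ⟨1 + 1, le_rfl, Exec.iteT hc ?_⟩
      have := Exec.push (σ := Sym × Bool) Stk.t2 (fun _ => Sym.bit true) (s2, cy) (fn r2)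
      rw [update_fn] at this
      have e : set .t2 (Sym.bit true :: fn r2 .t2) r2 = r3 := by
        rw [hr3, hc]; rfl
      rw [e] at this
      exact this
    · have hc' : cy = false := by simpa using hc
      refine ⟨1 + 1, le_rfl, Exec.iteF hc' ?_⟩
      have e : r3 = r2 := by
        rw [hr3, hc']; rfl
      rw [e]
      exact Exec.skip _
  obtain ⟨t3, ht3, he3⟩ := he3
  have ht2eq : r3.t2 = bs (addL false ys as).reverse := by
    simp only [hr3, hr2, hr1, h2, ← hcy, addL]
    cases cy <;> simp [carryL, bs_append]
  have hmv1 := mv_spec (show Stk.t2 ≠ Stk.A by decide) _ r3 ht2eq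
  have hmv2 := mv_spec (show Stk.t1 ≠ Stk.Y by decide) (bs ys.reverse)
    (set .t2 [] (set .A ((bs (addL false ys as).reverse).reverse ++ get .A r3) r3)) (by
      show bs ys.reverse ++ r.t1 = bs ys.reverse
      rw [h1, List.append_nil])
  obtain ⟨v4, t4, ht4, he4⟩ := (hmv1.seq hmv2) (s2, cy)
  refine ⟨v4, 1 + (t1 + (t2 + (t3 + t4))), ?_, ?_⟩
  · have hl := addL_length_le false ys as
    rw [bs_length, List.length_reverse, bs_length, List.length_reverse] at ht4
    rw [List.length_drop] at ht2
    omega
  · unfold ADD
    refine Exec.seq (Exec.load _ v (fn r)) (Exec.seq he1 (Exec.seq he2 (Exec.seq he3 ?_)))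
    have e : set .t1 [] (set .Y ((bs ys.reverse).reverse ++ get .Y
        (set .t2 [] (set .A ((bs (addL false ys as).reverse).reverse ++ get .A r3) r3)))
        (set .t2 [] (set .A ((bs (addL false ys as).reverse).reverse ++ get .A r3) r3))) =
        { r with A := bs (addL false ys as) } := by
      rw [bs_reverse, List.reverse_reverse, bs_reverse, List.reverse_reverse]
      cases r
      simp only at hY h1 h2
      subst hY h1 h2
      simp [set, get, hr3, hr2, hr1]
    rw [e] at he4
    -- `mv; mv` is the tail of the program
    exact he4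

lemma bits_cons (b : Bool) (m : ℕ) (h : m ≠ 0 ∨ b = true) :
    (2 * m + (if b then 1 else 0)).bits = b :: m.bits := by
  cases b with
  | false =>
    have hm : m ≠ 0 := by simpa using h
    simpa using Nat.bit0_bits m hm
  | true => simpa using Nat.bit1_bits m

lemma incL_eq : ∀ (a : ℕ) (c : Bool), incOut c a.bits ++ carryL (incCy c a.bits) =
    (a + if c then 1 else 0).bits := by
  intro a
  induction a using Nat.binaryRec' with
  | zero => intro c; cases c <;> simp [incOut, incCy, carryL]
  | bit b n h ih =>
    intro c
    rw [Nat.bits_append_bit n b h]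
    simp only [incOut, incCy, List.cons_append]
    rw [ih (b && c)]
    have hn : n = 0 → b = true := h
    have e : (Nat.bit b n + if c then 1 else 0) =
        2 * (n + if (b && c) then 1 else 0) + (if (b ^^ c) then 1 else 0) := by
      rw [Nat.bit_val]
      cases b <;> cases c <;> simp <;> omega
    rw [e, bits_cons]
    by_cases h0 : n = 0
    · have hb := hn h0
      subst hb
      cases c <;> simp
    · left; omega

lemma headD_bits (a : ℕ) : (a.bits.headD false) = a.bodd ∧ a.bits.tail = a.div2.bits := by
  induction a using Nat.binaryRec' with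
  | zero => simp
  | bit b n h _ =>
    rw [Nat.bits_append_bit n b h]
    simp

lemma addL_eq : ∀ (y a : ℕ) (c : Bool), addL c y.bits a.bits = (a + y + if c then 1 else 0).bits := by
  intro y
  induction y using Nat.binaryRec' with
  | zero =>
    intro a c
    have := incL_eq a c
    simpa [addL, addOut, addCy] using this
  | bit b n h ih =>
    intro a c
    obtain ⟨hh, ht⟩ := headD_bits a
    have hrec : addL c (Nat.bit b n).bits a.bits =
        (a.bodd ^^ b ^^ c) :: addL (maj a.bodd b c) n.bits a.div2.bits := by
      rw [Nat.bits_append_bit n b h]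
      simp only [addL, addOut, addCy, List.length_cons, List.cons_append]
      rw [hh, ht]
      have hd : a.bits.drop (n.bits.length + 1) = a.div2.bits.drop n.bits.length := by
        rw [← ht, List.drop_tail]
      rw [hd]
    rw [hrec, ih]
    have ha : a = 2 * a.div2 + (if a.bodd then 1 else 0) := by
      have := Nat.bodd_add_div2 a
      cases hb : a.bodd <;> simp [hb] at this ⊢ <;> omega
    have e : (a + Nat.bit b n + if c then 1 else 0) =
        2 * (a.div2 + n + if maj a.bodd b c then 1 else 0) + (if (a.bodd ^^ b ^^ c) then 1 else 0) := by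
      rw [Nat.bit_val]
      conv_lhs => rw [ha]
      cases a.bodd <;> cases b <;> cases c <;> simp [maj] <;> omega
    rw [e, bits_cons]
    by_cases h0 : n = 0
    · have hb := h h0
      subst hb
      cases a.bodd <;> cases c <;> simp [maj]
    · left; omega

/-- ADD on canonical numbers -/
lemma ADD_nat (y a : ℕ) (r : Rec) (hY : r.Y = bs y.bits) (hA : r.A = bs a.bits)
    (h1 : r.t1 = []) (h2 : r.t2 = []) :
    Does ADD r (8 * y.bits.length + 5 * a.bits.length + 12) { r with A := bs (a + y).bits } := by
  have := ADD_spec y.bits a.bits r hY hA h1 h2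
  rw [addL_eq] at this
  simpa using this

end Pool.Agent.H44
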