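import Pool.Agent.H44.EFWeight

set_option autoImplicit false

namespace Pool.Agent.H44

open Finset

lemma refine_prod {ι : Type} [DecidableEq ι] (s : Finset ι) (f : ι → ℕ) :
    ∀ d : ℕ, d ∣ ∏ j ∈ s, f j → ∃ g : ι → ℕ, (∀ j ∈ s, g j ∣ f j) ∧ ∏ j ∈ s, g j = d := by
  induction s using Finset.induction_on with
  | empty =>
    intro d hd
    simp only [Finset.prod_empty, Nat.dvd_one] at hd
    exact ⟨fun _ => 1, by simp, by simp [hd]⟩
  | insert i s hi ih =>
    intro d hd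
    rw [Finset.prod_insert hi] at hd
    obtain ⟨d1, d2, h1, h2, rfl⟩ := exists_dvd_and_dvd_of_dvd_mul hd
    obtain ⟨g, hg1, hg2⟩ := ih d2 h2
    refine ⟨fun j => if j = i then d1 else g j, ?_, ?_⟩
    · intro j hj
      by_cases hji : j = i
      · subst hji; simpa using h1
      · simp only [hji, if_false]
        exact hg1 j ((Finset.mem_insert.1 hj).resolve_left hji)
    · rw [Finset.prod_insert hi]
      simp only [if_true]
      congr 1
      rw [← hg2]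
      apply Finset.prod_congr rfl
      intro j hj
      have : j ≠ i := by rintro rfl; exact hi hj
      simp [this]

lemma small_prod_le {a b g q r : ℕ} (hag : a ≤ g) (hbg : b ≤ g) (hq : a * b * g = q)
    (hq2 : q ^ 2 ≤ 2 ^ (3 * r)) : a * b ≤ 2 ^ r := by
  have h1 : (a * b) ^ 3 ≤ q ^ 2 := by
    calc (a * b) ^ 3 = (a * b) ^ 2 * (a * b) := by ring
      _ ≤ (a * b) ^ 2 * (g * g) := Nat.mul_le_mul_left _ (Nat.mul_le_mul hag hbg)
      _ = (a * b * g) ^ 2 := by ring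
      _ = q ^ 2 := by rw [hq]
  have h2 : (a * b) ^ 3 ≤ (2 ^ r) ^ 3 := by
    refine h1.trans (hq2.trans (le_of_eq ?_))
    rw [← pow_mul, mul_comm]
  exact le_of_pow_le_pow_left₀ (by norm_num) (Nat.zero_le _) h2

lemma mem_SS_of {a b r : ℕ} (ha : Odd a) (hb : Odd b) (h : a * b ≤ 2 ^ r) :
    a ∈ SS r ∧ b ∈ SS r := by
  simp only [SS, Finset.mem_filter, Finset.mem_Icc]
  have ha1 := ha.pos
  have hb1 := hb.pos
  refine ⟨⟨⟨ha1, ?_⟩, ha⟩, ⟨⟨hb1, ?_⟩, hb⟩⟩
  · exact (Nat.le_mul_of_pos_right a hb1).trans h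
  · exact (Nat.le_mul_of_pos_left b ha1).trans h

lemma per_index {q α β γ c r m2 : ℕ} (hq : α * β * γ = q) (hqo : Odd q)
    (hq2 : q ^ 2 ≤ 2 ^ (3 * r)) (hc : q ≡ c [MOD m2]) :
    ∃ (w : Fin 3) (a b m : ℕ), a ∈ SS r ∧ b ∈ SS r ∧ a * b ≤ 2 ^ r ∧ a * b ∣ q ∧
      α * m ≡ Uf w a b c [MOD m2] ∧ β * m ≡ Vf w a b c [MOD m2] := by
  have hαβ : Odd (α * β) := by
    rw [← hq] at hqo
    exact (Nat.odd_mul.1 hqo).1
  have hαo : Odd α := (Nat.odd_mul.1 hαβ).1
  have hβo : Odd β := (Nat.odd_mul.1 hαβ).2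
  have hγo : Odd γ := by
    rw [← hq] at hqo
    exact (Nat.odd_mul.1 hqo).2
  by_cases h0 : α ≤ γ ∧ β ≤ γ
  · have hle := small_prod_le h0.1 h0.2 hq hq2
    obtain ⟨hS1, hS2⟩ := mem_SS_of hαo hβo hle
    refine ⟨0, α, β, 1, hS1, hS2, hle, ⟨γ, hq.symm⟩, ?_, ?_⟩
    · simp [Uf, Nat.ModEq.refl]
    · simp [Vf, Nat.ModEq.refl]
  · by_cases h1 : β ≤ α ∧ γ ≤ α
    · have hq' : β * γ * α = q := by rw [← hq]; ring
      have hle := small_prod_le h1.1 h1.2 hq' hq2
      obtain ⟨hS1, hS2⟩ := mem_SS_of hβo hγo hle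
      refine ⟨1, β, γ, β * γ, hS1, hS2, hle, ⟨α, hq'.symm⟩, ?_, ?_⟩
      · have : α * (β * γ) = q := by rw [← hq]; ring
        rw [this]
        simpa [Uf] using hc
      · have : β * (β * γ) = β ^ 2 * γ := by ring
        rw [this]
        simp [Vf, Nat.ModEq.refl]
    · have h2 : α ≤ β ∧ γ ≤ β := by omega
      have hq' : α * γ * β = q := by rw [← hq]; ring
      have hle := small_prod_le h2.1 h2.2 hq' hq2
      obtain ⟨hS1, hS2⟩ := mem_SS_of hαo hγo hle
      refine ⟨2, α, γ, α * γ, hS1, hS2, hle, ⟨β, hq'.symm⟩, ?_, ?_⟩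
      · have : α * (α * γ) = α ^ 2 * γ := by ring
        rw [this]
        simp [Uf, Nat.ModEq.refl]
      · have : β * (α * γ) = q := by rw [← hq]; ring
        rw [this]
        simpa [Vf] using hc

lemma prod_modEq {ι : Type} (s : Finset ι) {m : ℕ} {f g : ι → ℕ}
    (h : ∀ j ∈ s, f j ≡ g j [MOD m]) : ∏ j ∈ s, f j ≡ ∏ j ∈ s, g j [MOD m] := by
  classical
  induction s using Finset.induction_on with
  | empty => exact Nat.ModEq.refl _
  | insert i s hi ih =>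
    rw [Finset.prod_insert hi, Finset.prod_insert hi]
    exact (h i (Finset.mem_insert_self _ _)).mul
      (ih fun j hj => h j (Finset.mem_insert_of_mem hj))

variable {ι : Type}

/-- the random number attached to the index `j` -/
def qf (κ r h : ℕ) (c : ι → ℕ) (j : ι) (u : ℕ) : ℕ := c j + (2 ^ κ) ^ 2 * (2 ^ (r + h) + u)

/-- the bad event -/
def BadE [Fintype ι] (κ r h : ℕ) (c : ι → ℕ) (ρ : ι → ℕ) : Prop :=
  ∃ d1 d2 : ℕ, Nat.Coprime d1 d2 ∧ d1 ∣ ∏ j, qf κ r h c j (ρ j) ∧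
    d2 ∣ ∏ j, qf κ r h c j (ρ j) ∧ (2 ^ κ) ^ 2 ∣ d1 + d2

lemma qf_odd {κ r h : ℕ} (hκ : 1 ≤ κ) {c : ι → ℕ} (hco : ∀ j, Odd (c j)) (j : ι) (u : ℕ) :
    Odd (qf κ r h c j u) := by
  unfold qf
  apply (hco j).add_even
  apply Even.mul_right
  have : Even (2 ^ κ) := by
    rw [Nat.even_pow]; exact ⟨even_two, by omega⟩
  exact this.pow_of_ne_zero (by norm_num) |> fun h => h

lemma qf_sq_le {κ r h : ℕ} (hr : 4 * κ + 2 * h + 2 ≤ r) {c : ι → ℕ}
    (hclt : ∀ j, c j < (2 ^ κ) ^ 2) (j : ι) {u : ℕ} (hu : u < 2 ^ r) :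
    (qf κ r h c j u) ^ 2 ≤ 2 ^ (3 * r) := by
  have h1 : qf κ r h c j u ≤ 2 ^ (2 * κ + r + h + 1) := by
    unfold qf
    have h2 := hclt j
    have h3 : 2 ^ r ≤ 2 ^ (r + h) := Nat.pow_le_pow_right (by norm_num) (by omega)
    have e : 2 ^ (2 * κ + r + h + 1) = (2 ^ κ) ^ 2 * (2 ^ (r + h) + 2 ^ (r + h)) := by
      rw [← pow_mul, ← two_mul, ← pow_succ', ← pow_add]
      congr 1
      ring
    rw [e]
    calc c j + (2 ^ κ) ^ 2 * (2 ^ (r + h) + u) ≤ (2 ^ κ) ^ 2 + (2 ^ κ) ^ 2 * (2 ^ (r + h) + u) := by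
          omega
      _ = (2 ^ κ) ^ 2 * (2 ^ (r + h) + (u + 1)) := by ring
      _ ≤ _ := by
          apply Nat.mul_le_mul_left
          omega
  calc (qf κ r h c j u) ^ 2 ≤ (2 ^ (2 * κ + r + h + 1)) ^ 2 := Nat.pow_le_pow_left h1 2
    _ = 2 ^ (2 * (2 * κ + r + h + 1)) := by rw [← pow_mul]; ring_nf
    _ ≤ 2 ^ (3 * r) := Nat.pow_le_pow_right (by norm_num) (by omega)

variable [Fintype ι] [DecidableEq ι]

lemma bad_cover {κ r h : ℕ} (hκ : 1 ≤ κ) (hr : 4 * κ + 2 * h + 2 ≤ r) {c : ι → ℕ}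
    (hco : ∀ j, Odd (c j)) (hclt : ∀ j, c j < (2 ^ κ) ^ 2) {ρ : ι → ℕ} (hρ : ∀ j, ρ j < 2 ^ r)
    (hbad : BadE κ r h c ρ) :
    ∃ (w : ι → Fin 3) (v : ι × Bool → ℕ), (∀ i, v i ∈ SS r) ∧ GG κ c w v ∧
      ∀ j, v (j, false) * v (j, true) ≤ 2 ^ r ∧
        v (j, false) * v (j, true) ∣ qf κ r h c j (ρ j) := by
  obtain ⟨d1, d2, hcop, h1, h2, hdvd⟩ := hbad
  have h12 : d1 * d2 ∣ ∏ j, qf κ r h c j (ρ j) := hcop.mul_dvd_of_dvd_of_dvd h1 h2
  obtain ⟨g, hg1, hg2⟩ := refine_prod Finset.univ _ _ h12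
  obtain ⟨α, hα1, hα2⟩ := refine_prod Finset.univ g d1 (by rw [hg2]; exact dvd_mul_right _ _)
  have hgpos : ∀ j, 0 < g j := by
    intro j
    exact Nat.pos_of_dvd_of_pos (hg1 j (Finset.mem_univ _)) (qf_odd hκ hco j (ρ j)).pos
  have hαpos : ∀ j, 0 < α j := fun j => Nat.pos_of_dvd_of_pos (hα1 j (Finset.mem_univ _)) (hgpos j)
  have hd1pos : 0 < d1 := by rw [← hα2]; exact Finset.prod_pos fun j _ => hαpos j
  have hprodβ : ∏ j, g j / α j = d2 := by
    have e : (∏ j, α j) * ∏ j, g j / α j = d1 * d2 := by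
      rw [← Finset.prod_mul_distrib, ← hg2]
      apply Finset.prod_congr rfl
      intro j hj
      exact Nat.mul_div_cancel' (hα1 j hj)
    rw [hα2] at e
    exact Nat.eq_of_mul_eq_mul_left hd1pos e
  have hfac : ∀ j, α j * (g j / α j) * (qf κ r h c j (ρ j) / g j) = qf κ r h c j (ρ j) := by
    intro j
    rw [Nat.mul_div_cancel' (hα1 j (Finset.mem_univ _)), Nat.mul_div_cancel' (hg1 j (Finset.mem_univ _))]
  have hmod : ∀ j, qf κ r h c j (ρ j) ≡ c j [MOD (2 ^ κ) ^ 2] := by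
    intro j
    unfold qf Nat.ModEq
    rw [Nat.add_mul_mod_self_left]
  choose w a b m ha hb hab hdv hU hV using fun j => per_index (hfac j) (qf_odd hκ hco j (ρ j))
    (qf_sq_le hr hclt j (hρ j)) (hmod j)
  refine ⟨w, fun i => if i.2 then b i.1 else a i.1, ?_, ?_, ?_⟩
  · rintro ⟨j, s⟩
    cases s
    · simpa using ha j
    · simpa using hb j
  · unfold GG
    simp only [Bool.false_eq_true, if_false, if_true]
    have e1 : ∏ j, (α j * m j) ≡ ∏ j, Uf (w j) (a j) (b j) (c j) [MOD (2 ^ κ) ^ 2] :=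
      prod_modEq _ fun j _ => hU j
    have e2 : ∏ j, ((g j / α j) * m j) ≡ ∏ j, Vf (w j) (a j) (b j) (c j) [MOD (2 ^ κ) ^ 2] :=
      prod_modEq _ fun j _ => hV j
    have e3 := (e1.add e2)
    rw [Finset.prod_mul_distrib, Finset.prod_mul_distrib, hα2, hprodβ, ← add_mul] at e3
    have e4 : (2 ^ κ) ^ 2 ∣ (d1 + d2) * ∏ j, m j := hdvd.mul_right _
    exact (e3.dvd_iff (dvd_refl _)).1 e4
  · intro j
    simp only [Bool.false_eq_true, if_false, if_true]
    exact ⟨hab j, hdv j⟩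

lemma count_le {κ r h m : ℕ} {c : ι → ℕ} (j : ι) (hm : Odd m) (hmr : m ≤ 2 ^ r) :
    (((Finset.range (2 ^ r)).filter fun u => m ∣ qf κ r h c j u).card : ℚ) ≤ 2 ^ (r + 1) / m := by
  have hm0 : 0 < m := hm.pos
  have hcop : Nat.Coprime m ((2 ^ κ) ^ 2) := (coprime_two_pow_sq hm).symm
  have hcard : ((Finset.range (2 ^ r)).filter fun u => m ∣ qf κ r h c j u).card ≤ 2 ^ r / m + 1 := by
    have hinj : Set.InjOn (fun u => u / m)
        (((Finset.range (2 ^ r)).filter fun u => m ∣ qf κ r h c j u : Finset ℕ) : Set ℕ) := by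
      intro u hu u' hu' huu
      have hu2 := (Finset.mem_filter.1 (Finset.mem_coe.1 hu)).2
      have hu2' := (Finset.mem_filter.1 (Finset.mem_coe.1 hu')).2
      unfold qf at hu2 hu2'
      have h1 : u ≡ u' [MOD m] := by
        have e1 : c j + (2 ^ κ) ^ 2 * (2 ^ (r + h) + u) ≡ c j + (2 ^ κ) ^ 2 * (2 ^ (r + h) + u') [MOD m] :=
          ((Nat.modEq_zero_iff_dvd.2 hu2).trans (Nat.modEq_zero_iff_dvd.2 hu2').symm)
        have e2 := Nat.ModEq.add_left_cancel' _ e1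
        have e3 : (2 ^ (r + h) + u) ≡ (2 ^ (r + h) + u') [MOD m] :=
          Nat.ModEq.cancel_left_of_coprime hcop e2
        exact Nat.ModEq.add_left_cancel' _ e3
      dsimp only at huu
      unfold Nat.ModEq at h1
      rw [← Nat.div_add_mod u m, ← Nat.div_add_mod u' m, huu, h1]
    have hmaps : ∀ u ∈ (Finset.range (2 ^ r)).filter (fun u => m ∣ qf κ r h c j u),
        u / m ∈ Finset.range (2 ^ r / m + 1) := by
      intro u hu
      simp only [Finset.mem_filter, Finset.mem_range] at hu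
      rw [Finset.mem_range]
      have := Nat.div_le_div_right (c := m) hu.1.le
      omega
    have := Finset.card_le_card_of_injOn _ hmaps hinj
    rwa [Finset.card_range] at this
  have hmq : (0 : ℚ) < m := by exact_mod_cast hm0
  have h1 : (((Finset.range (2 ^ r)).filter fun u => m ∣ qf κ r h c j u).card : ℚ) ≤
      ((2 ^ r / m + 1 : ℕ) : ℚ) := by exact_mod_cast hcard
  refine h1.trans ?_
  rw [le_div_iff₀ hmq]
  have h2 : (2 ^ r / m + 1) * m ≤ 2 ^ (r + 1) := by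
    have := Nat.div_mul_le_self (2 ^ r) m
    have e : 2 ^ (r + 1) = 2 ^ r + 2 ^ r := by ring
    rw [add_mul, one_mul, e]
    omega
  exact_mod_cast h2

open Classical in
theorem bad_count {κ z r h : ℕ} {A c : ι → ℕ} {τ : ι}
    (hz : 3 * z * Fintype.card ι + 2 ≤ κ) (hr : 4 * κ + 2 * h + 2 ≤ r) (hA : ∑ j, A j < 2 ^ κ)
    (hc : ∀ j, (c j : ℤ) ≡ (if j = τ then -1 else 1) * (1 + ((2 ^ κ : ℕ) : ℤ) * (A j : ℤ))
      [ZMOD ((2 ^ κ : ℕ) : ℤ) ^ 2])
    (hco : ∀ j, Odd (c j)) (hclt : ∀ j, c j < (2 ^ κ) ^ 2)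
    (hno : NoSplit A τ) :
    (((Fintype.piFinset (fun _ : ι => Finset.range (2 ^ r))).filter (BadE κ r h c)).card : ℚ) ≤
      (2 ^ (r + 1)) ^ (Fintype.card ι) * (3 ^ (Fintype.card ι) *
      ((2 * Fintype.card ι) * ((r + 1) ^ (2 * Fintype.card ι - 1) *
        (2 * (1 / 2 ^ z + (r + 1) / 2 ^ (2 * κ - 1)))))) := by
  have hκ : 1 ≤ κ := by omega
  -- the set of patterns
  set Pat : (ι → Fin 3) → Finset (ι × Bool → ℕ) := fun w =>
    (Fintype.piFinset (fun _ : ι × Bool => SS r)).filter (fun v => GG κ c w v ∧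
      ∀ j, v (j, false) * v (j, true) ≤ 2 ^ r) with hPat
  set Ev : (ι × Bool → ℕ) → Finset (ι → ℕ) := fun v =>
    Fintype.piFinset (fun j : ι => (Finset.range (2 ^ r)).filter fun u =>
      v (j, false) * v (j, true) ∣ qf κ r h c j u) with hEv
  have hsub : (Fintype.piFinset (fun _ : ι => Finset.range (2 ^ r))).filter (BadE κ r h c) ⊆
      Finset.univ.biUnion fun w : ι → Fin 3 => (Pat w).biUnion Ev := by
    intro ρ hρ
    simp only [Finset.mem_filter, Fintype.mem_piFinset, Finset.mem_range] at hρ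
    obtain ⟨w, v, hv1, hv2, hv3⟩ := bad_cover hκ hr hco hclt hρ.1 hρ.2
    simp only [Finset.mem_biUnion, Finset.mem_univ, true_and]
    refine ⟨w, v, ?_, ?_⟩
    · simp only [hPat, Finset.mem_filter, Fintype.mem_piFinset]
      exact ⟨hv1, hv2, fun j => (hv3 j).1⟩
    · simp only [hEv, Fintype.mem_piFinset, Finset.mem_filter, Finset.mem_range]
      exact fun j => ⟨hρ.1 j, (hv3 j).2⟩
  have hcardE : ∀ w, ∀ v ∈ Pat w, ((Ev v).card : ℚ) ≤
      (2 ^ (r + 1)) ^ (Fintype.card ι) * ∏ i, (1 : ℚ) / (v i : ℚ) := by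
    intro w v hv
    simp only [hPat, Finset.mem_filter, Fintype.mem_piFinset] at hv
    have hodd : ∀ i, Odd (v i) := by
      intro i
      have := hv.1 i
      simp only [SS, Finset.mem_filter] at this
      exact this.2
    simp only [hEv, Fintype.card_piFinset]
    push_cast
    have h1 : ∀ j ∈ (Finset.univ : Finset ι), (((Finset.range (2 ^ r)).filter fun u =>
        v (j, false) * v (j, true) ∣ qf κ r h c j u).card : ℚ) ≤
        2 ^ (r + 1) / ((v (j, false) * v (j, true) : ℕ) : ℚ) :=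
      fun j _ => count_le j ((hodd _).mul (hodd _)) (hv.2.2 j)
    refine (Finset.prod_le_prod (fun _ _ => Nat.cast_nonneg _) h1).trans (le_of_eq ?_)
    rw [Fintype.prod_prod_type]
    simp only [Fintype.prod_bool]
    rw [← Finset.card_univ, ← Finset.prod_const, ← Finset.prod_mul_distrib]
    apply Finset.prod_congr rfl
    intro j _
    push_cast
    rw [one_div, one_div, ← mul_inv, div_eq_mul_inv, mul_comm (v (j, true) : ℚ)]
  have h1 : (((Fintype.piFinset (fun _ : ι => Finset.range (2 ^ r))).filter (BadE κ r h c)).card : ℚ) ≤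
      ∑ w : ι → Fin 3, ∑ v ∈ Pat w, ((Ev v).card : ℚ) := by
    have h2 := Finset.card_le_card hsub
    have h3 : (Finset.univ.biUnion fun w : ι → Fin 3 => (Pat w).biUnion Ev).card ≤
        ∑ w : ι → Fin 3, ∑ v ∈ Pat w, (Ev v).card := by
      refine Finset.card_biUnion_le.trans ?_
      apply Finset.sum_le_sum
      intro w _
      exact Finset.card_biUnion_le
    exact_mod_cast h2.trans h3
  refine h1.trans ?_
  have h4 : ∀ w : ι → Fin 3, ∑ v ∈ Pat w, ((Ev v).card : ℚ) ≤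
      (2 ^ (r + 1)) ^ (Fintype.card ι) * ((2 * Fintype.card ι) *
        ((r + 1) ^ (2 * Fintype.card ι - 1) *
        (2 * (1 / 2 ^ z + (r + 1) / 2 ^ (2 * κ - 1))))) := by
    intro w
    refine (Finset.sum_le_sum (hcardE w)).trans ?_
    rw [← Finset.mul_sum]
    apply mul_le_mul_of_nonneg_left _ (by positivity)
    refine le_trans ?_ (weight_le (r := r) hz hA hc hco hno w)
    apply Finset.sum_le_sum_of_subset_of_nonneg
    · intro v hv
      simp only [hPat, Finset.mem_filter] at hv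
      simp only [Finset.mem_filter]
      exact ⟨hv.1, hv.2.1⟩
    · intro v _ _
      exact Finset.prod_nonneg fun _ _ => by positivity
  refine (Finset.sum_le_sum fun w _ => h4 w).trans (le_of_eq ?_)
  rw [Finset.sum_const, Finset.card_univ, Fintype.card_fun, Fintype.card_fin, nsmul_eq_mul]
  push_cast
  ring

end Pool.Agent.H44
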