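import Mathlib

set_option autoImplicit false

namespace Pool.Agent.H44

open Finset

/-- factor contributed to the first product, according to which part is the large one -/
def Uf (w : Fin 3) (a b c : ℕ) : ℕ := if w = 0 then a else if w = 1 then c else a ^ 2 * b

/-- factor contributed to the second product -/
def Vf (w : Fin 3) (a b c : ℕ) : ℕ := if w = 0 then b else if w = 1 then a ^ 2 * b else c

variable {ι : Type} [Fintype ι] [DecidableEq ι]

lemma prod_one_add_modEq (M : ℤ) (A : ι → ℕ) (s : Finset ι) :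
    ∏ j ∈ s, (1 + M * (A j : ℤ)) ≡ 1 + M * ((∑ j ∈ s, A j : ℕ) : ℤ) [ZMOD M ^ 2] := by
  induction s using Finset.induction_on with
  | empty => simp
  | insert i s hi ih =>
    rw [Finset.prod_insert hi, Finset.sum_insert hi]
    refine (Int.ModEq.mul_left _ ih).trans ?_
    rw [Int.modEq_iff_dvd]
    push_cast
    exact ⟨-((A i : ℤ) * ∑ j ∈ s, (A j : ℤ)), by ring⟩

/-- the small part of the two products -/
def N1f (w : Fin 3) (a b : ℕ) : ℕ := if w = 0 then a else if w = 1 then 1 else a ^ 2 * b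
def N2f (w : Fin 3) (a b : ℕ) : ℕ := if w = 0 then b else if w = 1 then a ^ 2 * b else 1

lemma Uf_eq (w : Fin 3) (a b c : ℕ) : Uf w a b c = (if w = 1 then c else 1) * N1f w a b := by
  fin_cases w <;> simp [Uf, N1f]

lemma Vf_eq (w : Fin 3) (a b c : ℕ) : Vf w a b c = (if w = 2 then c else 1) * N2f w a b := by
  fin_cases w <;> simp [Vf, N2f]

lemma prod_sel_modEq (M : ℤ) (A : ι → ℕ) (c : ι → ℕ) (τ : ι)
    (hc : ∀ j, (c j : ℤ) ≡ (if j = τ then -1 else 1) * (1 + M * (A j : ℤ)) [ZMOD M ^ 2])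
    (w : ι → Fin 3) (k : Fin 3) :
    ((∏ j, (if w j = k then c j else 1) : ℕ) : ℤ) ≡
      (if w τ = k then -1 else 1) * (1 + M * ((∑ j with w j = k, A j : ℕ) : ℤ)) [ZMOD M ^ 2] := by
  have h1 : ((∏ j, (if w j = k then c j else 1) : ℕ) : ℤ) = ∏ j with w j = k, (c j : ℤ) := by
    rw [Finset.prod_filter]
    push_cast
    rfl
  rw [h1]
  have h2 : ∏ j with w j = k, (c j : ℤ) ≡
      ∏ j with w j = k, ((if j = τ then -1 else 1) * (1 + M * (A j : ℤ))) [ZMOD M ^ 2] := by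
    apply Int.ModEq.prod
    intro j _
    exact hc j
  refine h2.trans ?_
  rw [Finset.prod_mul_distrib]
  have h3 : ∏ j with w j = k, (if j = τ then (-1 : ℤ) else 1) = if w τ = k then -1 else 1 := by
    rw [Finset.prod_ite_eq' (Finset.univ.filter fun j => w j = k) τ (fun _ => (-1 : ℤ))]
    simp
  rw [h3]
  exact Int.ModEq.mul_left _ (prod_one_add_modEq M A _)

lemma N1f_le {w : Fin 3} {a b Z : ℕ} (ha : a ≤ Z) (hb : b ≤ Z) (hZ : 1 ≤ Z) :
    N1f w a b ≤ Z ^ 3 := by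
  have h1 : Z ≤ Z ^ 3 := Nat.le_self_pow (by norm_num) Z
  have h2 : 1 ≤ Z ^ 3 := hZ.trans h1
  have h3 : a ^ 2 * b ≤ Z ^ 3 := by
    calc a ^ 2 * b ≤ Z ^ 2 * Z := Nat.mul_le_mul (Nat.pow_le_pow_left ha 2) hb
      _ = Z ^ 3 := by ring
  fin_cases w
  · simpa [N1f] using ha.trans h1
  · simpa [N1f] using h2
  · simpa [N1f] using h3

lemma N2f_le {w : Fin 3} {a b Z : ℕ} (ha : a ≤ Z) (hb : b ≤ Z) (hZ : 1 ≤ Z) :
    N2f w a b ≤ Z ^ 3 := by
  have h1 : Z ≤ Z ^ 3 := Nat.le_self_pow (by norm_num) Z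
  have h2 : 1 ≤ Z ^ 3 := hZ.trans h1
  have h3 : a ^ 2 * b ≤ Z ^ 3 := by
    calc a ^ 2 * b ≤ Z ^ 2 * Z := Nat.mul_le_mul (Nat.pow_le_pow_left ha 2) hb
      _ = Z ^ 3 := by ring
  fin_cases w
  · simpa [N2f] using hb.trans h1
  · simpa [N2f] using h3
  · simpa [N2f] using h2

lemma N1f_odd {w : Fin 3} {a b : ℕ} (ha : Odd a) (hb : Odd b) : Odd (N1f w a b) := by
  fin_cases w
  · simpa [N1f] using ha
  · simp [N1f]
  · simpa [N1f] using ha.pow.mul hb

lemma N2f_odd {w : Fin 3} {a b : ℕ} (ha : Odd a) (hb : Odd b) : Odd (N2f w a b) := by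
  fin_cases w
  · simpa [N2f] using hb
  · simpa [N2f] using ha.pow.mul hb
  · simp [N2f]

lemma odd_prod {f : ι → ℕ} (h : ∀ j, Odd (f j)) : Odd (∏ j, f j) := by
  apply Finset.prod_induction _ Odd (fun a b ha hb => ha.mul hb) odd_one
  intro j _
  exact h j

/-- `A` has no split: no two disjoint index sets, the first containing `τ`, with equal sums. -/
def NoSplit (A : ι → ℕ) (τ : ι) : Prop :=
  ∀ w : ι → Fin 3, w τ = 1 → ∑ j with w j = 1, A j ≠ ∑ j with w j = 2, A j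

theorem core_small {κ z : ℕ} {A c : ι → ℕ} {τ : ι}
    (hz : 3 * z * Fintype.card ι + 2 ≤ κ) (hA : ∑ j, A j < 2 ^ κ)
    (hc : ∀ j, (c j : ℤ) ≡ (if j = τ then -1 else 1) * (1 + ((2 ^ κ : ℕ) : ℤ) * (A j : ℤ))
      [ZMOD ((2 ^ κ : ℕ) : ℤ) ^ 2])
    (hno : NoSplit A τ) (w : ι → Fin 3) (a b : ι → ℕ)
    (hao : ∀ j, Odd (a j)) (hbo : ∀ j, Odd (b j))
    (ha : ∀ j, a j < 2 ^ z) (hb : ∀ j, b j < 2 ^ z)
    (hG : (2 ^ κ) ^ 2 ∣ ∏ j, Uf (w j) (a j) (b j) (c j) + ∏ j, Vf (w j) (a j) (b j) (c j)) :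
    False := by
  set M : ℕ := 2 ^ κ with hM
  set N1 : ℕ := ∏ j, N1f (w j) (a j) (b j) with hN1
  set N2 : ℕ := ∏ j, N2f (w j) (a j) (b j) with hN2
  set S1 : ℕ := ∑ j with w j = 1, A j with hS1
  set S2 : ℕ := ∑ j with w j = 2, A j with hS2
  have hMpos : 0 < M := by positivity
  have hZ1 : 1 ≤ 2 ^ z := Nat.one_le_two_pow
  have hpow : (2 ^ z) ^ 3 = 2 ^ (3 * z) := by rw [← pow_mul]; ring_nf
  have hbound : ∀ f : ι → ℕ, (∀ j, f j ≤ (2 ^ z) ^ 3) → 4 * ∏ j, f j ≤ M := by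
    intro f hf
    calc 4 * ∏ j, f j ≤ 4 * ∏ _j : ι, (2 ^ z) ^ 3 :=
          Nat.mul_le_mul_left _ (Finset.prod_le_prod' fun j _ => hf j)
      _ = 2 ^ (3 * z * Fintype.card ι + 2) := by
          rw [Finset.prod_const, hpow, ← pow_mul, Finset.card_univ, pow_add]; ring
      _ ≤ 2 ^ κ := Nat.pow_le_pow_right (by norm_num) hz
  have hN1M : 4 * N1 ≤ M := hbound _ fun j => N1f_le (ha j).le (hb j).le hZ1
  have hN2M : 4 * N2 ≤ M := hbound _ fun j => N2f_le (ha j).le (hb j).le hZ1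
  have hN1o : Odd N1 := odd_prod fun j => N1f_odd (hao j) (hbo j)
  have hN2o : Odd N2 := odd_prod fun j => N2f_odd (hao j) (hbo j)
  have hN1p : 0 < N1 := hN1o.pos
  have hN2p : 0 < N2 := hN2o.pos
  have hS1M : S1 < M := lt_of_le_of_lt
    (Finset.sum_le_sum_of_subset (Finset.filter_subset _ _)) hA
  have hS2M : S2 < M := lt_of_le_of_lt
    (Finset.sum_le_sum_of_subset (Finset.filter_subset _ _)) hA
  -- the congruence
  have hU : ((∏ j, Uf (w j) (a j) (b j) (c j) : ℕ) : ℤ) ≡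
      ((if w τ = 1 then -1 else 1) * (1 + (M : ℤ) * (S1 : ℤ))) * (N1 : ℤ) [ZMOD (M : ℤ) ^ 2] := by
    have : (∏ j, Uf (w j) (a j) (b j) (c j)) =
        (∏ j, (if w j = 1 then c j else 1)) * N1 := by
      rw [hN1, ← Finset.prod_mul_distrib]
      exact Finset.prod_congr rfl fun j _ => Uf_eq _ _ _ _
    rw [this, Nat.cast_mul]
    exact Int.ModEq.mul_right _ (prod_sel_modEq (M : ℤ) A c τ hc w 1)
  have hV : ((∏ j, Vf (w j) (a j) (b j) (c j) : ℕ) : ℤ) ≡
      ((if w τ = 2 then -1 else 1) * (1 + (M : ℤ) * (S2 : ℤ))) * (N2 : ℤ) [ZMOD (M : ℤ) ^ 2] := by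
    have : (∏ j, Vf (w j) (a j) (b j) (c j)) =
        (∏ j, (if w j = 2 then c j else 1)) * N2 := by
      rw [hN2, ← Finset.prod_mul_distrib]
      exact Finset.prod_congr rfl fun j _ => Vf_eq _ _ _ _
    rw [this, Nat.cast_mul]
    exact Int.ModEq.mul_right _ (prod_sel_modEq (M : ℤ) A c τ hc w 2)
  have hG' : ((M : ℤ) ^ 2) ∣
      (((∏ j, Uf (w j) (a j) (b j) (c j) : ℕ) : ℤ) +
        ((∏ j, Vf (w j) (a j) (b j) (c j) : ℕ) : ℤ)) := by
    exact_mod_cast hG
  have hkey : ((if w τ = 1 then -1 else 1) * (1 + (M : ℤ) * (S1 : ℤ))) * (N1 : ℤ) +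
      ((if w τ = 2 then -1 else 1) * (1 + (M : ℤ) * (S2 : ℤ))) * (N2 : ℤ) ≡ 0
      [ZMOD (M : ℤ) ^ 2] :=
    (Int.ModEq.add hU hV).symm.trans (Int.modEq_zero_iff_dvd.2 hG')
  have hcopN1 : IsCoprime (M : ℤ) (N1 : ℤ) := by
    rw [Nat.isCoprime_iff_coprime, hM]
    exact Nat.Coprime.pow_left κ (Nat.coprime_two_left.2 hN1o)
  -- final contradiction from equality of residues
  have fin : N1 = N2 → (M : ℤ) ^ 2 ∣ (M : ℤ) * ((S1 : ℤ) - S2) * N1 → S1 = S2 := by
    intro _ h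
    have h1 : (M : ℤ) ∣ ((S1 : ℤ) - S2) * N1 := by
      have : (M : ℤ) * M ∣ (M : ℤ) * (((S1 : ℤ) - S2) * N1) := by
        rw [show (M : ℤ) * M = (M : ℤ) ^ 2 by ring,
          show (M : ℤ) * (((S1 : ℤ) - S2) * N1) = (M : ℤ) * ((S1 : ℤ) - S2) * N1 by ring]
        exact h
      exact Int.dvd_of_mul_dvd_mul_left (by exact_mod_cast hMpos.ne') this
    have h2 : (M : ℤ) ∣ (S1 : ℤ) - S2 := hcopN1.dvd_of_dvd_mul_right h1
    have h3 : (S1 : ℤ) - S2 = 0 := by
      apply Int.eq_zero_of_abs_lt_dvd h2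
      rw [abs_lt]
      constructor <;> [skip; skip] <;>
      · have := (Int.ofNat_lt.2 hS1M); have := (Int.ofNat_lt.2 hS2M)
        push_cast at *
        omega
    omega
  have hval : w τ = 0 ∨ w τ = 1 ∨ w τ = 2 := by
    generalize w τ = k
    fin_cases k <;> simp
  have hMM : (M : ℤ) ∣ (M : ℤ) ^ 2 := Dvd.intro_left _ (by ring : (M : ℤ) * M = M ^ 2)
  rcases hval with h0 | h0 | h0
  · -- both signs positive
    rw [h0, if_neg (by decide), if_neg (by decide), Int.modEq_zero_iff_dvd] at hkey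
    have h1 : (M : ℤ) ∣ (N1 : ℤ) + N2 := by
      have h2 := hMM.trans hkey
      have h3 : (M : ℤ) ∣ (M : ℤ) * (S1 * N1 + S2 * N2) := Dvd.intro _ rfl
      have := dvd_sub h2 h3
      rw [show (1 * (1 + (M : ℤ) * S1) * N1 + 1 * (1 + (M : ℤ) * S2) * N2) -
        (M : ℤ) * (S1 * N1 + S2 * N2) = (N1 : ℤ) + N2 by ring] at this
      exact this
    have h2 : M ∣ N1 + N2 := by exact_mod_cast h1
    have := Nat.le_of_dvd (by omega) h2
    omega
  · rw [h0, if_pos rfl, if_neg (by decide), Int.modEq_zero_iff_dvd] at hkey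
    have h1 : (M : ℤ) ∣ (N2 : ℤ) - N1 := by
      have h2 := hMM.trans hkey
      have h3 : (M : ℤ) ∣ (M : ℤ) * (- (S1 * N1) + S2 * N2) := Dvd.intro _ rfl
      have := dvd_sub h2 h3
      rw [show (-1 * (1 + (M : ℤ) * S1) * N1 + 1 * (1 + (M : ℤ) * S2) * N2) -
        (M : ℤ) * (- (S1 * N1) + S2 * N2) = (N2 : ℤ) - N1 by ring] at this
      exact this
    have h2 : (N2 : ℤ) - N1 = 0 := by
      apply Int.eq_zero_of_abs_lt_dvd h1
      rw [abs_lt]
      constructor <;> [skip; skip] <;>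
      · zify at hN1M hN2M hN1p hN2p
        linarith
    have h3 : N1 = N2 := by omega
    apply hno w h0
    apply fin h3
    rw [← h3] at hkey
    have := dvd_neg.2 hkey
    rw [show -(-1 * (1 + (M : ℤ) * S1) * N1 + 1 * (1 + (M : ℤ) * S2) * N1) =
      (M : ℤ) * ((S1 : ℤ) - S2) * N1 by ring] at this
    exact this
  · rw [h0, if_neg (by decide), if_pos rfl, Int.modEq_zero_iff_dvd] at hkey
    have h1 : (M : ℤ) ∣ (N1 : ℤ) - N2 := by
      have h2 := hMM.trans hkey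
      have h3 : (M : ℤ) ∣ (M : ℤ) * ((S1 * N1) - S2 * N2) := Dvd.intro _ rfl
      have := dvd_sub h2 h3
      rw [show (1 * (1 + (M : ℤ) * S1) * N1 + -1 * (1 + (M : ℤ) * S2) * N2) -
        (M : ℤ) * ((S1 * N1) - S2 * N2) = (N1 : ℤ) - N2 by ring] at this
      exact this
    have h2 : (N1 : ℤ) - N2 = 0 := by
      apply Int.eq_zero_of_abs_lt_dvd h1
      rw [abs_lt]
      constructor <;> [skip; skip] <;>
      · zify at hN1M hN2M hN1p hN2p
        linarith
    have h3 : N1 = N2 := by omega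
    have hS : S1 = S2 := by
      apply fin h3
      rw [← h3] at hkey
      rw [show (1 * (1 + (M : ℤ) * S1) * N1 + -1 * (1 + (M : ℤ) * S2) * N1) =
        (M : ℤ) * ((S1 : ℤ) - S2) * N1 by ring] at hkey
      exact hkey
    -- swap the two classes
    let w' : ι → Fin 3 := fun j => if w j = 1 then 2 else if w j = 2 then 1 else 0
    have hw1 : (Finset.univ.filter fun j => w' j = 1) = Finset.univ.filter fun j => w j = 2 := by
      ext j
      simp only [Finset.mem_filter, Finset.mem_univ, true_and, w']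
      generalize w j = k
      fin_cases k <;> simp
    have hw2 : (Finset.univ.filter fun j => w' j = 2) = Finset.univ.filter fun j => w j = 1 := by
      ext j
      simp only [Finset.mem_filter, Finset.mem_univ, true_and, w']
      generalize w j = k
      fin_cases k <;> simp
    apply hno w' (by simp [w', h0])
    rw [hw1, hw2]
    exact hS.symm

end Pool.Agent.H44
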