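import Pool.Agent.H44.EFCore

set_option autoImplicit false

namespace Pool.Agent.H44

open Finset

lemma sq_dvd_pow_two {e : ℕ} {x x' : ℤ} (hx : Odd x) (hx' : Odd x')
    (h : (2 : ℤ) ^ (e + 1) ∣ x ^ 2 - x' ^ 2) : (2 : ℤ) ^ e ∣ x - x' ∨ (2 : ℤ) ^ e ∣ x + x' := by
  rcases Nat.eq_zero_or_pos e with rfl | he
  · left; simp
  obtain ⟨f, rfl⟩ : ∃ f, e = f + 1 := ⟨e - 1, by omega⟩
  obtain ⟨p, hp⟩ : ∃ p, x - x' = 2 * p := by
    have := hx.sub_odd hx'
    obtain ⟨p, hp⟩ := this
    exact ⟨p, by omega⟩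
  obtain ⟨q, hq⟩ : ∃ q, x + x' = 2 * q := by
    have := hx.add_odd hx'
    obtain ⟨p, hp⟩ := this
    exact ⟨p, by omega⟩
  have hpq : x = p + q := by omega
  have h4 : x ^ 2 - x' ^ 2 = 4 * (p * q) := by
    have : x ^ 2 - x' ^ 2 = (x - x') * (x + x') := by ring
    rw [this, hp, hq]; ring
  rw [h4] at h
  have h5 : (2 : ℤ) ^ f ∣ p * q := by
    have : (4 : ℤ) * 2 ^ f ∣ 4 * (p * q) := by
      have e : (4 : ℤ) * 2 ^ f = 2 ^ (f + 1 + 1) := by ring
      rw [e]; exact h
    exact Int.dvd_of_mul_dvd_mul_left (by norm_num) this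
  rcases Int.even_or_odd p with hpe | hpo
  · -- q is odd
    have hqo : Odd q := by
      rw [hpq] at hx
      rcases Int.even_or_odd q with h | h
      · exact absurd (hpe.add h) (Int.not_even_iff_odd.2 hx)
      · exact h
    left
    have hcop : IsCoprime ((2 : ℤ) ^ f) q := by
      apply IsCoprime.pow_left
      rw [Int.isCoprime_iff_gcd_eq_one]
      have := Int.isCoprime_iff_gcd_eq_one.1 ((Int.isCoprime_iff_gcd_eq_one (m := 2) (n := q)).2 (by
        have h2 : Int.gcd 2 q = 1 := by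
          obtain ⟨k, hk⟩ := hqo
          have : Int.gcd 2 q ∣ 1 := by
            have h1 : ((Int.gcd 2 q : ℕ) : ℤ) ∣ 2 := Int.gcd_dvd_left ..
            have h2 : ((Int.gcd 2 q : ℕ) : ℤ) ∣ q := Int.gcd_dvd_right ..
            have h3 : ((Int.gcd 2 q : ℕ) : ℤ) ∣ 1 := by
              have : (1 : ℤ) = q - 2 * k := by omega
              rw [this]
              exact dvd_sub h2 (h1.mul_right k)
            exact_mod_cast h3
          exact Nat.dvd_one.1 this
        exact h2))
      exact this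
    have := hcop.dvd_of_dvd_mul_right h5
    rw [hp, pow_succ, mul_comm]
    exact mul_dvd_mul_left 2 this
  · right
    have hcop : IsCoprime ((2 : ℤ) ^ f) p := by
      apply IsCoprime.pow_left
      rw [Int.isCoprime_iff_gcd_eq_one]
      obtain ⟨k, hk⟩ := hpo
      have : Int.gcd 2 p ∣ 1 := by
        have h1 : ((Int.gcd 2 p : ℕ) : ℤ) ∣ 2 := Int.gcd_dvd_left ..
        have h2 : ((Int.gcd 2 p : ℕ) : ℤ) ∣ p := Int.gcd_dvd_right ..
        have h3 : ((Int.gcd 2 p : ℕ) : ℤ) ∣ 1 := by
          have : (1 : ℤ) = p - 2 * k := by omega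
          rw [this]
          exact dvd_sub h2 (h1.mul_right k)
        exact_mod_cast h3
      exact Nat.dvd_one.1 this
    have := hcop.dvd_of_dvd_mul_left h5
    rw [hq, pow_succ, mul_comm]
    exact mul_dvd_mul_left 2 this

/-- partial harmonic sum -/
def HH (R : ℕ) : ℚ := ∑ i ∈ Finset.Icc 1 R, (1 : ℚ) / i

lemma HH_nonneg (R : ℕ) : 0 ≤ HH R := Finset.sum_nonneg fun _ _ => by positivity

lemma HH_pow_two (r : ℕ) : HH (2 ^ r) ≤ r + 1 := by
  induction r with
  | zero => simp [HH]
  | succ r ih =>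
    have hsplit : HH (2 ^ (r + 1)) = HH (2 ^ r) +
        ∑ i ∈ Finset.Icc (2 ^ r + 1 : ℕ) (2 ^ (r + 1) : ℕ), (1 : ℚ) / (i : ℚ) := by
      unfold HH
      have : Finset.Icc 1 (2 ^ (r + 1)) =
          Finset.Icc 1 (2 ^ r) ∪ Finset.Icc (2 ^ r + 1) (2 ^ (r + 1)) := by
        ext i
        simp only [Finset.mem_Icc, Finset.mem_union]
        have h1 : 2 ^ (r + 1) = 2 * 2 ^ r := by ring
        have h2 : 1 ≤ 2 ^ r := Nat.one_le_two_pow
        omega
      rw [this, Finset.sum_union]
      rw [Finset.disjoint_left]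
      intro i
      simp only [Finset.mem_Icc]
      omega
    rw [hsplit]
    have h2 : ∑ i ∈ Finset.Icc (2 ^ r + 1 : ℕ) (2 ^ (r + 1) : ℕ), (1 : ℚ) / (i : ℚ) ≤ 1 := by
      have hb : ∀ i ∈ Finset.Icc (2 ^ r + 1 : ℕ) (2 ^ (r + 1) : ℕ),
          (1 : ℚ) / (i : ℚ) ≤ 1 / ((2 ^ r : ℕ) : ℚ) := by
        intro i hi
        simp only [Finset.mem_Icc] at hi
        apply one_div_le_one_div_of_le
        · positivity
        · exact_mod_cast (by omega : 2 ^ r ≤ i)
      refine (Finset.sum_le_card_nsmul _ _ _ hb).trans ?_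
      rw [Nat.card_Icc, nsmul_eq_mul]
      have : 2 ^ (r + 1) + 1 - (2 ^ r + 1) = 2 ^ r := by
        have h1 : 2 ^ (r + 1) = 2 * 2 ^ r := by ring
        omega
      rw [this, mul_one_div, div_self]
      positivity
    push_cast
    linarith

lemma sum_inv_class_le {D z0 R : ℕ} (hD : 0 < D) (hz0 : 0 < z0) (X : Finset ℕ)
    (hX : ∀ x ∈ X, z0 ≤ x ∧ x ≤ R) (hc : ∀ x ∈ X, ∀ x' ∈ X, x ≡ x' [MOD D]) :
    ∑ x ∈ X, (1 : ℚ) / x ≤ 1 / z0 + HH R / D := by
  have hz0q : (0 : ℚ) < z0 := by exact_mod_cast hz0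
  have hDq : (0 : ℚ) < D := by exact_mod_cast hD
  have hinj : ∀ x ∈ X, ∀ x' ∈ X, x / D = x' / D → x = x' := by
    intro x hx x' hx' h
    have h1 := hc x hx x' hx'
    unfold Nat.ModEq at h1
    rw [← Nat.div_add_mod x D, ← Nat.div_add_mod x' D, h, h1]
  rw [← Finset.sum_filter_add_sum_filter_not X (fun x => x < D)]
  apply add_le_add
  · -- at most one element
    have hcard : (X.filter fun x => x < D).card ≤ 1 := by
      rw [Finset.card_le_one]
      intro x hx x' hx'
      simp only [Finset.mem_filter] at hx hx'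
      exact hinj x hx.1 x' hx'.1 (by rw [Nat.div_eq_of_lt hx.2, Nat.div_eq_of_lt hx'.2])
    refine (Finset.sum_le_card_nsmul _ _ (1 / (z0 : ℚ)) ?_).trans ?_
    · intro x hx
      simp only [Finset.mem_filter] at hx
      apply one_div_le_one_div_of_le hz0q
      exact_mod_cast (hX x hx.1).1
    · rw [nsmul_eq_mul]
      have : ((X.filter fun x => x < D).card : ℚ) ≤ 1 := by exact_mod_cast hcard
      calc _ ≤ 1 * (1 / (z0 : ℚ)) := mul_le_mul_of_nonneg_right this (by positivity)
        _ = _ := one_mul _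
  · have h1 : ∀ x ∈ X.filter (fun x => ¬ x < D), (1 : ℚ) / x ≤ (1 / ((x / D : ℕ) : ℚ)) / D := by
      intro x hx
      simp only [Finset.mem_filter, not_lt] at hx
      have hq : 1 ≤ x / D := (Nat.one_le_div_iff hD).2 hx.2
      have hqq : (0 : ℚ) < ((x / D : ℕ) : ℚ) := by exact_mod_cast hq
      rw [div_div]
      apply one_div_le_one_div_of_le (by positivity)
      exact_mod_cast Nat.div_mul_le_self x D
    refine (Finset.sum_le_sum h1).trans ?_
    rw [← Finset.sum_div]
    apply div_le_div_of_nonneg_right _ hDq.le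
    have h2 : ∑ x ∈ X.filter (fun x => ¬ x < D), (1 : ℚ) / ((x / D : ℕ) : ℚ) =
        ∑ i ∈ (X.filter (fun x => ¬ x < D)).image (fun x => x / D), (1 : ℚ) / (i : ℚ) := by
      rw [Finset.sum_image]
      intro x hx x' hx' h
      simp only [Finset.coe_filter, Set.mem_ofPred_eq] at hx hx'
      exact hinj x hx.1 x' hx'.1 h
    rw [h2]
    unfold HH
    apply Finset.sum_le_sum_of_subset_of_nonneg
    · intro i hi
      simp only [Finset.mem_image, Finset.mem_filter, not_lt] at hi
      obtain ⟨x, ⟨hx, hxD⟩, rfl⟩ := hi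
      rw [Finset.mem_Icc]
      exact ⟨(Nat.one_le_div_iff hD).2 hxD, (Nat.div_le_self _ _).trans (hX x hx).2⟩
    · intro i _ _
      positivity

/-- splitting off one coordinate of a weighted sum over a box -/
lemma sum_piFinset_le {I : Type} [Fintype I] [DecidableEq I] (S : Finset ℕ) (i0 : I)
    (P : (I → ℕ) → Prop) [DecidablePred P] (f : ℕ → ℚ) (hf : ∀ x ∈ S, 0 ≤ f x) (B : ℚ)
    (hB0 : 0 ≤ B)
    (hB : ∀ v : I → ℕ, (∀ i, v i ∈ S) → ∑ x ∈ S with P (Function.update v i0 x), f x ≤ B) :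
    ∑ v ∈ Fintype.piFinset (fun _ : I => S) with P v, ∏ i, f (v i) ≤
      (∑ x ∈ S, f x) ^ (Fintype.card I - 1) * B := by
  classical
  set J := {j : I // j ≠ i0} with hJ
  let comb : ℕ → (J → ℕ) → (I → ℕ) := fun x u => (Equiv.funSplitAt i0 ℕ).symm (x, u)
  have hcomb0 : ∀ x u, comb x u i0 = x := by
    intro x u; simp [comb, Equiv.funSplitAt, Equiv.piSplitAt]
  have hcomb1 : ∀ x u (j : J), comb x u j.1 = u j := by
    intro x u j
    have : j.1 ≠ i0 := j.2
    simp [comb, Equiv.funSplitAt, Equiv.piSplitAt, this]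
  have hupd : ∀ x x' u, Function.update (comb x' u) i0 x = comb x u := by
    intro x x' u
    ext i
    by_cases hi : i = i0
    · subst hi; simp [hcomb0]
    · rw [Function.update_of_ne hi]
      have h1 := hcomb1 x u ⟨i, hi⟩
      have h2 := hcomb1 x' u ⟨i, hi⟩
      rw [h1, h2]
  have hsum : ∑ v ∈ Fintype.piFinset (fun _ : I => S) with P v, ∏ i, f (v i) =
      ∑ u ∈ Fintype.piFinset (fun _ : J => S),
        ∑ x ∈ S with P (comb x u), f x * ∏ j, f (u j) := by
    rw [Finset.sum_filter]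
    simp_rw [Finset.sum_filter]
    rw [← Finset.sum_product']
    symm
    apply Finset.sum_bij (fun (p : (J → ℕ) × ℕ) _ => comb p.2 p.1)
    · intro p hp
      simp only [Finset.mem_product, Fintype.mem_piFinset] at hp
      rw [Fintype.mem_piFinset]
      intro i
      by_cases hi : i = i0
      · subst hi; rw [hcomb0]; exact hp.2
      · have := hcomb1 p.2 p.1 ⟨i, hi⟩
        rw [this]; exact hp.1 _
    · intro p _ p' _ h
      have h1 := congrFun h i0
      rw [hcomb0, hcomb0] at h1
      have h2 : p.1 = p'.1 := by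
        ext j
        have := congrFun h j.1
        rwa [hcomb1, hcomb1] at this
      exact Prod.ext h2 h1
    · intro v hv
      rw [Fintype.mem_piFinset] at hv
      refine ⟨(fun j => v j.1, v i0), ?_, ?_⟩
      · simp only [Finset.mem_product, Fintype.mem_piFinset]
        exact ⟨fun j => hv _, hv _⟩
      · ext i
        by_cases hi : i = i0
        · subst hi; rw [hcomb0]
        · have := hcomb1 (v i0) (fun j : J => v j.1) ⟨i, hi⟩
          exact this
    · intro p _
      by_cases hP : P (comb p.2 p.1)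
      · simp only [hP, if_true]
        rw [Fintype.prod_eq_mul_prod_subtype_ne (fun i => f (comb p.2 p.1 i)) i0, hcomb0]
        congr 1
        apply Finset.prod_congr rfl
        intro j _
        rw [hcomb1]
      · simp only [hP, if_false]
  rw [hsum]
  have hcardJ : Fintype.card J = Fintype.card I - 1 := by
    simp [J]
  have h1 : ∀ u ∈ Fintype.piFinset (fun _ : J => S),
      ∑ x ∈ S with P (comb x u), f x * ∏ j, f (u j) ≤ (∏ j, f (u j)) * B := by
    intro u hu
    rw [Fintype.mem_piFinset] at hu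
    rw [← Finset.sum_mul, mul_comm]
    apply mul_le_mul_of_nonneg_left
    · by_cases hS : S.Nonempty
      · obtain ⟨x0, hx0⟩ := hS
        have := hB (comb x0 u) (by
          intro i
          by_cases hi : i = i0
          · subst hi; rw [hcomb0]; exact hx0
          · have := hcomb1 x0 u ⟨i, hi⟩
            rw [this]; exact hu _)
        simp only [hupd] at this
        exact this
      · rw [Finset.not_nonempty_iff_eq_empty] at hS
        subst hS
        simpa using hB0
    · exact Finset.prod_nonneg fun j _ => hf _ (hu j)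
  refine (Finset.sum_le_sum h1).trans ?_
  rw [← Finset.sum_mul]
  apply mul_le_mul_of_nonneg_right _ hB0
  rw [Finset.sum_prod_piFinset S (fun _ x => f x), Finset.prod_const, Finset.card_univ, hcardJ]

end Pool.Agent.H44
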