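import Pool.Agent.H44.EFInit

set_option autoImplicit false

namespace Pool.Agent.H44

open Pool.Agent.StackProg

lemma yProd_append (m2 E r : ℕ) : ∀ (l l' : List ℕ) (q : List Bool),
    yProd m2 E r (l ++ l') q = yProd m2 E r l q * yProd m2 E r l' (q.drop (l.length * r))
  | [], l', q => by simp [yProd]
  | c :: l, l', q => by
      simp only [List.cons_append, yProd, List.length_cons]
      rw [yProd_append m2 E r l l' (q.drop r), List.drop_drop]
      rw [show r + l.length * r = (l.length + 1) * r by ring]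
      ring

lemma yP_pos (n k : ℕ) : ∀ (l : List ℕ) (q : List Bool), 1 ≤ yP n k l q
  | [], q => le_rfl
  | c :: l, q => by
      rw [yP_cons]
      exact Nat.mul_pos (fac_pos q) (yP_pos n k l _)

lemma yP_len (n k : ℕ) : ∀ (l : List ℕ) (q : List Bool),
    (∀ c ∈ l, c < (2 ^ (4 * n + k + 1)) ^ 2) →
    (yP n k l q).bits.length ≤ 1 + l.length * (8 * n + 10 * k + 3)
  | [], q, _ => by
      have : yP n k [] q = 1 := rfl
      rw [this]
      simp
  | c :: l, q, h => by
      rw [yP_cons, Nat.mul_comm]
      have h1 := len_mul (y := yP n k l (q.drop (7 * k))) (fac_lt q (h c (by simp)))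
      have h2 := yP_len n k l (q.drop (7 * k)) (fun c hc => h c (by simp [hc]))
      have h3 : (c :: l).length * (8 * n + 10 * k + 3) =
          l.length * (8 * n + 10 * k + 3) + (8 * n + 10 * k + 3) := by
        simp only [List.length_cons]; ring
      omega

lemma gmap_length (n k : ℕ) (p : ℕ) (b : List ℕ) : (gmap n k p b).length = 3 * b.length := by
  unfold gmap
  rw [List.length_map, gad_length]

/-- the special residue -/
def spc (n : ℕ) (b : List ℕ) (B : ℕ) : ℕ := (2 ^ kap n) ^ 2 - 1 - 2 ^ kap n * TT n b B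

lemma pl_snd (n : ℕ) (b : List ℕ) (B : ℕ) :
    (pl n b B).map Prod.snd = gmap n (kk n) 0 b ++ [spc n b B, 1] := by
  unfold pl gmap spc
  rw [List.map_append, List.map_map]
  rfl

lemma yOut_eq_yP (n : ℕ) (b : List ℕ) (B : ℕ) (q : List Bool) :
    yOut n b B q = yP n (kk n) (gmap n (kk n) 0 b ++ [spc n b B, 1]) q := by
  unfold yOut
  rw [pl_snd]
  rfl

lemma snd_lt {n : ℕ} {b : List ℕ} {B : ℕ} (hn : n = isize b B) :
    ∀ c ∈ gmap n (kk n) 0 b ++ [spc n b B, 1], c < (2 ^ (4 * n + kk n + 1)) ^ 2 := by
  intro c hc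
  rw [← pl_snd] at hc
  obtain ⟨a, ha, rfl⟩ := List.mem_map.1 hc
  obtain ⟨j, hj⟩ := List.mem_iff_get.1 ha
  have := cf_lt hn j
  unfold cf at this
  rw [hj] at this
  exact this

/-- length bound for `y` -/
def LL (n : ℕ) : ℕ := 1 + 3 * (n + 1) * (8 * n + 10 * kk n + 3)

def POST : P := .seq NUMS NUMZ

lemma POST_gen (n k el c y1 Lm : ℕ) (q1 d x : List Bool) (hy : 1 ≤ y1) (hd : d.length = 3 * n)
    (hx : x.length + el = n)
    (hc : (2 ^ (4 * n + k + 1)) ^ 2 - 1 - 2 ^ (4 * n + k + 1) * (bval d + 8 ^ n * bval x) = c)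
    (hL : y1.bits.length + (8 * n + 10 * k + 3) ≤ Lm) (hlt : c < (2 ^ (4 * n + k + 1)) ^ 2) :
    Does POST (St n k [] q1 n 0 el x d y1) (2 * tNum n k Lm)
      (St n k [] ((q1.drop (7 * k)).drop (7 * k)) n 0 el [] []
        (y1 * fac n k c q1 * fac n k 1 (q1.drop (7 * k)))) := by
  have g1 := NUMS_spec y1 n k el q1 d x
    (St n k [] q1 n 0 el x d y1) hy rfl rfl rfl rfl rfl rfl rfl rfl
    (by simp [St]) (by simp [St]) (by simp [St]) hd hx
  rw [hc] at g1
  have e1 : ({ St n k [] q1 n 0 el x d y1 with
        rho := cs (q1.drop (7 * k)), V := [], TD := [],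
        Y := bs (y1 * (c +
          (2 ^ (4 * n + k + 1)) ^ 2 * (2 ^ (7 * k + k) + bval (q1.take (7 * k))))).bits } : Rec) =
      St n k [] (q1.drop (7 * k)) n 0 el [] [] (y1 * fac n k c q1) := rfl
  rw [e1] at g1
  have hy2p : 1 ≤ y1 * fac n k c q1 := Nat.mul_pos hy (fac_pos _)
  have hy2l : (y1 * fac n k c q1).bits.length ≤ y1.bits.length + (8 * n + 10 * k + 3) :=
    len_mul (fac_lt q1 hlt)
  generalize y1 * fac n k c q1 = y2 at *
  have g2 := NUMZ_spec y2 n k (q1.drop (7 * k))
    (St n k [] (q1.drop (7 * k)) n 0 el [] [] y2) hy2p rfl rfl rfl rfl rfl rfl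
    (by simp [St]) (by simp [St])
  have e2 : ({ St n k [] (q1.drop (7 * k)) n 0 el [] [] y2 with
        rho := cs ((q1.drop (7 * k)).drop (7 * k)),
        Y := bs (y2 * (1 +
          (2 ^ (4 * n + k + 1)) ^ 2 * (2 ^ (7 * k + k) +
            bval ((q1.drop (7 * k)).take (7 * k))))).bits } : Rec) =
      St n k [] ((q1.drop (7 * k)).drop (7 * k)) n 0 el [] []
        (y2 * fac n k 1 (q1.drop (7 * k))) := rfl
  rw [e2] at g2
  have m1 := tNum_mono (n := n) (k := k) (show y1.bits.length ≤ Lm by omega)
  have m2 := tNum_mono (n := n) (k := k) (show y2.bits.length ≤ Lm by omega)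
  exact Does.mono (g1.seq g2) (by omega)

lemma POST_spec (n : ℕ) (b : List ℕ) (B : ℕ) (q : List Bool) (hn : n = isize b B) :
    Does POST (St n (kk n) [] (q.drop (3 * b.length * (7 * kk n))) n 0 (n - B.bits.length) B.bits
        (dg b ++ List.replicate (3 * B.bits.length) false) (yP n (kk n) (gmap n (kk n) 0 b) q))
      (2 * tNum n (kk n) (LL n))
      (St n (kk n) [] (q.drop (3 * b.length * (7 * kk n) + 14 * kk n)) n 0 (n - B.bits.length) []
        [] (yOut n b B q)) ∧ (yOut n b B q).bits.length ≤ LL n := by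
  have hn' := hn
  unfold isize at hn'
  have hb := length_le_encLen b
  have hlt := snd_lt hn
  have hLL : LL n = 1 + 3 * (n + 1) * (8 * n + 10 * kk n + 3) := rfl
  have hc : (2 ^ (4 * n + kk n + 1)) ^ 2 - 1 - 2 ^ (4 * n + kk n + 1) *
      (bval (dg b ++ List.replicate (3 * B.bits.length) false) + 8 ^ n * bval B.bits) =
      spc n b B := by
    have hdv : bval (dg b ++ List.replicate (3 * B.bits.length) false) = digs 0 b := by
      rw [bval_append, bval_replicate_false, Nat.mul_zero, Nat.add_zero]
      have := dg_val b 0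
      simpa using this
    rw [hdv, bval_bits]
    unfold spc TT kap
    rfl
  have hfin : (yOut n b B q).bits.length ≤ 1 + (3 * b.length + 2) * (8 * n + 10 * kk n + 3) := by
    rw [yOut_eq_yP]
    have := yP_len n (kk n) (gmap n (kk n) 0 b ++ [spc n b B, 1]) q hlt
    rw [List.length_append, gmap_length] at this
    exact this
  have hyo : yOut n b B q = yP n (kk n) (gmap n (kk n) 0 b) q *
      fac n (kk n) (spc n b B) (q.drop (3 * b.length * (7 * kk n))) *
      fac n (kk n) 1 ((q.drop (3 * b.length * (7 * kk n))).drop (7 * kk n)) := by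
    rw [yOut_eq_yP]
    unfold yP
    rw [yProd_append, gmap_length]
    generalize spc n b B = c
    generalize kk n = k
    generalize q.drop (3 * b.length * (7 * k)) = q1
    have e3 : yProd ((2 ^ (4 * n + k + 1)) ^ 2) (2 ^ (7 * k + k)) (7 * k) [c, 1]
        q1 = fac n k c q1 * (fac n k 1 (q1.drop (7 * k)) * 1) := rfl
    rw [e3, Nat.mul_one, Nat.mul_assoc]
  rw [hyo] at hfin ⊢
  have hy1l := yP_len n (kk n) (gmap n (kk n) 0 b) q (fun c hc => hlt c (by simp [hc]))
  rw [gmap_length] at hy1l
  have hy1p := yP_pos n (kk n) (gmap n (kk n) 0 b) q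
  have hq3 : q.drop (3 * b.length * (7 * kk n) + 14 * kk n) =
      ((q.drop (3 * b.length * (7 * kk n))).drop (7 * kk n)).drop (7 * kk n) := by
    rw [List.drop_drop, List.drop_drop]
    congr 1
    ring
  rw [hq3]
  have hcl : spc n b B < (2 ^ (4 * n + kk n + 1)) ^ 2 := hlt _ (by simp)
  have hdl : (dg b ++ List.replicate (3 * B.bits.length) false).length = 3 * n := by
    rw [List.length_append, List.length_replicate, dg_length]
    omega
  have hmono : (3 * b.length + 2) * (8 * n + 10 * kk n + 3) ≤
      3 * (n + 1) * (8 * n + 10 * kk n + 3) :=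
    Nat.mul_le_mul_right _ (by omega)
  have hexp : (3 * b.length + 2) * (8 * n + 10 * kk n + 3) =
      3 * b.length * (8 * n + 10 * kk n + 3) + 2 * (8 * n + 10 * kk n + 3) := by ring
  constructor
  · exact POST_gen n (kk n) (n - B.bits.length) (spc n b B) _ (LL n) _ _ B.bits hy1p hdl
      (by omega) hc (by omega) hcl
  · omega

/-- output phase -/
def OUTP : P :=
  .seq (mv .Y .t1) (.seq (mv .t1 .out) (.seq (put .out .comma) (.seq (put .out (.bit true))
    (.seq (puts .out (.bit false) 2) (.seq (fill .nn .t1 .out (.bit false) 8)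
      (fill .ks .t1 .out (.bit false) 2))))))

/-- cleaning phase -/
def CLEAN : P :=
  .seq (clr .rho) (.seq (clr .ks) (.seq (clr .n1) (.seq (clr .e) (clr .nn))))

/-- the whole program -/
def PROG : P := .seq INIT (.seq MAIN (.seq POST (.seq OUTP (.seq CLEAN (.load (fun _ => (.comma, false)))))))

lemma two_pow_bits (m : ℕ) : (2 ^ m).bits = List.replicate m false ++ [true] := by
  induction m with
  | zero => simp
  | succ m ih =>
    rw [pow_succ', Nat.bit0_bits _ (by positivity), ih, List.replicate_succ, List.cons_append]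

lemma OUTP_spec (n : ℕ) (q : List Bool) (el y : ℕ) :
    Does OUTP (St n (kk n) [] q n 0 el [] [] y)
      (4 * y.bits.length + 13 * n + 7 * kk n + 11)
      { St n (kk n) [] q n 0 el [] [] 0 with out := encPair (xOut n, y) } := by
  set k := kk n with hk
  set r0 : Rec := St n k [] q n 0 el [] [] y with hr0
  have g1 := mv_spec (show Stk.Y ≠ Stk.t1 by decide) (bs y.bits) r0 rfl
  set r1 : Rec := { r0 with Y := [], t1 := (bs y.bits).reverse } with hr1
  have e1 : set .Y [] (set .t1 ((bs y.bits).reverse ++ get .t1 r0) r0) = r1 := by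
    show ({ r0 with Y := [], t1 := (bs y.bits).reverse ++ [] } : Rec) = _
    rw [List.append_nil]
  rw [e1] at g1
  have g2 := mv_spec (show Stk.t1 ≠ Stk.out by decide) (bs y.bits).reverse r1 rfl
  set r2 : Rec := { r0 with Y := [], t1 := [], out := bs y.bits } with hr2
  have e2 : set .t1 [] (set .out ((bs y.bits).reverse.reverse ++ get .out r1) r1) = r2 := by
    show ({ r0 with Y := [], t1 := [], out := (bs y.bits).reverse.reverse ++ [] } : Rec) = _
    rw [List.append_nil, List.reverse_reverse]
  rw [e2] at g2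
  have g3 := put_spec .out .comma r2
  set r3 : Rec := { r2 with out := Sym.comma :: bs y.bits } with hr3
  have e3 : set .out (Sym.comma :: get .out r2) r2 = r3 := rfl
  rw [e3] at g3
  have g4 := put_spec .out (.bit true) r3
  set r4 : Rec := { r2 with out := Sym.bit true :: Sym.comma :: bs y.bits } with hr4
  have e4 : set .out (Sym.bit true :: get .out r3) r3 = r4 := rfl
  rw [e4] at g4
  have g5 := puts_spec .out (.bit false) 2 r4
  set r5 : Rec := { r2 with
    out := List.replicate 2 (Sym.bit false) ++ (Sym.bit true :: Sym.comma :: bs y.bits) } with hr5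
  have e5 : set .out (List.replicate 2 (Sym.bit false) ++ get .out r4) r4 = r5 := rfl
  rw [e5] at g5
  have g6 := fill_spec (a := .nn) (t := .t1) (z := .out) (by decide) (by decide) (by decide)
    (.bit false) 8 r5 rfl
  have hnn : (get .nn r5).length = n := List.length_replicate
  rw [hnn] at g6
  set r6 : Rec := { r2 with
    out := List.replicate (8 * n) (Sym.bit false) ++ (List.replicate 2 (Sym.bit false) ++
      (Sym.bit true :: Sym.comma :: bs y.bits)) } with hr6
  have e6 : set .out (List.replicate (8 * n) (Sym.bit false) ++ get .out r5) r5 = r6 := rfl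
  rw [e6] at g6
  have g7 := fill_spec (a := .ks) (t := .t1) (z := .out) (by decide) (by decide) (by decide)
    (.bit false) 2 r6 rfl
  have hks : (get .ks r6).length = k := List.length_replicate
  rw [hks] at g7
  have e7 : set .out (List.replicate (2 * k) (Sym.bit false) ++ get .out r6) r6 =
      { St n k [] q n 0 el [] [] 0 with out := encPair (xOut n, y) } := by
    have ex : encPair (xOut n, y) = List.replicate (2 * k) (Sym.bit false) ++
        (List.replicate (8 * n) (Sym.bit false) ++ (List.replicate 2 (Sym.bit false) ++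
      (Sym.bit true :: Sym.comma :: bs y.bits))) := by
      unfold encPair xOut
      simp only
      rw [← pow_mul, two_pow_bits, bs_append, ← bs_replicate]
      have : kap n * 2 = 2 * k + (8 * n + 2) := by unfold kap; rw [← hk]; ring
      rw [this, List.replicate_add, List.replicate_add]
      simp only [List.append_assoc]
      rfl
    rw [ex]
    have e8 : bs (0 : ℕ).bits = [] := by simp
    show ({ r2 with
      out := List.replicate (2 * k) (Sym.bit false) ++
        (List.replicate (8 * n) (Sym.bit false) ++ (List.replicate 2 (Sym.bit false) ++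
      (Sym.bit true :: Sym.comma :: bs y.bits))) } : Rec) = _
    rw [hr2, hr0]
    unfold St
    rw [e8]
  rw [e7] at g7
  refine Does.mono (g1.seq (g2.seq (g3.seq (g4.seq (g5.seq (g6.seq g7)))))) ?_
  rw [List.length_reverse, bs_length]
  omega

lemma CLEAN_spec (n : ℕ) (q : List Bool) (el : ℕ) (o : List Sym) :
    Does CLEAN { St n (kk n) [] q n 0 el [] [] 0 with out := o }
      (2 * q.length + 2 * kk n + 4 * n + 2 * el + 5) { R0 with out := o } := by
  set k := kk n with hk
  set r0 : Rec := { St n k [] q n 0 el [] [] 0 with out := o } with hr0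
  have g1 := clr_spec (a := .rho) (cs q) r0 rfl
  have g2 := clr_spec (a := .ks) (mks k) (set .rho [] r0) rfl
  have g3 := clr_spec (a := .n1) (mks n) (set .ks [] (set .rho [] r0)) rfl
  have g4 := clr_spec (a := .e) (mks el) (set .n1 [] (set .ks [] (set .rho [] r0))) rfl
  have g5 := clr_spec (a := .nn) (mks n) (set .e [] (set .n1 [] (set .ks [] (set .rho [] r0)))) rfl
  have g := g1.seq (g2.seq (g3.seq (g4.seq g5)))
  have e : set .nn [] (set .e [] (set .n1 [] (set .ks [] (set .rho [] r0)))) =
      { R0 with out := o } := by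
    have e8 : bs (0 : ℕ).bits = [] := by simp
    have e9 : ({ R0 with out := o, Y := bs (0 : ℕ).bits } : Rec) = { R0 with out := o } := by
      rw [e8]
      rfl
    rw [← e9]
    rfl
  rw [e] at g
  refine Does.mono g ?_
  have hc : (cs q).length = q.length := List.length_map _
  simp only [hc, List.length_replicate]
  omega

/-- total running time -/
def tAll (n m : ℕ) : ℕ :=
  tInit n m + (n * cSym n (kk n) (LL n) + 1) + 2 * tNum n (kk n) (LL n) +
    (4 * LL n + 13 * n + 7 * kk n + 11) + (2 * m + 2 * kk n + 4 * n + 2 * n + 5) + 1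

lemma syms_not_coin (b : List ℕ) (B : ℕ) : ∀ c ∈ encNums b ++ bs B.bits, isCoin c = false := by
  have hb : ∀ l : List Bool, ∀ c ∈ bs l, isCoin c = false := by
    intro l c hc
    unfold bs at hc
    obtain ⟨a, _, rfl⟩ := List.mem_map.1 hc
    rfl
  have hN : ∀ b : List ℕ, ∀ c ∈ encNums b, isCoin c = false := by
    intro b
    induction b with
    | nil => intro c hc; simp [encNums] at hc
    | cons x b ih =>
      intro c hc
      simp only [encNums, List.mem_append, List.mem_cons] at hc
      rcases hc with hc | rfl | hc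
      · exact hb _ c hc
      · rfl
      · exact ih c hc
  intro c hc
  rcases List.mem_append.1 hc with hc | hc
  · exact hN b c hc
  · exact hb _ c hc

lemma cSym_mono {n k L L' : ℕ} (h : L ≤ L') : cSym n k L ≤ cSym n k L' := by
  unfold cSym
  have := tNum_mono (n := n) (k := k) h
  omega

lemma fn_inp (l : List Sym) : fn { R0 with inp := l } = only .inp l := by
  funext k
  cases k <;> rfl

lemma fn_out (l : List Sym) : fn { R0 with out := l } = only .out l := by
  funext k
  cases k <;> rfl

theorem PROG_spec (b : List ℕ) (B : ℕ) (q : List Bool) :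
    ∃ t, t ≤ tAll (isize b B) q.length ∧
      Exec PROG ((Sym.comma, false), only Stk.inp (encInst ((b, B), q))) t
        ((Sym.comma, false), only Stk.out
          (encPair (xOut (isize b B), yOut (isize b B) b B q))) := by
  set n := isize b B with hn
  have hlen : (encNums b ++ bs B.bits).length = n := by
    rw [List.length_append, encNums_length, bs_length, hn]
    rfl
  have g1 := INIT_spec (encNums b ++ bs B.bits) q (syms_not_coin b B)
  rw [hlen] at g1
  have g2 := MAIN_spec n (kk n) b B q (by rw [hn]; rfl)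
  obtain ⟨g3, hyl⟩ := POST_spec n b B q hn
  have g4 := OUTP_spec n (q.drop (3 * b.length * (7 * kk n) + 14 * kk n)) (n - B.bits.length)
    (yOut n b B q)
  have g5 := CLEAN_spec n (q.drop (3 * b.length * (7 * kk n) + 14 * kk n)) (n - B.bits.length)
    (encPair (xOut n, yOut n b B q))
  obtain ⟨v1, t1, ht1, h1⟩ := g1 (Sym.comma, false)
  obtain ⟨v2, t2, ht2, h2⟩ := g2 v1
  obtain ⟨v3, t3, ht3, h3⟩ := g3 v2
  obtain ⟨v4, t4, ht4, h4⟩ := g4 v3
  obtain ⟨v5, t5, ht5, h5⟩ := g5 v4
  refine ⟨t1 + (t2 + (t3 + (t4 + (t5 + 1)))), ?_, ?_⟩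
  · have hb := length_le_encLen b
    have hbn : 3 * b.length ≤ 3 * (n + 1) := by
      have : n = encLen b + B.bits.length := hn
      omega
    have hL : 1 + 3 * b.length * (8 * n + 10 * kk n + 3) ≤ LL n := by
      unfold LL
      have := Nat.mul_le_mul_right (8 * n + 10 * kk n + 3) hbn
      omega
    have hc := Nat.mul_le_mul_left n (cSym_mono (n := n) (k := kk n) hL)
    have hd : (q.drop (3 * b.length * (7 * kk n) + 14 * kk n)).length ≤ q.length := by
      rw [List.length_drop]; omega
    have he : n - B.bits.length ≤ n := Nat.sub_le _ _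
    unfold tAll
    omega
  · rw [← fn_inp, ← fn_out]
    exact Exec.seq h1 (Exec.seq h2 (Exec.seq h3 (Exec.seq h4 (Exec.seq h5
      (Exec.load (fun _ => (Sym.comma, false)) v5 _)))))

lemma kk_mono {n N : ℕ} (h : n ≤ N) : kk n ≤ kk N := by
  unfold kk
  exact Nat.pow_le_pow_left (by omega) 3

lemma tAll_mono {n N m M : ℕ} (h : n ≤ N) (h' : m ≤ M) : tAll n m ≤ tAll N M := by
  have hk := kk_mono h
  have hLL : LL n ≤ LL N := by
    unfold LL
    have := Nat.mul_le_mul (show 3 * (n + 1) ≤ 3 * (N + 1) by omega)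
      (show 8 * n + 10 * kk n + 3 ≤ 8 * N + 10 * kk N + 3 by omega)
    omega
  have hmul : tMul (LL n) (8 * n + 10 * kk n + 2) ≤ tMul (LL N) (8 * N + 10 * kk N + 2) := by
    unfold tMul
    exact Nat.mul_le_mul (by omega) (by omega)
  have hnum : tNum n (kk n) (LL n) ≤ tNum N (kk N) (LL N) := by
    unfold tNum
    omega
  have hsym : cSym n (kk n) (LL n) ≤ cSym N (kk N) (LL N) := by
    unfold cSym
    omega
  have h1 := Nat.mul_le_mul h hsym
  have h2 : tInit n m ≤ tInit N M := by
    unfold tInit
    have h3 : (16 * n + 16) * (6 * (16 * n + 16) + 6) ≤ (16 * N + 16) * (6 * (16 * N + 16) + 6) :=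
      Nat.mul_le_mul (by omega) (by omega)
    have h4 : (16 * n + 16) * ((16 * n + 16) * (6 * (16 * n + 16) + 6) + 3) ≤
        (16 * N + 16) * ((16 * N + 16) * (6 * (16 * N + 16) + 6) + 3) :=
      Nat.mul_le_mul (by omega) (by omega)
    omega
  unfold tAll
  omega

open Polynomial in
lemma tAll_poly : ∃ T : Polynomial ℕ, ∀ N, T.eval N = tAll N N := by
  let kP : Polynomial ℕ := (16 * (X + 1)) ^ 3
  let LP : Polynomial ℕ := 1 + 3 * (X + 1) * (8 * X + 10 * kP + 3)
  let mP : Polynomial ℕ := ((8 * X + 10 * kP + 2) + 2) * (20 * (LP + (8 * X + 10 * kP + 2)) + 40)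
  let nP : Polynomial ℕ := 100 * (X + kP + 1) + mP
  let cP : Polynomial ℕ := 3 * nP + 2 * X + 10
  let iP : Polynomial ℕ := (3 * X + (3 * X + 1)) + (17 + (17 + (17 + (56 * X + 1 + (2 * X + 1 +
    ((16 * X + 16) * ((16 * X + 16) * (6 * (16 * X + 16) + 6) + 3) + 1 +
      (2 * (16 * X + 16) + 1 + (2 * (16 * X + 16) + 1 + 1))))))))
  refine ⟨iP + (X * cP + 1) + 2 * nP + (4 * LP + 13 * X + 7 * kP + 11) +
    (2 * X + 2 * kP + 4 * X + 2 * X + 5) + 1, ?_⟩
  intro N
  simp only [kP, LP, mP, nP, cP, iP, eval_add, eval_mul, eval_pow, eval_X, eval_one,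
    eval_ofNat]
  rfl

/-- the reduction is computable in polynomial time -/
theorem red_computable : Nonempty (Turing.TM2ComputableInPolyTime encInst encPair
    (fun a => (xOut (isize a.1.1 a.1.2), yOut (isize a.1.1 a.1.2) a.1.1 a.1.2 a.2))) := by
  obtain ⟨T, hT⟩ := tAll_poly
  refine StackProg.computable PROG Stk.inp Stk.out (Sym.comma, false) T ?_
  rintro ⟨⟨b, B⟩, q⟩
  obtain ⟨t, ht, he⟩ := PROG_spec b B q
  refine ⟨t, ht.trans ?_, he⟩
  rw [hT]
  have hl : (encInst ((b, B), q)).length = isize b B + q.length := by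
    unfold encInst
    simp only [List.length_append, encNums_length, bs_length]
    rw [show (cs q).length = q.length from List.length_map _]
    rfl
  rw [hl]
  exact tAll_mono (by omega) (by omega)

end Pool.Agent.H44
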