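import Mathlib

set_option autoImplicit false

namespace Pool.Agent.H44

open Finset

/-- numbers attached to the list part of a SUBSET-SUM instance; `p` is the current position,
`n` the total length of the encoded instance. -/
def gad (n : ℕ) : ℕ → List ℕ → List ℕ
  | _, [] => []
  | p, x :: bs =>
      (8 ^ (p + x.bits.length) + 8 ^ n * x) :: 8 ^ (p + x.bits.length) :: 0 ::
        gad n (p + x.bits.length + 1) bs

/-- sum of `8 ^ (position of comma)` -/
def digs : ℕ → List ℕ → ℕ
  | _, [] => 0
  | p, x :: bs => 8 ^ (p + x.bits.length) + digs (p + x.bits.length + 1) bs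

/-- length of the encoding of the list part -/
def encLen : List ℕ → ℕ
  | [] => 0
  | x :: bs => x.bits.length + 1 + encLen bs

def selSum (k : Fin 3) : List (Fin 3) → List ℕ → ℕ
  | w :: ws, a :: as => (if w = k then a else 0) + selSum k ws as
  | _, _ => 0

@[simp] lemma selSum_nil (k : Fin 3) (L : List ℕ) : selSum k [] L = 0 := by
  cases L <;> rfl

@[simp] lemma selSum_nil' (k : Fin 3) (ws : List (Fin 3)) : selSum k ws [] = 0 := by
  cases ws <;> rfl

@[simp] lemma selSum_cons (k w : Fin 3) (ws : List (Fin 3)) (a : ℕ) (as : List ℕ) :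
    selSum k (w :: ws) (a :: as) = (if w = k then a else 0) + selSum k ws as := rfl

lemma selSum_append (k : Fin 3) : ∀ (ws : List (Fin 3)) (L : List ℕ) (ws' : List (Fin 3))
    (L' : List ℕ), ws.length = L.length →
    selSum k (ws ++ ws') (L ++ L') = selSum k ws L + selSum k ws' L'
  | [], [], ws', L', _ => by simp
  | w :: ws, a :: L, ws', L', h => by
      simp only [List.cons_append, selSum_cons]
      rw [selSum_append k ws L ws' L' (by simpa using h)]
      ring
  | [], a :: L, _, _, h => by simp at h
  | w :: ws, [], _, _, h => by simp at h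

lemma sum_filter_eq_selSum (k : Fin 3) : ∀ (L : List ℕ) (w : Fin L.length → Fin 3),
    ∑ j with w j = k, L.get j = selSum k (List.ofFn w) L
  | [], w => by simp
  | a :: L, w => by
      have ih := sum_filter_eq_selSum k L (fun j => w j.succ)
      rw [Finset.sum_filter] at ih ⊢
      rw [List.ofFn_succ, selSum_cons, ← ih]
      exact Fin.sum_univ_succ _

lemma card_filter_eq_count (k : Fin 3) : ∀ (m : ℕ) (w : Fin m → Fin 3),
    (Finset.univ.filter fun j => w j = k).card = (List.ofFn w).count k
  | 0, w => by simp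
  | m + 1, w => by
      have ih := card_filter_eq_count k m (fun j => w j.succ)
      rw [Finset.card_filter] at ih ⊢
      rw [List.ofFn_succ, List.count_cons, ← ih, Fin.sum_univ_succ]
      rw [add_comm]
      congr 1
      by_cases h : w 0 = k <;> simp [h]

lemma gad_length (n : ℕ) : ∀ (b : List ℕ) (p : ℕ), (gad n p b).length = 3 * b.length
  | [], p => rfl
  | x :: bs, p => by
      simp only [gad, List.length_cons]
      rw [gad_length n bs]
      ring

lemma digs_dvd : ∀ (b : List ℕ) (p q : ℕ), q ≤ p → 8 ^ q ∣ digs p b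
  | [], p, q, _ => by simp [digs]
  | x :: bs, p, q, h => by
      simp only [digs]
      apply dvd_add
      · exact pow_dvd_pow 8 (by omega)
      · exact digs_dvd bs _ q (by omega)

lemma selSum_gad_dvd (n : ℕ) (k : Fin 3) : ∀ (b : List ℕ) (ws : List (Fin 3)) (p q : ℕ),
    q ≤ p → q ≤ n → 8 ^ q ∣ selSum k ws (gad n p b)
  | [], ws, p, q, _, _ => by simp [gad]
  | x :: bs, ws, p, q, h, hn => by
      have hp : (8 : ℕ) ^ q ∣ 8 ^ (p + x.bits.length) := pow_dvd_pow 8 (by omega)
      have hn' : (8 : ℕ) ^ q ∣ 8 ^ n * x := (pow_dvd_pow 8 hn).mul_right x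
      have ite_dvd : ∀ (P : Prop) [Decidable P] (a : ℕ), 8 ^ q ∣ a → 8 ^ q ∣ (if P then a else 0) := by
        intro P _ a ha
        split_ifs
        · exact ha
        · exact dvd_zero _
      simp only [gad]
      match ws with
      | [] => simp
      | [w1] =>
          simp only [selSum_cons, selSum_nil, add_zero]
          exact ite_dvd _ _ (dvd_add hp hn')
      | [w1, w2] =>
          simp only [selSum_cons, selSum_nil, add_zero]
          exact dvd_add (ite_dvd _ _ (dvd_add hp hn')) (ite_dvd _ _ hp)
      | w1 :: w2 :: w3 :: ws' =>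
          simp only [selSum_cons]
          refine dvd_add (ite_dvd _ _ (dvd_add hp hn')) (dvd_add (ite_dvd _ _ hp) (dvd_add ?_ ?_))
          · exact ite_dvd _ _ (dvd_zero _)
          · exact selSum_gad_dvd n k bs ws' _ q (by omega) hn

/-- main gadget lemma: equality of signed sums forces an honest subset sum -/
theorem gadget_sound (n : ℕ) : ∀ (b : List ℕ) (ws : List (Fin 3)) (p X Y : ℕ),
    p + encLen b ≤ n → ws.length = 3 * b.length →
    selSum 1 ws (gad n p b) + digs p b + 8 ^ n * X = selSum 2 ws (gad n p b) + 8 ^ n * Y →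
    ∃ l : List ℕ, l.Sublist b ∧ l.sum + Y = X
  | [], ws, p, X, Y, _, hlen, h => by
      simp only [gad, selSum_nil', digs, zero_add] at h
      have : X = Y := Nat.eq_of_mul_eq_mul_left (by positivity) h
      exact ⟨[], List.Sublist.refl _, by simp [this]⟩
  | x :: bs, ws, p, X, Y, hp, hlen, h => by
      obtain ⟨w1, w2, w3, ws', rfl⟩ : ∃ w1 w2 w3 ws', ws = w1 :: w2 :: w3 :: ws' := by
        match ws, hlen with
        | w1 :: w2 :: w3 :: ws', _ => exact ⟨w1, w2, w3, ws', rfl⟩
        | [], hlen => simp at hlen
        | [_], hlen => simp at hlen; omega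
        | [_, _], hlen => simp at hlen; omega
      simp only [encLen] at hp
      simp only [List.length_cons] at hlen
      set p' := p + x.bits.length with hp'
      simp only [gad, digs, selSum_cons, ← hp'] at h
      have hn : p' + 1 ≤ n := by omega
      -- everything else is divisible by 8^(p'+1)
      obtain ⟨D, hD⟩ : ∃ D, digs (p' + 1) bs = 8 ^ (p' + 1) * D := digs_dvd bs _ _ le_rfl
      obtain ⟨E1, hE1⟩ : ∃ E, selSum 1 ws' (gad n (p' + 1) bs) = 8 ^ (p' + 1) * E :=
        selSum_gad_dvd n 1 bs ws' _ _ le_rfl hn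
      obtain ⟨E2, hE2⟩ : ∃ E, selSum 2 ws' (gad n (p' + 1) bs) = 8 ^ (p' + 1) * E :=
        selSum_gad_dvd n 2 bs ws' _ _ le_rfl hn
      obtain ⟨N, hN⟩ : ∃ N, 8 ^ n = 8 ^ (p' + 1) * N := pow_dvd_pow 8 hn
      have ih := gadget_sound n bs ws' (p' + 1)
      have h8 : (8 : ℕ) ^ (p' + 1) = 8 ^ p' * 8 := pow_succ 8 p'
      have hpos : 0 < (8 : ℕ) ^ p' := by positivity
      -- reduce the equation modulo 8^(p'+1)
      have hval : ∀ w : Fin 3, w = 0 ∨ w = 1 ∨ w = 2 := by
        intro w; fin_cases w <;> simp
      have e01 : ¬ ((0 : Fin 3) = 1) := by decide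
      have e02 : ¬ ((0 : Fin 3) = 2) := by decide
      have e12 : ¬ ((1 : Fin 3) = 2) := by decide
      have e21 : ¬ ((2 : Fin 3) = 1) := by decide
      have key : ∀ a c : ℕ, ∀ U V : ℕ, 8 ^ p' * a + 8 ^ (p' + 1) * U = 8 ^ p' * c + 8 ^ (p' + 1) * V →
          a % 8 = c % 8 := by
        intro a c U V hh
        rw [h8, mul_assoc, mul_assoc, ← mul_add, ← mul_add] at hh
        have := Nat.eq_of_mul_eq_mul_left hpos hh
        omega
      rw [ite_self, ite_self] at h
      rcases hval w1 with rfl | rfl | rfl <;> rcases hval w2 with rfl | rfl | rfl <;>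
        simp only [e01, e02, e12, e21, if_false, if_pos, zero_add] at h
      · -- 0 0
        exfalso
        rw [hE1, hE2, hD, hN] at h
        have := key 1 0 (E1 + D + N * X) (E2 + N * Y) (by linarith)
        omega
      · -- 0 1
        exfalso
        rw [hE1, hE2, hD, hN] at h
        have := key 2 0 (E1 + D + N * X) (E2 + N * Y) (by linarith)
        omega
      · -- 0 2 : second chosen
        obtain ⟨l, hl, hs⟩ := ih X Y (by omega) (by omega) (by linarith)
        exact ⟨l, hl.cons _, hs⟩
      · -- 1 0
        exfalso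
        rw [hE1, hE2, hD, hN] at h
        have := key 2 0 (E1 + D + N * X + N * x) (E2 + N * Y) (by linarith)
        omega
      · -- 1 1
        exfalso
        rw [hE1, hE2, hD, hN] at h
        have := key 3 0 (E1 + D + N * X + N * x) (E2 + N * Y) (by linarith)
        omega
      · -- 1 2
        exfalso
        rw [hE1, hE2, hD, hN] at h
        have := key 2 1 (E1 + D + N * X + N * x) (E2 + N * Y) (by linarith)
        omega
      · -- 2 0 : first chosen
        obtain ⟨l, hl, hs⟩ := ih X (x + Y) (by omega) (by omega) (by linarith)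
        refine ⟨x :: l, hl.cons_cons _, ?_⟩
        simp only [List.sum_cons]
        omega
      · -- 2 1
        exfalso
        rw [hE1, hE2, hD, hN] at h
        have := key 2 1 (E1 + D + N * X) (E2 + N * Y + N * x) (by linarith)
        omega
      · -- 2 2
        exfalso
        rw [hE1, hE2, hD, hN] at h
        have := key 1 2 (E1 + D + N * X) (E2 + N * Y + N * x) (by linarith)
        omega

/-- completeness of the gadget, with balanced counts -/
theorem gadget_complete (n : ℕ) : ∀ (b l : List ℕ) (p : ℕ), l.Sublist b →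
    ∃ ws : List (Fin 3), ws.length = 3 * b.length ∧ selSum 1 ws (gad n p b) = 0 ∧
      selSum 2 ws (gad n p b) = digs p b + 8 ^ n * l.sum ∧
      ws.count 1 = b.length ∧ ws.count 2 = b.length
  | [], l, p, h => by
      have : l = [] := List.sublist_nil.1 h
      subst this
      exact ⟨[], by simp [gad, digs]⟩
  | x :: bs, l, p, h => by
      rcases List.sublist_cons_iff.1 h with h' | ⟨l', rfl, h'⟩
      · obtain ⟨ws, h1, h2, h3, h4, h5⟩ := gadget_complete n bs l (p + x.bits.length + 1) h'
        refine ⟨0 :: 2 :: 1 :: ws, ?_, ?_, ?_, ?_, ?_⟩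
        · simp [h1]; ring
        · simp [gad, h2]
        · simp [gad, digs, h3]; ring
        · simp [h4]
        · simp [h5]
      · obtain ⟨ws, h1, h2, h3, h4, h5⟩ := gadget_complete n bs l' (p + x.bits.length + 1) h'
        refine ⟨2 :: 0 :: 1 :: ws, ?_, ?_, ?_, ?_, ?_⟩
        · simp [h1]; ring
        · simp [gad, h2]
        · simp [gad, digs, h3]; ring
        · simp [h4]
        · simp [h5]

end Pool.Agent.H44
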