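import Pool.Agent.H44.EFLoop2

set_option autoImplicit false

namespace Pool.Agent.H44

open Pool.Agent.StackProg

/-- the empty record -/
def R0 : Rec :=
  { inp := [], out := [], F := [], rho := [], ks := [], n1 := [], n2 := [], e := [], V := [],
    TD := [], Z := [], A := [], Y := [], t1 := [], t2 := [], nn := [] }

/-- marks -/
abbrev mks (m : ℕ) : List Sym := List.replicate m Sym.comma

lemma mks_add (a b : ℕ) : mks a ++ mks b = mks (a + b) := by
  rw [mks, mks, ← List.replicate_add]

lemma mks_rev (a : ℕ) : (mks a).reverse = mks a := List.reverse_replicate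

def isCoin : Sym → Bool
  | .coin _ => true
  | _ => false

def SPLIT : P := each .inp (.ite (fun v => isCoin v.1) (putc .t2) (putc .t1))

lemma SPLIT_coins : ∀ (q : List Bool) (x : List Sym) (r : Rec), r.inp = cs q → r.t2 = x →
    Does SPLIT r (3 * q.length + 1) { r with inp := [], t2 := (cs q).reverse ++ x } := by
  intro q
  induction q with
  | nil =>
    intro x r h1 h2
    have e : ({ r with inp := [], t2 := (cs []).reverse ++ x } : Rec) = r := by
      cases r
      simp only at h1 h2
      subst h1 h2
      rfl
    rw [e]
    exact each_nil (show get .inp r = [] from h1)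
  | cons b q ih =>
    intro x r h1 h2
    have hs : DoesC (Sym.coin b) (.ite (fun v => isCoin v.1) (putc .t2) (putc .t1))
        (set .inp (cs q) r) (1 + 1) { r with inp := cs q, t2 := Sym.coin b :: x } := by
      apply ite_true (f := isCoin) rfl
      have := putc_spec (Sym.coin b) .t2 (set .inp (cs q) r)
      have e : set .t2 (Sym.coin b :: get .t2 (set .inp (cs q) r)) (set .inp (cs q) r) =
          { r with inp := cs q, t2 := Sym.coin b :: x } := by
        show ({ r with inp := cs q, t2 := Sym.coin b :: r.t2 } : Rec) = _
        rw [h2]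
      rw [e] at this
      exact this
    have h4 := ih (Sym.coin b :: x) { r with inp := cs q, t2 := Sym.coin b :: x } rfl rfl
    have h5 := each_cons (show get .inp r = Sym.coin b :: cs q from h1) hs h4
    have e : ({ ({ r with inp := cs q, t2 := Sym.coin b :: x } : Rec) with
        inp := [], t2 := (cs q).reverse ++ (Sym.coin b :: x) } : Rec) =
        { r with inp := [], t2 := (cs (b :: q)).reverse ++ x } := by
      have : (cs q).reverse ++ (Sym.coin b :: x) = (cs (b :: q)).reverse ++ x := by
        simp [cs]
      rw [this]
    rw [e] at h5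
    exact Does.mono h5 (by simp only [List.length_cons]; omega)

lemma SPLIT_syms : ∀ (l rest x : List Sym) (r r2 : Rec) (T : ℕ), (∀ c ∈ l, isCoin c = false) →
    r.inp = l ++ rest → r.t1 = x →
    Does SPLIT { r with inp := rest, t1 := l.reverse ++ x } T r2 →
    Does SPLIT r (3 * l.length + T) r2 := by
  intro l
  induction l with
  | nil =>
    intro rest x r r2 T _ h1 h2 h
    have e : ({ r with inp := rest, t1 := ([] : List Sym).reverse ++ x } : Rec) = r := by
      cases r
      simp only [List.nil_append] at h1 h2
      subst h1 h2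
      rfl
    rw [e] at h
    exact h.mono (by omega)
  | cons c l ih =>
    intro rest x r r2 T hc h1 h2 h
    have hs : DoesC c (.ite (fun v => isCoin v.1) (putc .t2) (putc .t1))
        (set .inp (l ++ rest) r) (1 + 1) { r with inp := l ++ rest, t1 := c :: x } := by
      apply ite_false (f := isCoin) (hc c (by simp))
      have := putc_spec c .t1 (set .inp (l ++ rest) r)
      have e : set .t1 (c :: get .t1 (set .inp (l ++ rest) r)) (set .inp (l ++ rest) r) =
          { r with inp := l ++ rest, t1 := c :: x } := by
        show ({ r with inp := l ++ rest, t1 := c :: r.t1 } : Rec) = _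
        rw [h2]
      rw [e] at this
      exact this
    have e : ({ ({ r with inp := l ++ rest, t1 := c :: x } : Rec) with
        inp := rest, t1 := l.reverse ++ (c :: x) } : Rec) =
        { r with inp := rest, t1 := (c :: l).reverse ++ x } := by
      have : l.reverse ++ (c :: x) = (c :: l).reverse ++ x := by simp
      rw [this]
    rw [← e] at h
    have h4 := ih rest (c :: x) { r with inp := l ++ rest, t1 := c :: x } r2 T
      (fun a ha => hc a (by simp [ha])) rfl rfl h
    have h5 := each_cons (show get .inp r = c :: (l ++ rest) from h1) hs h4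
    exact Does.mono h5 (by simp only [List.length_cons]; omega)

/-- body of the counting loop -/
def CNTb : P :=
  .seq (putc .F) (.seq (put .n2 .comma) (.seq (put .e .comma) (.seq (put .nn .comma)
    (.seq (puts .A .comma 16) (.seq (puts .Y .comma 16) (puts .Z .comma 16))))))

def CNT : P := each .t1 CNTb

/-- state during counting -/
def Cst (q : List Bool) (f l : List Sym) (m a : ℕ) : Rec :=
  { R0 with
    t1 := l, F := f, n2 := mks m, e := mks m, nn := mks m, A := mks a, Y := mks a, Z := mks a,
    t2 := (cs q).reverse }

lemma CNTb_spec (q : List Bool) (c : Sym) (f l : List Sym) (m a : ℕ) :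
    DoesC c CNTb (set .t1 l (Cst q f (c :: l) m a)) 55 (Cst q (c :: f) l (m + 1) (16 + a)) := by
  refine DoesC.mono (T := 1 + (1 + (1 + (1 + (17 + (17 + 17)))))) ?_ (by norm_num)
  apply putc_seq
  apply put_seq
  apply put_seq
  apply put_seq
  set r1 : Rec := { Cst q (c :: f) l (m + 1) a with A := mks a, Y := mks a, Z := mks a } with hr1
  have g1 := puts_spec .A .comma 16 r1
  set r2 : Rec := { Cst q (c :: f) l (m + 1) a with A := mks (16 + a), Y := mks a, Z := mks a }
    with hr2
  have e1 : set .A (List.replicate 16 Sym.comma ++ get .A r1) r1 = r2 := by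
    have : List.replicate 16 Sym.comma ++ mks a = mks (16 + a) := mks_add 16 a
    show ({ Cst q (c :: f) l (m + 1) a with A := List.replicate 16 Sym.comma ++ mks a, Y := mks a, Z := mks a } : Rec) = _
    rw [this]
  rw [e1] at g1
  have g2 := puts_spec .Y .comma 16 r2
  set r3 : Rec := { Cst q (c :: f) l (m + 1) a with A := mks (16 + a), Y := mks (16 + a), Z := mks a }
    with hr3
  have e2 : set .Y (List.replicate 16 Sym.comma ++ get .Y r2) r2 = r3 := by
    have : List.replicate 16 Sym.comma ++ mks a = mks (16 + a) := mks_add 16 a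
    show ({ Cst q (c :: f) l (m + 1) a with A := mks (16 + a), Y := List.replicate 16 Sym.comma ++ mks a, Z := mks a } : Rec) = _
    rw [this]
  rw [e2] at g2
  have g3 := puts_spec .Z .comma 16 r3
  have e3 : set .Z (List.replicate 16 Sym.comma ++ get .Z r3) r3 =
      Cst q (c :: f) l (m + 1) (16 + a) := by
    have : List.replicate 16 Sym.comma ++ mks a = mks (16 + a) := mks_add 16 a
    show ({ Cst q (c :: f) l (m + 1) a with A := mks (16 + a), Y := mks (16 + a), Z := List.replicate 16 Sym.comma ++ mks a } : Rec) = _
    rw [this]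
    rfl
  rw [e3] at g3
  exact (g1.seq (g2.seq g3)).toC

lemma CNT_spec (q : List Bool) : ∀ (l f : List Sym) (m a : ℕ),
    Does CNT (Cst q f l m a) (56 * l.length + 1)
      (Cst q (l.reverse ++ f) [] (m + l.length) (16 * l.length + a)) := by
  intro l
  induction l with
  | nil =>
    intro f m a
    have : Cst q (([] : List Sym).reverse ++ f) [] (m + ([] : List Sym).length)
        (16 * ([] : List Sym).length + a) = Cst q f [] m a := by simp
    rw [this]
    exact each_nil rfl
  | cons c l ih =>
    intro f m a
    have h1 := CNTb_spec q c f l m a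
    have h2 := ih (c :: f) (m + 1) (16 + a)
    have h3 := each_cons (k := .t1) (r := Cst q f (c :: l) m a) rfl h1 h2
    have e : Cst q (l.reverse ++ (c :: f)) [] (m + 1 + l.length) (16 * l.length + (16 + a)) =
        Cst q ((c :: l).reverse ++ f) [] (m + (c :: l).length) (16 * (c :: l).length + a) := by
      have e1 : l.reverse ++ (c :: f) = (c :: l).reverse ++ f := by simp
      have e2 : m + 1 + l.length = m + (c :: l).length := by simp only [List.length_cons]; ring
      have e3 : 16 * l.length + (16 + a) = 16 * (c :: l).length + a := by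
        simp only [List.length_cons]; ring
      rw [e1, e2, e3]
    rw [e] at h3
    exact Does.mono h3 (by simp only [List.length_cons]; omega)

/-- product of three unary numbers -/
def K3in : P := each .Y (.seq (putc .t1) (fill .Z .t2 .ks .comma 1))
def K3 : P := each .A (.seq K3in (mv .t1 .Y))

lemma K3in_spec : ∀ (a z m c : ℕ) (r : Rec), r.Y = mks a → r.Z = mks z → r.ks = mks m →
    r.t1 = mks c → r.t2 = [] →
    Does K3in r (a * (6 * z + 4) + 1)
      { r with Y := [], t1 := mks (c + a), ks := mks (m + a * z) } := by
  intro a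
  induction a with
  | zero =>
    intro z m c r h1 h2 h3 h4 h5
    have e : ({ r with Y := [], t1 := mks (c + 0), ks := mks (m + 0 * z) } : Rec) = r := by
      cases r
      simp only at h1 h3 h4
      subst h1 h3 h4
      simp
    rw [e]
    exact (each_nil (show get .Y r = [] from h1)).mono (by omega)
  | succ a ih =>
    intro z m c r h1 h2 h3 h4 h5
    set r1 : Rec := { r with Y := mks a, t1 := Sym.comma :: r.t1 } with hr1
    have g1 := fill_spec (a := .Z) (t := .t2) (z := .ks) (by decide) (by decide) (by decide)
      .comma 1 r1 h5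
    have eZ : (get .Z r1).length = z := by
      show r.Z.length = z
      rw [h2]; simp
    rw [eZ, Nat.one_mul] at g1
    set r2 : Rec := { r with Y := mks a, t1 := mks (c + 1), ks := mks (m + z) } with hr2
    have e1 : set .ks (List.replicate z Sym.comma ++ get .ks r1) r1 = r2 := by
      show ({ r with Y := mks a, t1 := Sym.comma :: r.t1, ks := List.replicate z Sym.comma ++ r.ks } : Rec) = r2
      have e2 : Sym.comma :: r.t1 = mks (c + 1) := by rw [h4, rep_succ]
      have e3 : List.replicate z Sym.comma ++ r.ks = mks (m + z) := by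
        rw [h3, mks_add, Nat.add_comm]
      rw [e2, e3]
    rw [e1] at g1
    have hs : DoesC Sym.comma (.seq (putc .t1) (fill .Z .t2 .ks .comma 1)) (set .Y (mks a) r)
        (1 + ((1 + 5) * z + 2)) r2 := by
      apply putc_seq
      exact g1.toC
    have h6 := ih z (m + z) (c + 1) r2 rfl h2 rfl rfl h5
    have hY : get .Y r = Sym.comma :: mks a := by
      show r.Y = _
      rw [h1, rep_succ]
    have h7 := each_cons hY hs h6
    have e : ({ r2 with Y := [], t1 := mks (c + 1 + a), ks := mks (m + z + a * z) } : Rec) =
        { r with Y := [], t1 := mks (c + (a + 1)), ks := mks (m + (a + 1) * z) } := by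
      rw [show c + 1 + a = c + (a + 1) by ring, show m + z + a * z = m + (a + 1) * z by ring]
    rw [e] at h7
    refine Does.mono h7 ?_
    have : (a + 1) * (6 * z + 4) = a * (6 * z + 4) + (6 * z + 4) := by ring
    omega

lemma K3_spec : ∀ (x a z m : ℕ) (r : Rec), r.A = mks x → r.Y = mks a → r.Z = mks z →
    r.ks = mks m → r.t1 = [] → r.t2 = [] →
    Does K3 r (x * (a * (6 * z + 6) + 3) + 1)
      { r with A := [], ks := mks (m + x * a * z) } := by
  intro x
  induction x with
  | zero =>
    intro a z m r h1 h2 h3 h4 h5 h6
    have e : ({ r with A := [], ks := mks (m + 0 * a * z) } : Rec) = r := by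
      cases r
      simp only at h1 h4
      subst h1 h4
      simp
    rw [e]
    exact (each_nil (show get .A r = [] from h1)).mono (by omega)
  | succ x ih =>
    intro a z m r h1 h2 h3 h4 h5 h6
    set r1 : Rec := { r with A := mks x } with hr1
    have g1 := K3in_spec a z m 0 r1 h2 h3 h4 h5 h6
    rw [Nat.zero_add] at g1
    set r2 : Rec := { r1 with Y := [], t1 := mks a, ks := mks (m + a * z) } with hr2
    have g2 := mv_spec (show Stk.t1 ≠ Stk.Y by decide) (mks a) r2 rfl
    set r3 : Rec := { r with A := mks x, ks := mks (m + a * z) } with hr3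
    have e1 : set .t1 [] (set .Y ((mks a).reverse ++ get .Y r2) r2) = r3 := by
      rw [mks_rev]
      show ({ r with A := mks x, Y := mks a ++ [], t1 := [], ks := mks (m + a * z) } : Rec) = r3
      rw [List.append_nil, ← h2, ← h5]
    rw [e1] at g2
    have hl : (mks a).length = a := List.length_replicate
    rw [hl] at g2
    have g3 := ih a z (m + a * z) r3 rfl h2 h3 rfl h5 h6
    have hA : get .A r = Sym.comma :: mks x := by
      show r.A = _
      rw [h1, rep_succ]
    have g4 := each_cons hA (g1.seq g2).toC g3
    have e : ({ r3 with A := [], ks := mks (m + a * z + x * a * z) } : Rec) =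
        { r with A := [], ks := mks (m + (x + 1) * a * z) } := by
      rw [show m + a * z + x * a * z = m + (x + 1) * a * z by ring]
    rw [e] at g4
    refine Does.mono g4 ?_
    have e5 : (x + 1) * (a * (6 * z + 6) + 3) = x * (a * (6 * z + 6) + 3) + (a * (6 * z + 4) + 2 * a + 3) := by
      ring
    omega

/-- the initial phase -/
def INIT : P :=
  .seq SPLIT (.seq (puts .A .comma 16) (.seq (puts .Y .comma 16) (.seq (puts .Z .comma 16)
    (.seq CNT (.seq (mv .t2 .rho) (.seq K3 (.seq (clr .Y) (.seq (clr .Z) (put .Y (.bit true))))))))))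

/-- time of the initial phase -/
def tInit (n m : ℕ) : ℕ :=
  (3 * n + (3 * m + 1)) + (17 + (17 + (17 + (56 * n + 1 + (2 * m + 1 +
    ((16 * n + 16) * ((16 * n + 16) * (6 * (16 * n + 16) + 6) + 3) + 1 +
      (2 * (16 * n + 16) + 1 + (2 * (16 * n + 16) + 1 + 1))))))))

lemma INIT_spec (l : List Sym) (q : List Bool) (hl : ∀ c ∈ l, isCoin c = false) :
    Does INIT { R0 with inp := l ++ cs q } (tInit l.length q.length)
      (St l.length (kk l.length) l q 0 l.length l.length [] [] 1) := by
  set n := l.length with hn
  -- split
  have g1 := SPLIT_syms l (cs q) [] { R0 with inp := l ++ cs q } _ _ hl rfl rfl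
    (SPLIT_coins q [] { R0 with inp := cs q, t1 := l.reverse ++ [] } rfl rfl)
  rw [List.append_nil, List.append_nil] at g1
  set r1 : Rec := { R0 with inp := [], t1 := l.reverse, t2 := (cs q).reverse } with hr1
  have g2 := puts_spec .A .comma 16 r1
  set r2 : Rec := { r1 with A := mks 16 } with hr2
  have e2 : set .A (List.replicate 16 Sym.comma ++ get .A r1) r1 = r2 := rfl
  rw [e2] at g2
  have g3 := puts_spec .Y .comma 16 r2
  set r3 : Rec := { r2 with Y := mks 16 } with hr3
  have e3 : set .Y (List.replicate 16 Sym.comma ++ get .Y r2) r2 = r3 := rfl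
  rw [e3] at g3
  have g4 := puts_spec .Z .comma 16 r3
  have e4 : set .Z (List.replicate 16 Sym.comma ++ get .Z r3) r3 = Cst q [] l.reverse 0 16 := rfl
  rw [e4] at g4
  have g5 := CNT_spec q l.reverse [] 0 16
  rw [List.length_reverse, List.reverse_reverse, List.append_nil, Nat.zero_add, ← hn] at g5
  have g6 := mv_spec (show Stk.t2 ≠ Stk.rho by decide) (cs q).reverse
    (Cst q l [] n (16 * n + 16)) rfl
  rw [List.length_reverse, List.reverse_reverse] at g6
  set r6 : Rec := { Cst q l [] n (16 * n + 16) with t2 := [], rho := cs q } with hr6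
  have e6 : set .t2 [] (set .rho (cs q ++ get .rho (Cst q l [] n (16 * n + 16)))
      (Cst q l [] n (16 * n + 16))) = r6 := by
    show ({ Cst q l [] n (16 * n + 16) with t2 := [], rho := cs q ++ [] } : Rec) = _
    rw [List.append_nil]
  rw [e6] at g6
  have g7 := K3_spec (16 * n + 16) (16 * n + 16) (16 * n + 16) 0 r6 rfl rfl rfl rfl rfl rfl
  rw [Nat.zero_add] at g7
  have ek : (16 * n + 16) * (16 * n + 16) * (16 * n + 16) = kk n := by
    unfold kk; ring
  rw [ek] at g7
  set r7 : Rec := { r6 with A := [], ks := mks (kk n) } with hr7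
  have g8 := clr_spec (a := .Y) (mks (16 * n + 16)) r7 rfl
  set r8 : Rec := { r7 with Y := [] } with hr8
  have e8 : set .Y [] r7 = r8 := rfl
  rw [e8] at g8
  have g9 := clr_spec (a := .Z) (mks (16 * n + 16)) r8 rfl
  set r9 : Rec := { r8 with Z := [] } with hr9
  have e9 : set .Z [] r8 = r9 := rfl
  rw [e9] at g9
  have g10 := put_spec .Y (.bit true) r9
  have e10 : set .Y (Sym.bit true :: get .Y r9) r9 = St n (kk n) l q 0 n n [] [] 1 := by
    have : (1 : ℕ).bits = [true] := by simp
    have e11 : St n (kk n) l q 0 n n [] [] 1 =
        { St n (kk n) l q 0 n n [] [] 1 with Y := bs [true] } := by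
      show _ = ({ inp := [], out := [], F := l, rho := cs q, ks := List.replicate (kk n) Sym.comma, n1 := List.replicate 0 Sym.comma, n2 := List.replicate n Sym.comma, e := List.replicate n Sym.comma, V := bs ([] : List Bool).reverse, TD := bs ([] : List Bool).reverse, Z := [], A := [], Y := bs [true], t1 := [], t2 := [], nn := List.replicate n Sym.comma } : Rec)
      rw [← this]
      rfl
    rw [e11]
    rfl
  rw [e10] at g10
  have g := g1.seq (g2.seq (g3.seq (g4.seq (g5.seq (g6.seq (g7.seq (g8.seq (g9.seq g10))))))))
  refine Does.mono g ?_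
  have hm : (mks (16 * n + 16)).length = 16 * n + 16 := List.length_replicate
  have hc : (cs q).length = q.length := List.length_map _
  rw [hm, hc]
  unfold tInit
  omega

end Pool.Agent.H44
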