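import Pool.Agent.H44.EFNum3

set_option autoImplicit false

namespace Pool.Agent.H44

open Pool.Agent.StackProg

lemma encNums_length : ∀ b : List ℕ, (encNums b).length = encLen b
  | [] => rfl
  | x :: l => by
      simp only [encNums, encLen, List.length_append, List.length_cons, bs_length,
        encNums_length l]
      ring

/-- machine state in the main loop -/
def St (n k : ℕ) (F : List Sym) (q : List Bool) (p u el : ℕ) (v d : List Bool) (y : ℕ) : Rec :=
  { inp := [], out := [], F := F, rho := cs q, ks := List.replicate k Sym.comma,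
    n1 := List.replicate p Sym.comma, n2 := List.replicate u Sym.comma,
    e := List.replicate el Sym.comma, V := bs v.reverse, TD := bs d.reverse, Z := [], A := [],
    Y := bs y.bits, t1 := [], t2 := [], nn := List.replicate n Sym.comma }

def isComma : Sym → Bool
  | .comma => true
  | _ => false

def BITb : P :=
  .seq (putc .V) (.seq (drop1 .e) (.seq (drop1 .n2) (.seq (put .n1 .comma)
    (puts .TD (.bit false) 3))))

/-- transfer the length of `V` to `e` -/
def VE : P := each .V (put .e .comma)

def COMMAb : P :=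
  .seq (drop1 .n2) (.seq (NUM true) (.seq (NUM false) (.seq NUMZ (.seq VE
    (.seq (put .n1 .comma) (.seq (put .TD (.bit true)) (puts .TD (.bit false) 2)))))))

def Body : P := .ite (fun v => isComma v.1) COMMAb BITb

def MAIN : P := each .F Body

lemma rep_succ (m : ℕ) : Sym.comma :: List.replicate m Sym.comma =
    List.replicate (m + 1) Sym.comma := by
  rw [List.replicate_succ]

lemma BIT_spec (n k : ℕ) (b : Bool) (l : List Sym) (q : List Bool) (p u el : ℕ) (v d : List Bool)
    (y : ℕ) :
    DoesC (Sym.bit b) Body (set .F l (St n k (Sym.bit b :: l) q p (u + 1) (el + 1) v d y)) 9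
      (St n k l q (p + 1) u el (v ++ [b]) (d ++ [false, false, false]) y) := by
  refine DoesC.mono (T := 1 + (1 + (1 + (1 + (1 + 4))))) ?_ (by norm_num)
  apply ite_false (f := isComma) rfl
  apply putc_seq
  apply drop_seq
  apply drop_seq
  apply put_seq
  set rB : Rec :=
    { St n k l q p u el v d y with
      n1 := Sym.comma :: List.replicate p Sym.comma
      n2 := (List.replicate (u + 1) Sym.comma).tail
      e := (List.replicate (el + 1) Sym.comma).tail
      V := Sym.bit b :: bs v.reverse } with hrB
  have h := puts_spec .TD (.bit false) 3 rB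
  have e : set .TD (List.replicate 3 (Sym.bit false) ++ get .TD rB) rB =
      St n k l q (p + 1) u el (v ++ [b]) (d ++ [false, false, false]) y := by
    have e1 : Sym.bit b :: bs v.reverse = bs (v ++ [b]).reverse := by simp
    have e2 : List.replicate 3 (Sym.bit false) ++ bs d.reverse =
        bs (d ++ [false, false, false]).reverse := by
      simp [List.replicate_succ]
    have e3 : rB = { St n k l q (p + 1) u el (v ++ [b]) d y with TD := bs d.reverse } := by
      rw [hrB, e1, List.tail_replicate, List.tail_replicate, rep_succ]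
      rfl
    rw [e3]
    show ({ St n k l q (p + 1) u el (v ++ [b]) d y with
      TD := List.replicate 3 (Sym.bit false) ++ bs d.reverse } : Rec) = _
    rw [e2]
    rfl
  rw [e] at h
  exact h.toC

lemma VE_spec : ∀ (l : List Sym) (m : ℕ) (r : Rec), r.V = l → r.e = List.replicate m Sym.comma →
    Does VE r (2 * l.length + 1) { r with V := [], e := List.replicate (m + l.length) Sym.comma } := by
  intro l
  induction l with
  | nil =>
    intro m r h1 h2
    have e : ({ r with V := [], e := List.replicate (m + ([] : List Sym).length) Sym.comma } : Rec) =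
        r := by
      cases r
      simp only at h1 h2
      subst h1 h2
      rfl
    rw [e]
    exact each_nil (show get .V r = [] from h1)
  | cons c l ih =>
    intro m r h1 h2
    have hs : DoesC c (put .e .comma) (set .V l r) 1
        { r with V := l, e := List.replicate (m + 1) Sym.comma } := by
      have := put_spec .e .comma (set .V l r)
      have e : set .e (Sym.comma :: get .e (set .V l r)) (set .V l r) =
          { r with V := l, e := List.replicate (m + 1) Sym.comma } := by
        show ({ r with V := l, e := Sym.comma :: r.e } : Rec) = _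
        rw [h2, rep_succ]
      rw [e] at this
      exact this.toC
    have h4 := ih (m + 1) { r with V := l, e := List.replicate (m + 1) Sym.comma } rfl rfl
    have h5 := each_cons (show get .V r = c :: l from h1) hs h4
    have e : ({ ({ r with V := l, e := List.replicate (m + 1) Sym.comma } : Rec) with
        V := [], e := List.replicate (m + 1 + l.length) Sym.comma } : Rec) =
        { r with V := [], e := List.replicate (m + (c :: l).length) Sym.comma } := by
      rw [show m + 1 + l.length = m + (c :: l).length by simp only [List.length_cons]; ring]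
    rw [e] at h5
    refine h5.mono ?_
    simp only [List.length_cons]
    omega

/-- one factor -/
def fac (n k c : ℕ) (q : List Bool) : ℕ :=
  c + (2 ^ (4 * n + k + 1)) ^ 2 * (2 ^ (7 * k + k) + bval (q.take (7 * k)))

/-- numbers attached to a list element -/
def cNum (n k p a : ℕ) : ℕ := 1 + 2 ^ (4 * n + k + 1) * (8 ^ p + 8 ^ n * a)

lemma cNum_lt (s : Bool) {n k p u el : ℕ} {x : List Bool} (hn : p + 1 + u = n)
    (hxe : x.length + el = n) :
    cNum n k p (if s then bval x else 0) < (2 ^ (4 * n + k + 1)) ^ 2 := by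
  have hl3 : ([] ++ [true] ++ List.replicate (4 * n + k) false ++ afW s p u el k x).length =
      2 * (4 * n + k + 1) := by
    simp only [List.length_append, List.length_replicate, List.length_singleton, afW_length,
      List.length_nil]
    omega
  have hv3 : bval ([] ++ [true] ++ List.replicate (4 * n + k) false ++ afW s p u el k x) =
      1 + 2 ^ (4 * n + k + 1) * (8 ^ p + 8 ^ n * (if s then bval x else 0)) := by
    rw [List.nil_append, bval_bs_true, afW_val, hn]
  have := bval_lt ([] ++ [true] ++ List.replicate (4 * n + k) false ++ afW s p u el k x)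
  rw [hl3, hv3, mul_comm 2 (4 * n + k + 1), pow_mul] at this
  exact this

lemma fac_lt {n k c : ℕ} (q : List Bool) (hc : c < (2 ^ (4 * n + k + 1)) ^ 2) :
    fac n k c q < 2 ^ (8 * n + 10 * k + 3) := by
  unfold fac
  have h1 := bval_lt (q.take (7 * k))
  have h2 : (q.take (7 * k)).length ≤ 7 * k := by
    rw [List.length_take]; omega
  have h3 : 2 ^ (q.take (7 * k)).length ≤ 2 ^ (7 * k + k) :=
    Nat.pow_le_pow_right (by norm_num) (by omega)
  have h4 : (2 : ℕ) ^ (8 * n + 10 * k + 3) =
      (2 ^ (4 * n + k + 1)) ^ 2 * (2 ^ (7 * k + k) + 2 ^ (7 * k + k)) := by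
    rw [← two_mul, ← pow_succ', ← pow_mul, ← pow_add]
    congr 1
    ring
  have h5 : (2 ^ (4 * n + k + 1)) ^ 2 * (2 ^ (7 * k + k) + bval (q.take (7 * k)) + 1) ≤
      (2 ^ (4 * n + k + 1)) ^ 2 * (2 ^ (7 * k + k) + 2 ^ (7 * k + k)) :=
    Nat.mul_le_mul_left _ (by omega)
  rw [h4]
  rw [Nat.mul_add, Nat.mul_one] at h5
  omega

lemma len_mul {y f L : ℕ} (h : f < 2 ^ L) : (y * f).bits.length ≤ y.bits.length + L := by
  apply bits_length_le
  have h1 := bits_lt y
  rw [pow_add]
  exact Nat.mul_lt_mul'' h1 h

lemma fac_pos {n k c : ℕ} (q : List Bool) : 1 ≤ fac n k c q := by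
  unfold fac
  have h1 : 1 ≤ (2 ^ (4 * n + k + 1)) ^ 2 := Nat.one_le_pow _ _ (by positivity)
  have h2 : 1 ≤ 2 ^ (7 * k + k) := Nat.one_le_two_pow
  have : 1 * 1 ≤ (2 ^ (4 * n + k + 1)) ^ 2 * (2 ^ (7 * k + k) + bval (q.take (7 * k))) :=
    Nat.mul_le_mul h1 (by omega)
  omega

lemma tMul_mono {L L' W : ℕ} (h : L ≤ L') : tMul L W ≤ tMul L' W := by
  unfold tMul
  exact Nat.mul_le_mul_left _ (by omega)

lemma tNum_mono {n k L L' : ℕ} (h : L ≤ L') : tNum n k L ≤ tNum n k L' := by
  unfold tNum
  have := tMul_mono (W := 8 * n + 10 * k + 2) h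
  omega

lemma COMMA_spec (n k : ℕ) (l : List Sym) (q : List Bool) (p u el : ℕ) (v d : List Bool)
    (y Lm : ℕ) (hy : 1 ≤ y) (hn : p + 1 + u = n) (hv : v.length + el = n)
    (hL : y.bits.length + 3 * (8 * n + 10 * k + 3) ≤ Lm) :
    DoesC Sym.comma Body (set .F l (St n k (Sym.comma :: l) q p (u + 1) el v d y))
      (3 * tNum n k Lm + 2 * n + 9)
      (St n k l ((q.drop (7 * k)).drop (7 * k) |>.drop (7 * k)) (p + 1) u n []
        (d ++ [true, false, false])
        (y * fac n k (cNum n k p (bval v)) q * fac n k (cNum n k p 0) (q.drop (7 * k)) *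
          fac n k 1 ((q.drop (7 * k)).drop (7 * k)))) := by
  set q1 := q.drop (7 * k) with hq1
  set q2 := q1.drop (7 * k) with hq2
  set q3 := q2.drop (7 * k) with hq3
  set y1 := y * fac n k (cNum n k p (bval v)) q with hy1
  set y2 := y1 * fac n k (cNum n k p 0) q1 with hy2
  set y3 := y2 * fac n k 1 q2 with hy3
  have hc1 : cNum n k p (bval v) < (2 ^ (4 * n + k + 1)) ^ 2 := by
    have := cNum_lt true (k := k) hn hv
    simpa using this
  have hc2 : cNum n k p 0 < (2 ^ (4 * n + k + 1)) ^ 2 := by
    have := cNum_lt false (k := k) hn hv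
    simpa using this
  have hc3 : 1 < (2 ^ (4 * n + k + 1)) ^ 2 := by
    have : 2 ≤ 2 ^ (4 * n + k + 1) := by
      calc 2 = 2 ^ 1 := by norm_num
        _ ≤ _ := Nat.pow_le_pow_right (by norm_num) (by omega)
    nlinarith
  have hl1 : y1.bits.length ≤ y.bits.length + (8 * n + 10 * k + 3) := len_mul (fac_lt q hc1)
  have hl2 : y2.bits.length ≤ y1.bits.length + (8 * n + 10 * k + 3) := len_mul (fac_lt q1 hc2)
  have hp1 : 1 ≤ y1 := Nat.mul_pos hy (fac_pos q)
  have hp2 : 1 ≤ y2 := Nat.mul_pos hp1 (fac_pos q1)
  -- the record after dropping one mark of `n2`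
  set r0 : Rec := St n k l q p u el v d y with hr0
  have hdrop : set .n2 (get .n2 (set .F l (St n k (Sym.comma :: l) q p (u + 1) el v d y))).tail
      (set .F l (St n k (Sym.comma :: l) q p (u + 1) el v d y)) = r0 := by
    show ({ St n k l q p (u + 1) el v d y with n2 := (List.replicate (u + 1) Sym.comma).tail } : Rec)
      = _
    rw [List.tail_replicate]
    rfl
  have g1 := NUM_spec true y n k p u el q v r0 hy rfl rfl rfl rfl rfl rfl rfl (by simp [hr0, St])
    (by simp [hr0, St]) (by simp [hr0, St]) (by simp [hr0, St]) (by simp [hr0, St]) hn hv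
  set r1 : Rec := St n k l q1 p u el v d y1 with hr1
  have e1 : ({ r0 with
        rho := cs (q.drop (7 * k)),
        Y := bs (y * ((1 + 2 ^ (4 * n + k + 1) * (8 ^ p + 8 ^ n * (if true then bval v else 0))) +
          (2 ^ (4 * n + k + 1)) ^ 2 * (2 ^ (7 * k + k) + bval (q.take (7 * k))))).bits } : Rec) =
      r1 := rfl
  rw [e1] at g1
  have g2 := NUM_spec false y1 n k p u el q1 v r1 hp1 rfl rfl rfl rfl rfl rfl rfl
    (by simp [hr1, St])
    (by simp [hr1, St]) (by simp [hr1, St]) (by simp [hr1, St]) (by simp [hr1, St]) hn hv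
  set r2 : Rec := St n k l q2 p u el v d y2 with hr2
  have e2 : ({ r1 with
        rho := cs (q1.drop (7 * k)),
        Y := bs (y1 * ((1 + 2 ^ (4 * n + k + 1) * (8 ^ p + 8 ^ n * (if false then bval v else 0))) +
          (2 ^ (4 * n + k + 1)) ^ 2 * (2 ^ (7 * k + k) + bval (q1.take (7 * k))))).bits } : Rec) =
      r2 := rfl
  rw [e2] at g2
  have g3 := NUMZ_spec y2 n k q2 r2 hp2 rfl rfl rfl rfl rfl rfl
    (by simp [hr2, St]) (by simp [hr2, St])
  set r3 : Rec := St n k l q3 p u el v d y3 with hr3
  have e3 : ({ r2 with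
        rho := cs (q2.drop (7 * k)),
        Y := bs (y2 * (1 +
          (2 ^ (4 * n + k + 1)) ^ 2 * (2 ^ (7 * k + k) + bval (q2.take (7 * k))))).bits } : Rec) =
      r3 := rfl
  rw [e3] at g3
  have g4 := VE_spec (bs v.reverse) el r3 rfl rfl
  have e4l : el + (bs v.reverse).length = n := by
    rw [bs_length, List.length_reverse]; omega
  rw [e4l] at g4
  set r4 : Rec := { r3 with V := [], e := List.replicate n Sym.comma } with hr4
  have g5 := put_spec .n1 .comma r4
  set r5 : Rec := { r4 with n1 := List.replicate (p + 1) Sym.comma } with hr5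
  have e5 : set .n1 (Sym.comma :: get .n1 r4) r4 = r5 := by
    show ({ r4 with n1 := Sym.comma :: List.replicate p Sym.comma } : Rec) = _
    rw [rep_succ]
  rw [e5] at g5
  have g6 := put_spec .TD (.bit true) r5
  set r6 : Rec := { r5 with TD := Sym.bit true :: bs d.reverse } with hr6
  have e6 : set .TD (Sym.bit true :: get .TD r5) r5 = r6 := rfl
  rw [e6] at g6
  have g7 := puts_spec .TD (.bit false) 2 r6
  have e7 : set .TD (List.replicate 2 (Sym.bit false) ++ get .TD r6) r6 =
      St n k l q3 (p + 1) u n [] (d ++ [true, false, false]) y3 := by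
    have : List.replicate 2 (Sym.bit false) ++ (Sym.bit true :: bs d.reverse) =
        bs (d ++ [true, false, false]).reverse := by
      simp [List.replicate_succ]
    show ({ r5 with TD := List.replicate 2 (Sym.bit false) ++ (Sym.bit true :: bs d.reverse) }
      : Rec) = _
    rw [this]
    rfl
  rw [e7] at g7
  have g := g1.seq (g2.seq (g3.seq (g4.seq (g5.seq (g6.seq g7)))))
  have hm1 := tNum_mono (n := n) (k := k) (show y.bits.length ≤ Lm by omega)
  have hm2 := tNum_mono (n := n) (k := k) (show y1.bits.length ≤ Lm by omega)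
  have hm3 := tNum_mono (n := n) (k := k) (show y2.bits.length ≤ Lm by omega)
  have hbl : (bs v.reverse).length ≤ n := by omega
  refine DoesC.mono (T := 1 + (1 + (tNum n k y.bits.length + (tNum n k y1.bits.length +
    (tNum n k y2.bits.length + (2 * (bs v.reverse).length + 1 + (1 + (1 + 3)))))))) ?_ (by omega)
  apply ite_true (f := isComma) rfl
  apply drop_seq
  rw [hdrop]
  exact g.toC

end Pool.Agent.H44
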