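import Pool.Agent.H44.EFLoop

set_option autoImplicit false

namespace Pool.Agent.H44

open Pool.Agent.StackProg

lemma BITS_loop (n k : ℕ) : ∀ (x : List Bool) (l : List Sym) (q v d : List Bool)
    (p u el y T : ℕ) (r2 : Rec),
    Does MAIN (St n k l q (p + x.length) u el (v ++ x)
      (d ++ List.replicate (3 * x.length) false) y) T r2 →
    Does MAIN (St n k (bs x ++ l) q p (u + x.length) (el + x.length) v d y)
      (10 * x.length + T) r2 := by
  intro x
  induction x with
  | nil =>
    intro l q v d p u el y T r2 h
    simp only [List.length_nil, Nat.add_zero, List.append_nil, Nat.mul_zero,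
      List.replicate_zero] at h
    exact h.mono (by omega)
  | cons b x ih =>
    intro l q v d p u el y T r2 h
    have e1 : p + (b :: x).length = p + 1 + x.length := by
      simp only [List.length_cons]; ring
    have e2 : v ++ b :: x = (v ++ [b]) ++ x := by simp
    have e3 : d ++ List.replicate (3 * (b :: x).length) false =
        (d ++ [false, false, false]) ++ List.replicate (3 * x.length) false := by
      have : 3 * (b :: x).length = 3 + 3 * x.length := by simp only [List.length_cons]; ring
      rw [this, List.replicate_add, List.append_assoc]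
      rfl
    rw [e1, e2, e3] at h
    have h1 := ih l q (v ++ [b]) (d ++ [false, false, false]) (p + 1) u el y T r2 h
    have h2 := BIT_spec n k b (bs x ++ l) q p (u + x.length) (el + x.length) v d y
    have h3 := each_cons (k := .F) (body := Body)
      (r := St n k (Sym.bit b :: (bs x ++ l)) q p (u + x.length + 1) (el + x.length + 1) v d y)
      rfl h2 h1
    exact Does.mono h3 (by simp only [List.length_cons]; omega)

/-- residues attached to the list part -/
def gmap (n k p : ℕ) (b : List ℕ) : List ℕ :=
  (gad n p b).map (fun a => 1 + 2 ^ (4 * n + k + 1) * a)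

/-- position digits of the list part -/
def dg : List ℕ → List Bool
  | [] => []
  | x :: l => List.replicate (3 * x.bits.length) false ++ ([true, false, false] ++ dg l)

lemma dg_length : ∀ b : List ℕ, (dg b).length = 3 * encLen b
  | [] => rfl
  | x :: l => by
      simp only [dg, encLen, List.length_append, List.length_replicate, dg_length l,
        List.length_cons, List.length_nil]
      ring

lemma dg_val : ∀ (b : List ℕ) (p : ℕ), 8 ^ p * bval (dg b) = digs p b
  | [], p => by simp [dg, digs, bval]
  | x :: l, p => by
      have ih := dg_val l (p + x.bits.length + 1)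
      simp only [dg, digs, bval_append, bval_replicate_false, List.length_replicate]
      rw [← ih]
      have e1 : bval [true, false, false] = 1 := rfl
      have e2 : ([true, false, false] : List Bool).length = 3 := rfl
      rw [e1, e2, pow_mul]
      norm_num
      rw [pow_add, pow_add]
      ring

/-- product of the factors -/
abbrev yP (n k : ℕ) (l : List ℕ) (q : List Bool) : ℕ :=
  yProd ((2 ^ (4 * n + k + 1)) ^ 2) (2 ^ (7 * k + k)) (7 * k) l q

lemma yP_cons (n k c : ℕ) (l : List ℕ) (q : List Bool) :
    yP n k (c :: l) q = fac n k c q * yP n k l (q.drop (7 * k)) := rfl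

/-- cost per symbol -/
def cSym (n k Lm : ℕ) : ℕ := 3 * tNum n k Lm + 2 * n + 10

lemma LIST_loop (n k Lm : ℕ) : ∀ (b : List ℕ) (l : List Sym) (q d : List Bool)
    (p u y T : ℕ) (r2 : Rec), p + encLen b + u = n → 1 ≤ y →
    y.bits.length + 3 * b.length * (8 * n + 10 * k + 3) ≤ Lm →
    Does MAIN (St n k l (q.drop (3 * b.length * (7 * k))) (p + encLen b) u n []
      (d ++ dg b) (y * yP n k (gmap n k p b) q)) T r2 →
    Does MAIN (St n k (encNums b ++ l) q p (u + encLen b) n [] d y)
      (encLen b * cSym n k Lm + T) r2 := by
  intro b
  induction b with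
  | nil =>
    intro l q d p u y T r2 _ _ _ h
    simp only [List.length_nil, Nat.mul_zero, Nat.zero_mul, List.drop_zero, encLen, Nat.add_zero,
      dg, List.append_nil, gmap, gad, List.map_nil] at h
    have e : y * yP n k [] q = y := by simp [yProd]
    rw [e] at h
    exact h.mono (by omega)
  | cons x b ih =>
    intro l q d p u y T r2 hn hy hL h
    simp only [encLen] at hn
    set X := x.bits.length with hX
    set p' := p + X with hp'
    set u' := u + encLen b with hu'
    obtain ⟨el, hel⟩ : ∃ el, el + X = n := ⟨n - X, by omega⟩
    set y3 := y * fac n k (cNum n k p' x) q * fac n k (cNum n k p' 0) (q.drop (7 * k)) *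
      fac n k 1 ((q.drop (7 * k)).drop (7 * k)) with hy3
    set q3 := ((q.drop (7 * k)).drop (7 * k)).drop (7 * k) with hq3
    have hvx : x.bits.length + el = n := by omega
    have hn' : p' + 1 + u' = n := by omega
    have hlen3 : 3 * (x :: b).length * (8 * n + 10 * k + 3) =
        3 * b.length * (8 * n + 10 * k + 3) + 3 * (8 * n + 10 * k + 3) := by
      simp only [List.length_cons]; ring
    -- growth of y
    have hc1 : cNum n k p' x < (2 ^ (4 * n + k + 1)) ^ 2 := by
      have := cNum_lt true (k := k) hn' hvx
      simpa [bval_bits] using this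
    have hc2 : cNum n k p' 0 < (2 ^ (4 * n + k + 1)) ^ 2 := by
      have := cNum_lt false (k := k) hn' hvx
      simpa using this
    have hc3 : 1 < (2 ^ (4 * n + k + 1)) ^ 2 := by
      have : 2 ≤ 2 ^ (4 * n + k + 1) := by
        calc 2 = 2 ^ 1 := by norm_num
          _ ≤ _ := Nat.pow_le_pow_right (by norm_num) (by omega)
      nlinarith
    have hl1 := len_mul (y := y) (fac_lt q hc1)
    have hl2 := len_mul (y := y * fac n k (cNum n k p' x) q) (fac_lt (q.drop (7 * k)) hc2)
    have hl3 := len_mul (y := y * fac n k (cNum n k p' x) q * fac n k (cNum n k p' 0)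
      (q.drop (7 * k))) (fac_lt ((q.drop (7 * k)).drop (7 * k)) hc3)
    have hy3pos : 1 ≤ y3 :=
      Nat.mul_pos (Nat.mul_pos (Nat.mul_pos hy (fac_pos _)) (fac_pos _)) (fac_pos _)
    have hL3 : y3.bits.length + 3 * b.length * (8 * n + 10 * k + 3) ≤ Lm := by
      rw [hy3]; omega
    -- rest of the loop
    have hrest : Does MAIN (St n k l (q3.drop (3 * b.length * (7 * k))) (p' + 1 + encLen b) u n []
        (d ++ List.replicate (3 * X) false ++ [true, false, false] ++ dg b)
        (y3 * yP n k (gmap n k (p' + 1) b) q3)) T r2 := by
      have e1 : q3.drop (3 * b.length * (7 * k)) = q.drop (3 * (x :: b).length * (7 * k)) := by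
        rw [hq3, List.drop_drop, List.drop_drop, List.drop_drop]
        congr 1
        simp only [List.length_cons]; ring
      have e2 : p' + 1 + encLen b = p + encLen (x :: b) := by
        simp only [encLen]; omega
      have e3 : d ++ List.replicate (3 * X) false ++ [true, false, false] ++ dg b =
          d ++ dg (x :: b) := by
        simp only [dg, List.append_assoc]
        rfl
      have e4 : y3 * yP n k (gmap n k (p' + 1) b) q3 = y * yP n k (gmap n k p (x :: b)) q := by
        have : gmap n k p (x :: b) = cNum n k p' x :: cNum n k p' 0 :: 1 ::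
            gmap n k (p' + 1) b := by
          simp only [gmap, gad, List.map_cons, cNum, Nat.mul_zero, Nat.add_zero]
          rfl
        rw [this, yP_cons, yP_cons, yP_cons, hy3, hq3]
        ring
      rw [e1, e2, e3, e4]
      exact h
    have h1 := ih l q3 (d ++ List.replicate (3 * X) false ++ [true, false, false]) (p' + 1) u y3 T
      r2 (by omega) hy3pos hL3 hrest
    have h2 := COMMA_spec n k (encNums b ++ l) q p' u' el x.bits
      (d ++ List.replicate (3 * X) false) y Lm hy hn' hvx (by omega)
    rw [bval_bits] at h2
    have h3 := each_cons (k := .F) (body := Body)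
      (r := St n k (Sym.comma :: (encNums b ++ l)) q p' (u' + 1) el x.bits
        (d ++ List.replicate (3 * X) false) y) rfl h2 h1
    have h4 := BITS_loop n k x.bits (Sym.comma :: (encNums b ++ l)) q [] d p (u' + 1) el y _ r2 h3
    have e5 : u' + 1 + x.bits.length = u + encLen (x :: b) := by
      simp only [encLen]; omega
    have e6 : el + x.bits.length = n := hel
    have e7 : bs x.bits ++ Sym.comma :: (encNums b ++ l) = encNums (x :: b) ++ l := by
      simp only [encNums, List.append_assoc, List.cons_append]
    rw [e5, e6, e7] at h4
    refine h4.mono ?_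
    have e8 : encLen (x :: b) * cSym n k Lm = X * cSym n k Lm + cSym n k Lm +
        encLen b * cSym n k Lm := by
      simp only [encLen]; ring
    have e9 : 10 * X ≤ X * cSym n k Lm := by
      rw [mul_comm]
      exact Nat.mul_le_mul_left _ (by unfold cSym; omega)
    rw [e8]
    have e10 : cSym n k Lm = 3 * tNum n k Lm + 2 * n + 10 := rfl
    omega

lemma MAIN_spec (n k : ℕ) (b : List ℕ) (B : ℕ) (q : List Bool)
    (hn : n = encLen b + B.bits.length) :
    Does MAIN (St n k (encNums b ++ bs B.bits) q 0 n n [] [] 1)
      (n * cSym n k (1 + 3 * b.length * (8 * n + 10 * k + 3)) + 1)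
      (St n k [] (q.drop (3 * b.length * (7 * k))) n 0 (n - B.bits.length) B.bits
        (dg b ++ List.replicate (3 * B.bits.length) false) (yP n k (gmap n k 0 b) q)) := by
  set Lm := 1 + 3 * b.length * (8 * n + 10 * k + 3) with hLm
  set q' := q.drop (3 * b.length * (7 * k)) with hq'
  set y' := yP n k (gmap n k 0 b) q with hy'
  have h0 : Does MAIN (St n k [] q' n 0 (n - B.bits.length) B.bits
        (dg b ++ List.replicate (3 * B.bits.length) false) y') 1
      (St n k [] q' n 0 (n - B.bits.length) B.bits
        (dg b ++ List.replicate (3 * B.bits.length) false) y') := each_nil rfl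
  have h1 := BITS_loop n k B.bits [] q' [] (dg b) (encLen b) 0 (n - B.bits.length) y' 1
    (St n k [] q' n 0 (n - B.bits.length) B.bits
        (dg b ++ List.replicate (3 * B.bits.length) false) y') (by
      rw [← hn]
      exact h0)
  rw [List.append_nil, Nat.sub_add_cancel (by omega : B.bits.length ≤ n)] at h1
  have h2 := LIST_loop n k Lm b (bs B.bits) q [] 0 B.bits.length 1 _ _ (by omega) le_rfl
    (by
      have : (1 : ℕ).bits.length = 1 := by simp
      rw [this]) (by
        rw [Nat.zero_add, List.nil_append, Nat.one_mul]
        rw [Nat.zero_add] at h1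
        exact h1)
  have e : B.bits.length + encLen b = n := by omega
  rw [e] at h2
  refine h2.mono ?_
  have e2 : n * cSym n k Lm = encLen b * cSym n k Lm + B.bits.length * cSym n k Lm := by
    rw [← Nat.add_mul, ← hn]
  have e9 : 10 * B.bits.length ≤ B.bits.length * cSym n k Lm := by
    rw [mul_comm]
    exact Nat.mul_le_mul_left _ (by unfold cSym; omega)
  omega

end Pool.Agent.H44
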