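import Mathlib

set_option autoImplicit false

namespace Pool.Agent.H44

/-- the main parameter -/
def kk (n : ℕ) : ℕ := (16 * (n + 1)) ^ 3

/-- exponent of the modulus -/
def kap (n : ℕ) : ℕ := 4 * n + kk n + 1

/-- threshold for the large part -/
def zz (n : ℕ) : ℕ := 18 * (n + 1) ^ 2 + 104 * (n + 1) + 5

lemma param_z {n m : ℕ} (hm : m ≤ 3 * (n + 1)) : 3 * zz n * m + 2 ≤ kap n := by
  unfold zz kap kk
  have h1 : 3 * (18 * (n + 1) ^ 2 + 104 * (n + 1) + 5) * m ≤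
      3 * (18 * (n + 1) ^ 2 + 104 * (n + 1) + 5) * (3 * (n + 1)) := Nat.mul_le_mul_left _ hm
  refine (Nat.add_le_add_right h1 2).trans ?_
  set X := n + 1 with hX
  have hX1 : 1 ≤ X := by omega
  have h2 : X ^ 2 ≤ X ^ 3 := Nat.pow_le_pow_right hX1 (by norm_num)
  have h3 : X ≤ X ^ 3 := Nat.le_self_pow (by norm_num) X
  have h4 : 1 ≤ X ^ 3 := Nat.one_le_pow _ _ hX1
  have e1 : 3 * (18 * X ^ 2 + 104 * X + 5) * (3 * X) + 2 = 162 * X ^ 3 + 936 * X ^ 2 + 45 * X + 2 := by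
    ring
  have e2 : (16 * X) ^ 3 = 4096 * X ^ 3 := by ring
  rw [e1, e2]
  omega

lemma param_r (n : ℕ) : 4 * kap n + 2 * kk n + 2 ≤ 7 * kk n := by
  unfold kap
  have : 16 * n + 6 ≤ kk n := by
    unfold kk
    have e2 : (16 * (n + 1)) ^ 3 = 4096 * (n + 1) ^ 3 := by ring
    rw [e2]
    have h3 : n + 1 ≤ (n + 1) ^ 3 := Nat.le_self_pow (by norm_num) _
    omega
  omega

lemma param_H {n m : ℕ} (hm : m ≤ 3 * (n + 1)) : m * (2 ^ n + 1) ≤ 2 ^ kk n + 1 := by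
  have h0 : 3 * (n + 1) ≤ 2 ^ (n + 2) := by
    have : n + 1 ≤ 2 ^ n := Nat.succ_le_of_lt Nat.lt_two_pow_self
    rw [pow_add]; omega
  have h1 : 2 ^ n + 1 ≤ 2 ^ (n + 1) := by
    have : 1 ≤ 2 ^ n := Nat.one_le_two_pow
    rw [pow_succ]; omega
  have h2 : n + 2 + (n + 1) ≤ kk n := by
    unfold kk
    have e2 : (16 * (n + 1)) ^ 3 = 4096 * (n + 1) ^ 3 := by ring
    rw [e2]
    have h3 : n + 1 ≤ (n + 1) ^ 3 := Nat.le_self_pow (by norm_num) _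
    omega
  calc m * (2 ^ n + 1) ≤ 2 ^ (n + 2) * 2 ^ (n + 1) := Nat.mul_le_mul (hm.trans h0) h1
    _ = 2 ^ (n + 2 + (n + 1)) := by rw [← pow_add]
    _ ≤ 2 ^ kk n := Nat.pow_le_pow_right (by norm_num) h2
    _ ≤ 2 ^ kk n + 1 := Nat.le_succ _

lemma param_nat {n m : ℕ} (hm1 : 1 ≤ m) (hm : m ≤ 3 * (n + 1)) :
    2 ^ m * 3 ^ m * (2 * m) * (7 * kk n + 1) ^ (2 * m - 1) * 4 * 4 ^ (n + 1) ≤ 2 ^ zz n := by
  set X := n + 1 with hX
  have hX1 : 1 ≤ X := by omega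
  have h6 : 2 ^ m * 3 ^ m ≤ 2 ^ (3 * m) := by
    rw [← mul_pow, pow_mul]
    exact Nat.pow_le_pow_left (by norm_num) m
  have h2m : 2 * m ≤ 2 ^ (m + 1) := by
    rw [pow_succ, mul_comm]
    exact Nat.mul_le_mul_right _ Nat.lt_two_pow_self.le
  have hk : 7 * kk n + 1 ≤ 2 ^ (15 + 3 * X) := by
    unfold kk
    rw [← hX]
    have e2 : (16 * X) ^ 3 = 4096 * X ^ 3 := by ring
    have h4 : 1 ≤ X ^ 3 := Nat.one_le_pow _ _ hX1
    have h5 : X ^ 3 ≤ (2 ^ X) ^ 3 := Nat.pow_le_pow_left Nat.lt_two_pow_self.le 3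
    have e3 : 2 ^ (15 + 3 * X) = 32768 * (2 ^ X) ^ 3 := by
      rw [pow_add, mul_comm 3 X, pow_mul]
      norm_num
    rw [e2, e3]
    omega
  have hkp : (7 * kk n + 1) ^ (2 * m - 1) ≤ 2 ^ ((15 + 3 * X) * (2 * m)) := by
    rw [pow_mul]
    calc (7 * kk n + 1) ^ (2 * m - 1) ≤ (7 * kk n + 1) ^ (2 * m) :=
          Nat.pow_le_pow_right (by omega) (by omega)
      _ ≤ _ := Nat.pow_le_pow_left hk _
  calc 2 ^ m * 3 ^ m * (2 * m) * (7 * kk n + 1) ^ (2 * m - 1) * 4 * 4 ^ X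
      ≤ 2 ^ (3 * m) * 2 ^ (m + 1) * 2 ^ ((15 + 3 * X) * (2 * m)) * 4 * 4 ^ X := by
        gcongr
    _ = 2 ^ (3 * m + (m + 1) + (15 + 3 * X) * (2 * m) + 2 + 2 * X) := by
        rw [pow_add 2 _ (2 * X), pow_add 2 _ 2, pow_add 2 _ ((15 + 3 * X) * (2 * m)),
          pow_add 2 (3 * m) (m + 1), pow_mul 2 2 X]
        norm_num
    _ ≤ 2 ^ zz n := by
        apply Nat.pow_le_pow_right (by norm_num)
        unfold zz
        rw [← hX]
        have h7 : (15 + 3 * X) * (2 * m) ≤ (15 + 3 * X) * (2 * (3 * X)) := by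
          apply Nat.mul_le_mul_left; omega
        have e4 : (15 + 3 * X) * (2 * (3 * X)) = 18 * X ^ 2 + 90 * X := by ring
        rw [e4] at h7
        omega

lemma param_tail (n : ℕ) : ((7 * kk n : ℕ) + 1 : ℚ) / 2 ^ (2 * kap n - 1) ≤ 1 / 2 ^ zz n := by
  rw [div_le_div_iff₀ (by positivity) (by positivity), one_mul]
  have h1 : 7 * kk n + 1 ≤ 2 ^ (kap n) := by
    have a1 : kk n + 1 ≤ kap n := by unfold kap; omega
    have a2 : kk n < 2 ^ kk n := Nat.lt_two_pow_self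
    have a3 : 3 ≤ kk n - (0:ℕ) := by
      unfold kk
      have e2 : (16 * (n + 1)) ^ 3 = 4096 * (n + 1) ^ 3 := by ring
      have h3 : 1 ≤ (n + 1) ^ 3 := Nat.one_le_pow _ _ (by omega)
      omega
    -- 7 k + 1 ≤ 8 k ≤ 2^(k) for k ≥ 6; use kap ≥ k + 1 and k large
    have a4 : 4 * kk n ≤ 2 ^ kk n := by
      have : 4096 ≤ kk n := by
        unfold kk
        have e2 : (16 * (n + 1)) ^ 3 = 4096 * (n + 1) ^ 3 := by ring
        have h3 : 1 ≤ (n + 1) ^ 3 := Nat.one_le_pow _ _ (by omega)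
        omega
      obtain ⟨j, hj⟩ : ∃ j, kk n = j + 4 := ⟨kk n - 4, by omega⟩
      have h5 : j < 2 ^ j := Nat.lt_two_pow_self
      rw [hj, pow_add]
      omega
    have a5 : 2 ^ (kk n + 1) ≤ 2 ^ kap n := Nat.pow_le_pow_right (by norm_num) a1
    rw [pow_succ] at a5
    omega
  have h2 : 2 ^ zz n ≤ 2 ^ (kap n - 1) := by
    apply Nat.pow_le_pow_right (by norm_num)
    have := param_z (n := n) (m := 1) (by omega)
    omega
  have h3 : (7 * kk n + 1) * 2 ^ zz n ≤ 2 ^ (2 * kap n - 1) := by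
    calc (7 * kk n + 1) * 2 ^ zz n ≤ 2 ^ kap n * 2 ^ (kap n - 1) := Nat.mul_le_mul h1 h2
      _ = 2 ^ (2 * kap n - 1) := by
        rw [← pow_add]
        congr 1
        have : 1 ≤ kap n := by unfold kap; omega
        omega
  exact_mod_cast h3

lemma final_alg (P K T C D Z E : ℚ) (m : ℕ) (hP : 0 ≤ P) (hK : 0 ≤ K) (hC : 0 ≤ C)
    (hD : 0 ≤ D) (hE : 0 ≤ E) (hZ : 0 < Z) (hT : T ≤ 2 * (1 / Z))
    (h3 : 2 ^ m * C * D * K * 4 * E ≤ Z) :
    (P * 2) ^ m * (C * (D * (K * (2 * T)))) * E ≤ P ^ m := by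
  have e1 : (P * 2) ^ m * (C * (D * (K * (2 * T)))) * E =
      (P ^ m * 2 ^ m * C * D * K * 2 * E) * T := by
    rw [mul_pow]; ring
  have hnn : 0 ≤ P ^ m * 2 ^ m * C * D * K * 2 * E := by positivity
  calc (P * 2) ^ m * (C * (D * (K * (2 * T)))) * E
      = (P ^ m * 2 ^ m * C * D * K * 2 * E) * T := e1
    _ ≤ (P ^ m * 2 ^ m * C * D * K * 2 * E) * (2 * (1 / Z)) := mul_le_mul_of_nonneg_left hT hnn
    _ = P ^ m * (2 ^ m * C * D * K * 4 * E) * (1 / Z) := by ring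
    _ ≤ P ^ m * Z * (1 / Z) := by
        apply mul_le_mul_of_nonneg_right _ (by positivity)
        exact mul_le_mul_of_nonneg_left h3 (by positivity)
    _ = P ^ m := by
        rw [mul_assoc, mul_one_div_cancel hZ.ne', mul_one]

/-- the failure probability bound -/
lemma param_final {n m : ℕ} (hm1 : 1 ≤ m) (hm : m ≤ 3 * (n + 1)) :
    ((2 : ℚ) ^ (7 * kk n + 1)) ^ m * (3 ^ m * ((2 * m) * (((7 * kk n : ℕ) + 1) ^ (2 * m - 1) *
        (2 * (1 / 2 ^ zz n + ((7 * kk n : ℕ) + 1) / 2 ^ (2 * kap n - 1)))))) * 4 ^ (n + 1) ≤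
      (2 ^ (7 * kk n)) ^ m := by
  have h1 := param_tail n
  have h3 := param_nat hm1 hm
  generalize 7 * kk n = K at *
  generalize 2 * kap n - 1 = L at *
  generalize zz n = z at *
  have h3' : (2 : ℚ) ^ m * 3 ^ m * (2 * m) * ((K : ℚ) + 1) ^ (2 * m - 1) * 4 *
      4 ^ (n + 1) ≤ 2 ^ z := by
    exact_mod_cast h3
  rw [pow_succ]
  apply final_alg (2 ^ K) _ _ _ _ (2 ^ z) _ m (by positivity) (by positivity) (by positivity)
    (by positivity) (by positivity) (by positivity) _ h3'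
  linarith

end Pool.Agent.H44
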