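import Pool.Agent.H44.EFBad

set_option autoImplicit false

namespace Pool.Agent.H44

open Finset

lemma ratio_le {m H N : ℕ} (hm : m * (N + 1) ≤ H + 1) :
    N * (H + 1) ^ m ≤ (N + 1) * H ^ m := by
  have h1 : (-2 : ℚ) ≤ -1 / (H + 1) := by
    rw [le_div_iff₀ (by positivity)]
    have : (0 : ℚ) ≤ H := by positivity
    linarith
  have h2 := one_add_mul_le_pow h1 m
  have hHq : (0 : ℚ) < (H : ℚ) + 1 := by positivity
  have h3 : (1 : ℚ) + -1 / (H + 1) = H / (H + 1) := by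
    field_simp
    ring
  rw [h3, div_pow] at h2
  have hN : (0 : ℚ) < (N : ℚ) + 1 := by positivity
  have h4 : (N : ℚ) / (N + 1) ≤ 1 + m * (-1 / (H + 1)) := by
    have : (m : ℚ) * (-1 / (H + 1)) = -(m / (H + 1)) := by ring
    rw [this]
    have h5 : (m : ℚ) / (H + 1) ≤ 1 / (N + 1) := by
      rw [div_le_div_iff₀ hHq hN]
      have : (m : ℚ) * (N + 1) ≤ H + 1 := by exact_mod_cast hm
      linarith
    have h6 : (N : ℚ) / (N + 1) = 1 - 1 / (N + 1) := by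
      field_simp
      ring
    rw [h6]
    linarith
  have h6 : (N : ℚ) / (N + 1) ≤ H ^ m / (H + 1) ^ m := le_trans h4 h2
  rw [div_le_div_iff₀ hN (by positivity)] at h6
  have h7 : (N : ℚ) * ((H + 1 : ℕ) : ℚ) ^ m ≤ ((N + 1 : ℕ) : ℚ) * (H : ℚ) ^ m := by
    push_cast
    linarith
  exact_mod_cast h7

variable {ι : Type} [Fintype ι] [DecidableEq ι]

theorem yes_case {κ r h : ℕ} {A c : ι → ℕ} {τ : ι} (hκ : 2 ≤ κ)
    (hc : ∀ j, (c j : ℤ) ≡ (if j = τ then -1 else 1) * (1 + ((2 ^ κ : ℕ) : ℤ) * (A j : ℤ))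
      [ZMOD ((2 ^ κ : ℕ) : ℤ) ^ 2])
    (hco : ∀ j, Odd (c j)) (hclt : ∀ j, c j < (2 ^ κ) ^ 2)
    (w : ι → Fin 3) (hw : w τ = 1) (hsum : ∑ j with w j = 1, A j = ∑ j with w j = 2, A j)
    (hcard : (Finset.univ.filter fun j => w j = 1).card = (Finset.univ.filter fun j => w j = 2).card)
    {N : ℕ} (hh : Fintype.card ι * (N + 1) ≤ 2 ^ h + 1) {ρ : ι → ℕ} (hρ : ∀ j, ρ j < 2 ^ r) :
    ∃ d1 d2 : ℕ, d1 ∣ ∏ j, qf κ r h c j (ρ j) ∧ d2 ∣ ∏ j, qf κ r h c j (ρ j) ∧ d1 ≠ d2 ∧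
      (2 ^ κ) ^ 2 ∣ d1 + d2 ∧ N * d1 ≤ (N + 1) * d2 ∧ N * d2 ≤ (N + 1) * d1 := by
  set Q : ι → ℕ := fun j => qf κ r h c j (ρ j) with hQ
  have hdvd : ∀ k : Fin 3, ∏ j with w j = k, Q j ∣ ∏ j, Q j := fun k =>
    Finset.prod_dvd_prod_of_subset _ _ _ (Finset.filter_subset _ _)
  have hmodc : ∀ j, (Q j : ℤ) ≡ c j [ZMOD ((2 ^ κ : ℕ) : ℤ) ^ 2] := by
    intro j
    have : Q j ≡ c j [MOD (2 ^ κ) ^ 2] := by
      simp only [hQ, qf]
      unfold Nat.ModEq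
      rw [Nat.add_mul_mod_self_left]
    have h2 := (Int.natCast_modEq_iff (n := (2 ^ κ) ^ 2)).2 this
    simpa using h2
  have hcQ : ∀ j, (Q j : ℤ) ≡ (if j = τ then -1 else 1) * (1 + ((2 ^ κ : ℕ) : ℤ) * (A j : ℤ))
      [ZMOD ((2 ^ κ : ℕ) : ℤ) ^ 2] := fun j => (hmodc j).trans (hc j)
  have hsel : ∀ k : Fin 3, ((∏ j with w j = k, Q j : ℕ) : ℤ) ≡
      (if w τ = k then -1 else 1) * (1 + ((2 ^ κ : ℕ) : ℤ) * ((∑ j with w j = k, A j : ℕ) : ℤ))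
      [ZMOD ((2 ^ κ : ℕ) : ℤ) ^ 2] := by
    intro k
    have := prod_sel_modEq ((2 ^ κ : ℕ) : ℤ) A Q τ hcQ w k
    rw [Finset.prod_filter]
    exact this
  have hQodd : ∀ j, Odd (Q j) := fun j => qf_odd (by omega) hco j _
  have hodd1 : ∀ k : Fin 3, Odd (∏ j with w j = k, Q j) := by
    intro k
    apply Finset.prod_induction _ Odd (fun a b ha hb => ha.mul hb) odd_one
    intro j _
    exact hQodd j
  have hMdvd : (2 ^ κ) ^ 2 ∣ (∏ j with w j = 1, Q j) + ∏ j with w j = 2, Q j := by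
    have h1 := hsel 1
    have h2 := hsel 2
    rw [hw, if_pos rfl] at h1
    rw [hw, if_neg (by decide)] at h2
    have h3 := h1.add h2
    rw [hsum] at h3
    rw [show (-1 : ℤ) * (1 + ((2 ^ κ : ℕ) : ℤ) * ((∑ j with w j = 2, A j : ℕ) : ℤ)) +
      1 * (1 + ((2 ^ κ : ℕ) : ℤ) * ((∑ j with w j = 2, A j : ℕ) : ℤ)) = 0 by ring,
      Int.modEq_zero_iff_dvd] at h3
    exact_mod_cast h3
  -- size bounds
  set Q0 : ℕ := (2 ^ κ) ^ 2 * 2 ^ r with hQ0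
  have hQ0pos : 0 < Q0 := by positivity
  have hlow : ∀ j, Q0 * 2 ^ h ≤ Q j := by
    intro j
    simp only [hQ, qf, hQ0]
    have : (2 ^ κ) ^ 2 * 2 ^ r * 2 ^ h = (2 ^ κ) ^ 2 * 2 ^ (r + h) := by rw [pow_add]; ring
    rw [this, mul_add]
    omega
  have hup : ∀ j, Q j ≤ Q0 * (2 ^ h + 1) := by
    intro j
    simp only [hQ, qf, hQ0]
    have h1 : (2 ^ κ) ^ 2 * 2 ^ r * (2 ^ h + 1) = (2 ^ κ) ^ 2 * 2 ^ (r + h) + (2 ^ κ) ^ 2 * 2 ^ r := by
      rw [pow_add]; ring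
    rw [h1, mul_add]
    have h2 : c j + (2 ^ κ) ^ 2 * ρ j ≤ (2 ^ κ) ^ 2 * 2 ^ r := by
      calc c j + (2 ^ κ) ^ 2 * ρ j ≤ (2 ^ κ) ^ 2 + (2 ^ κ) ^ 2 * ρ j := by
            have := hclt j; omega
        _ = (2 ^ κ) ^ 2 * (ρ j + 1) := by ring
        _ ≤ (2 ^ κ) ^ 2 * 2 ^ r := Nat.mul_le_mul_left _ (hρ j)
    omega
  have hratio : ∀ k l : Fin 3, (Finset.univ.filter fun j => w j = k).card =
      (Finset.univ.filter fun j => w j = l).card →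
      N * ∏ j with w j = k, Q j ≤ (N + 1) * ∏ j with w j = l, Q j := by
    intro k l hkl
    set m := (Finset.univ.filter fun j => w j = l).card with hm
    have hmle : m * (N + 1) ≤ 2 ^ h + 1 := by
      refine le_trans ?_ hh
      have : m ≤ Fintype.card ι := by
        rw [hm, ← Finset.card_univ]
        exact Finset.card_le_card (Finset.filter_subset _ _)
      exact Nat.mul_le_mul_right _ this
    calc N * ∏ j with w j = k, Q j
        ≤ N * ∏ _j ∈ Finset.univ.filter (fun j => w j = k), Q0 * (2 ^ h + 1) :=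
          Nat.mul_le_mul_left _ (Finset.prod_le_prod' fun j _ => hup j)
      _ = Q0 ^ m * (N * (2 ^ h + 1) ^ m) := by rw [Finset.prod_const, hkl, mul_pow]; ring
      _ ≤ Q0 ^ m * ((N + 1) * (2 ^ h) ^ m) :=
          Nat.mul_le_mul_left _ (ratio_le hmle)
      _ = (N + 1) * ∏ _j ∈ Finset.univ.filter (fun j => w j = l), Q0 * 2 ^ h := by
          rw [Finset.prod_const, ← hm, mul_pow]; ring
      _ ≤ (N + 1) * ∏ j with w j = l, Q j :=
          Nat.mul_le_mul_left _ (Finset.prod_le_prod' fun j _ => hlow j)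
  refine ⟨∏ j with w j = 1, Q j, ∏ j with w j = 2, Q j, hdvd 1, hdvd 2, ?_, hMdvd,
    hratio 1 2 hcard, hratio 2 1 hcard.symm⟩
  intro heq
  rw [← heq, ← two_mul] at hMdvd
  have h4 : 4 ∣ (2 ^ κ) ^ 2 := by
    have : (2 ^ κ) ^ 2 = 4 * 2 ^ (2 * κ - 2) := by
      rw [← pow_mul, show (4 : ℕ) = 2 ^ 2 by norm_num, ← pow_add]
      congr 1
      omega
    rw [this]; exact dvd_mul_right _ _
  have h5 : 4 ∣ 2 * ∏ j with w j = 1, Q j := h4.trans hMdvd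
  have h6 := hodd1 1
  obtain ⟨e, he⟩ := h6
  omega

end Pool.Agent.H44
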