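import Pool.Agent.H44.EFBasic
import Pool.Agent.H44.EFYes
import Pool.Agent.H44.EFGadget
import Pool.Agent.H44.EFParam

set_option autoImplicit false

namespace Pool.Agent.H44

open Finset

/-- value of a bit list, least significant bit first -/
def bval : List Bool → ℕ
  | [] => 0
  | b :: l => (if b then 1 else 0) + 2 * bval l

/-- product of the random numbers -/
def yProd (m2 E r : ℕ) : List ℕ → List Bool → ℕ
  | [], _ => 1
  | c :: cs, ρ => (c + m2 * (E + bval (ρ.take r))) * yProd m2 E r cs (ρ.drop r)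

/-- the target number -/
def TT (n : ℕ) (b : List ℕ) (B : ℕ) : ℕ := digs 0 b + 8 ^ n * B

/-- pairs (A-value, residue) -/
def pl (n : ℕ) (b : List ℕ) (B : ℕ) : List (ℕ × ℕ) :=
  (gad n 0 b).map (fun a => (a, 1 + 2 ^ kap n * a)) ++
    [(TT n b B, (2 ^ kap n) ^ 2 - 1 - 2 ^ kap n * TT n b B), (0, 1)]

/-- size of the encoded instance -/
def isize (b : List ℕ) (B : ℕ) : ℕ := encLen b + B.bits.length

/-- the first output of the reduction -/
def xOut (n : ℕ) : ℕ := (2 ^ kap n) ^ 2

/-- the second output of the reduction -/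
def yOut (n : ℕ) (b : List ℕ) (B : ℕ) (ρ : List Bool) : ℕ :=
  yProd (xOut n) (2 ^ (7 * kk n + kk n)) (7 * kk n) ((pl n b B).map Prod.snd) ρ

lemma bval_lt : ∀ (l : List Bool), bval l < 2 ^ l.length
  | [] => by simp [bval]
  | b :: l => by
      have := bval_lt l
      simp only [bval, List.length_cons, pow_succ]
      split_ifs <;> omega

lemma bval_inj : ∀ (l l' : List Bool), l.length = l'.length → bval l = bval l' → l = l'
  | [], [], _, _ => rfl
  | b :: l, b' :: l', h, hv => by
      simp only [bval] at hv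
      have h1 : bval l = bval l' := by split_ifs at hv <;> omega
      have h2 : b = b' := by
        cases b <;> cases b' <;> simp_all
      rw [h2, bval_inj l l' (by simpa using h) h1]
  | [], b :: l, h, _ => by simp at h
  | b :: l, [], h, _ => by simp at h

lemma yProd_eq (m2 E r : ℕ) : ∀ (cs : List ℕ) (ρ : List Bool),
    yProd m2 E r cs ρ = ∏ j : Fin cs.length,
      (cs.get j + m2 * (E + bval ((ρ.drop (j.val * r)).take r)))
  | [], ρ => by simp [yProd]
  | c :: cs, ρ => by
      simp only [yProd, List.length_cons]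
      rw [Fin.prod_univ_succ, yProd_eq m2 E r cs (ρ.drop r)]
      congr 1
      · simp
      · apply Finset.prod_congr rfl
        intro j _
        simp only [List.get_eq_getElem, Fin.val_succ, List.getElem_cons_succ, List.drop_drop]
        rw [show r + j.val * r = (j.val + 1) * r by ring]

lemma pl_length (n : ℕ) (b : List ℕ) (B : ℕ) : (pl n b B).length = 3 * b.length + 2 := by
  simp [pl, gad_length]

/-- the special index -/
def tau (n : ℕ) (b : List ℕ) (B : ℕ) : Fin (pl n b B).length :=
  ⟨3 * b.length, by rw [pl_length]; omega⟩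

lemma pl_cases (n : ℕ) (b : List ℕ) (B : ℕ) (j : Fin (pl n b B).length) :
    (j ≠ tau n b B ∧ ((pl n b B).get j).2 = 1 + 2 ^ kap n * ((pl n b B).get j).1) ∨
    (j = tau n b B ∧ (pl n b B).get j =
      (TT n b B, (2 ^ kap n) ^ 2 - 1 - 2 ^ kap n * TT n b B)) := by
  obtain ⟨j, hj⟩ := j
  have hj' := hj
  rw [pl_length] at hj'
  have hl : ((gad n 0 b).map (fun a => (a, 1 + 2 ^ kap n * a))).length = 3 * b.length := by
    rw [List.length_map, gad_length]
  rcases lt_trichotomy j (3 * b.length) with h | h | h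
  · left
    refine ⟨by simp [tau]; omega, ?_⟩
    simp only [List.get_eq_getElem, pl]
    rw [List.getElem_append_left (by rw [hl]; exact h)]
    simp
  · right
    refine ⟨by simp [tau, h], ?_⟩
    simp only [List.get_eq_getElem, pl]
    rw [List.getElem_append_right (by rw [hl]; omega)]
    simp [hl, h]
  · left
    refine ⟨by simp [tau]; omega, ?_⟩
    simp only [List.get_eq_getElem, pl]
    rw [List.getElem_append_right (by rw [hl]; omega)]
    have : j = 3 * b.length + 1 := by omega
    subst this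
    simp [hl]

lemma bits_lt (x : ℕ) : x < 2 ^ x.bits.length := by
  rw [Nat.size_eq_bits_len]
  exact Nat.lt_size_self x

lemma digs_le : ∀ (b : List ℕ) (p : ℕ), digs p b + 8 ^ p ≤ 8 ^ (p + encLen b)
  | [], p => by simp [digs, encLen]
  | x :: bs, p => by
      have ih := digs_le bs (p + x.bits.length + 1)
      simp only [digs, encLen]
      have h1 : (8 : ℕ) ^ p ≤ 8 ^ (p + x.bits.length) := Nat.pow_le_pow_right (by norm_num) (by omega)
      have h2 : (8 : ℕ) ^ (p + x.bits.length + 1) = 8 * 8 ^ (p + x.bits.length) := by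
        rw [pow_succ]; ring
      have h3 : p + (x.bits.length + 1 + encLen bs) = p + x.bits.length + 1 + encLen bs := by ring
      rw [h3]
      omega

lemma gad_le (n : ℕ) : ∀ (b : List ℕ) (p : ℕ), p + encLen b ≤ n → ∀ a ∈ gad n p b, a ≤ 2 ^ (4 * n)
  | [], p, _, a, ha => by simp [gad] at ha
  | x :: bs, p, h, a, ha => by
      simp only [encLen] at h
      have hx := bits_lt x
      have h1 : (8 : ℕ) ^ (p + x.bits.length) ≤ 8 ^ n := Nat.pow_le_pow_right (by norm_num) (by omega)
      have h2 : 2 ^ x.bits.length ≤ 2 ^ n := Nat.pow_le_pow_right (by norm_num) (by omega)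
      have h3 : (8 : ℕ) ^ n * 2 ^ n = 2 ^ (4 * n) := by
        rw [show (8 : ℕ) = 2 ^ 3 by norm_num, ← pow_mul, ← pow_add]
        congr 1; ring
      have h4 : (8 : ℕ) ^ n ≤ 2 ^ (4 * n) := by
        rw [← h3]; exact Nat.le_mul_of_pos_right _ (by positivity)
      simp only [gad, List.mem_cons] at ha
      rcases ha with rfl | rfl | rfl | ha
      · calc 8 ^ (p + x.bits.length) + 8 ^ n * x ≤ 8 ^ n + 8 ^ n * x := by omega
          _ = 8 ^ n * (x + 1) := by ring
          _ ≤ 8 ^ n * 2 ^ n := Nat.mul_le_mul_left _ (by omega)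
          _ = _ := h3
      · omega
      · exact Nat.zero_le _
      · exact gad_le n bs _ (by omega) a ha

lemma TT_le {n : ℕ} {b : List ℕ} {B : ℕ} (hn : n = isize b B) : TT n b B ≤ 2 ^ (4 * n) := by
  unfold isize at hn
  have h0 := digs_le b 0
  rw [zero_add] at h0
  have h1 : (8 : ℕ) ^ encLen b ≤ 8 ^ n := Nat.pow_le_pow_right (by norm_num) (by omega)
  have hB := bits_lt B
  have h2 : 2 ^ B.bits.length ≤ 2 ^ n := Nat.pow_le_pow_right (by norm_num) (by omega)
  have h3 : (8 : ℕ) ^ n * 2 ^ n = 2 ^ (4 * n) := by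
    rw [show (8 : ℕ) = 2 ^ 3 by norm_num, ← pow_mul, ← pow_add]
    congr 1; ring
  unfold TT
  calc digs 0 b + 8 ^ n * B ≤ 8 ^ n + 8 ^ n * B := by omega
    _ = 8 ^ n * (B + 1) := by ring
    _ ≤ 8 ^ n * 2 ^ n := Nat.mul_le_mul_left _ (by omega)
    _ = _ := h3

lemma pl_fst_le {n : ℕ} {b : List ℕ} {B : ℕ} (hn : n = isize b B) :
    ∀ q ∈ pl n b B, q.1 ≤ 2 ^ (4 * n) := by
  intro q hq
  simp only [pl, List.mem_append, List.mem_map, List.mem_cons, List.not_mem_nil, or_false] at hq
  rcases hq with ⟨a, ha, rfl⟩ | rfl | rfl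
  · exact gad_le n b 0 (by unfold isize at hn; omega) a ha
  · exact TT_le hn
  · exact Nat.zero_le _

lemma length_le_encLen : ∀ b : List ℕ, b.length ≤ encLen b
  | [] => by simp [encLen]
  | x :: bs => by
      have := length_le_encLen bs
      simp only [encLen, List.length_cons]
      omega

lemma pl_length_le {n : ℕ} {b : List ℕ} {B : ℕ} (hn : n = isize b B) :
    (pl n b B).length ≤ 3 * (n + 1) := by
  rw [pl_length]
  have := length_le_encLen b
  unfold isize at hn
  omega

lemma pow_kap_large (n : ℕ) : 3 * (n + 1) * 2 ^ (4 * n) + 2 < 2 ^ kap n := by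
  unfold kap
  have h1 : kk n < 2 ^ kk n := Nat.lt_two_pow_self
  have h2 : 3 * (n + 1) + 2 ≤ kk n := by
    unfold kk
    have e2 : (16 * (n + 1)) ^ 3 = 4096 * (n + 1) ^ 3 := by ring
    have h3 : n + 1 ≤ (n + 1) ^ 3 := Nat.le_self_pow (by norm_num) _
    rw [e2]
    omega
  have h4 : 1 ≤ 2 ^ (4 * n) := Nat.one_le_two_pow
  calc 3 * (n + 1) * 2 ^ (4 * n) + 2 ≤ (3 * (n + 1) + 2) * 2 ^ (4 * n) := by nlinarith
    _ < 2 ^ kk n * 2 ^ (4 * n) := Nat.mul_lt_mul_of_pos_right (by omega) (by positivity)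
    _ ≤ 2 ^ (4 * n + kk n + 1) := by
        rw [← pow_add]
        exact Nat.pow_le_pow_right (by norm_num) (by omega)

section hyps

variable {n : ℕ} {b : List ℕ} {B : ℕ} (hn : n = isize b B)

/-- A-values -/
def Af (n : ℕ) (b : List ℕ) (B : ℕ) : Fin (pl n b B).length → ℕ := fun j => ((pl n b B).get j).1

/-- residues -/
def cf (n : ℕ) (b : List ℕ) (B : ℕ) : Fin (pl n b B).length → ℕ := fun j => ((pl n b B).get j).2

include hn

lemma Af_le (j : Fin (pl n b B).length) : Af n b B j ≤ 2 ^ (4 * n) :=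
  pl_fst_le hn _ (List.get_mem _ _)

lemma Af_le' (j : Fin (pl n b B).length) : 2 ^ kap n * Af n b B j + 2 ^ kap n < (2 ^ kap n) ^ 2 := by
  have h1 := Af_le hn j
  have h2 := pow_kap_large n
  have h3 : Af n b B j + 1 < 2 ^ kap n := by
    have : 2 ^ (4 * n) ≤ 3 * (n + 1) * 2 ^ (4 * n) := Nat.le_mul_of_pos_left _ (by omega)
    omega
  calc 2 ^ kap n * Af n b B j + 2 ^ kap n = 2 ^ kap n * (Af n b B j + 1) := by ring
    _ < 2 ^ kap n * 2 ^ kap n := Nat.mul_lt_mul_of_pos_left h3 (by positivity)
    _ = _ := by ring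

lemma sum_Af_lt : ∑ j, Af n b B j < 2 ^ kap n := by
  have h1 : ∑ j, Af n b B j ≤ ∑ _j : Fin (pl n b B).length, 2 ^ (4 * n) :=
    Finset.sum_le_sum fun j _ => Af_le hn j
  rw [Finset.sum_const, Finset.card_univ, Fintype.card_fin, smul_eq_mul] at h1
  have h2 : (pl n b B).length * 2 ^ (4 * n) ≤ 3 * (n + 1) * 2 ^ (4 * n) :=
    Nat.mul_le_mul_right _ (pl_length_le hn)
  have h3 := pow_kap_large n
  omega

lemma two_lt_kap : 2 < 2 ^ kap n := by
  have := pow_kap_large n
  omega

lemma cf_lt (j : Fin (pl n b B).length) : cf n b B j < (2 ^ kap n) ^ 2 := by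
  have h1 := Af_le' hn j
  have h2 := two_lt_kap (n := n) hn
  rcases pl_cases n b B j with ⟨-, h⟩ | ⟨-, h⟩
  · unfold cf
    rw [h]
    unfold Af at h1
    omega
  · unfold cf
    rw [h]
    simp only
    have : 0 < (2 ^ kap n) ^ 2 := by positivity
    omega

lemma cf_modEq (j : Fin (pl n b B).length) :
    (cf n b B j : ℤ) ≡ (if j = tau n b B then -1 else 1) *
      (1 + ((2 ^ kap n : ℕ) : ℤ) * (Af n b B j : ℤ)) [ZMOD ((2 ^ kap n : ℕ) : ℤ) ^ 2] := by
  have h1 := Af_le' hn j
  have h2 := two_lt_kap (n := n) hn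
  rcases pl_cases n b B j with ⟨hne, h⟩ | ⟨he, h⟩
  · rw [if_neg hne]
    unfold cf Af
    rw [h]
    push_cast
    rw [one_mul]
  · rw [if_pos he]
    unfold Af at h1
    rw [h] at h1
    simp only at h1
    unfold cf Af
    rw [h]
    simp only
    rw [Int.modEq_iff_dvd, Nat.sub_sub, Nat.cast_sub (by omega)]
    push_cast
    exact ⟨-1, by ring⟩

lemma cf_odd (j : Fin (pl n b B).length) : Odd (cf n b B j) := by
  have h1 := Af_le' hn j
  have hev : Even (2 ^ kap n) := by
    rw [Nat.even_pow]; exact ⟨even_two, by unfold kap; omega⟩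
  have h2 := two_lt_kap (n := n) hn
  rcases pl_cases n b B j with ⟨-, h⟩ | ⟨-, h⟩
  · unfold cf
    rw [h]
    rw [add_comm]
    exact (hev.mul_right _).add_one
  · unfold Af at h1
    rw [h] at h1
    simp only at h1
    unfold cf
    rw [h]
    simp only
    obtain ⟨e, he⟩ := hev
    have h3 : Even ((2 ^ kap n) ^ 2) := by
      rw [pow_two]; exact Even.mul_right ⟨e, he⟩ _
    have h4 : Even (2 ^ kap n * TT n b B) := Even.mul_right ⟨e, he⟩ _
    obtain ⟨u, hu⟩ := h3
    obtain ⟨v, hv⟩ := h4
    rw [Nat.odd_iff]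
    omega

end hyps

/-- the chunk attached to index `j` -/
def chunk (r : ℕ) (ρ : List Bool) (j : ℕ) : ℕ := bval ((ρ.drop (j * r)).take r)

lemma chunk_lt (r : ℕ) (ρ : List Bool) (j : ℕ) : chunk r ρ j < 2 ^ r := by
  unfold chunk
  refine lt_of_lt_of_le (bval_lt _) (Nat.pow_le_pow_right (by norm_num) ?_)
  rw [List.length_take]
  omega

lemma yOut_eq (n : ℕ) (b : List ℕ) (B : ℕ) (ρ : List Bool) :
    yOut n b B ρ = ∏ j, qf (kap n) (7 * kk n) (kk n) (cf n b B) j (chunk (7 * kk n) ρ j.val) := by
  unfold yOut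
  rw [yProd_eq]
  have hl : ((pl n b B).map Prod.snd).length = (pl n b B).length := List.length_map _
  apply Fintype.prod_equiv (finCongr hl)
  intro j
  unfold qf cf chunk xOut
  simp

lemma selSum_pl (k : Fin 3) : ∀ (L : List (ℕ × ℕ)) (w : Fin L.length → Fin 3),
    ∑ j with w j = k, (L.get j).1 = selSum k (List.ofFn w) (L.map Prod.fst)
  | [], w => by simp
  | a :: L, w => by
      have ih := selSum_pl k L (fun j => w j.succ)
      rw [Finset.sum_filter] at ih ⊢
      rw [List.ofFn_succ, List.map_cons, selSum_cons, ← ih]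
      exact Fin.sum_univ_succ _

lemma pl_map_fst (n : ℕ) (b : List ℕ) (B : ℕ) :
    (pl n b B).map Prod.fst = gad n 0 b ++ [TT n b B, 0] := by
  simp [pl, Function.comp_def]

lemma noSplit_of_not {n : ℕ} {b : List ℕ} {B : ℕ} (hn : n = isize b B) (h : ¬ SubsetSum b B) :
    NoSplit (Af n b B) (tau n b B) := by
  intro w hw heq
  apply h
  unfold Af at heq
  rw [selSum_pl, selSum_pl, pl_map_fst] at heq
  set ws := List.ofFn w with hws
  have hlen : ws.length = 3 * b.length + 2 := by rw [hws, List.length_ofFn, pl_length]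
  set ws1 := ws.take (3 * b.length) with hws1
  have hl1 : ws1.length = 3 * b.length := by rw [hws1, List.length_take]; omega
  have htau : ws[3 * b.length]'(by omega) = 1 := by
    simp only [hws, List.getElem_ofFn]
    exact hw
  obtain ⟨w', hw'⟩ : ∃ w', ws = ws1 ++ [1, w'] := by
    refine ⟨ws[3 * b.length + 1]'(by omega), ?_⟩
    conv_lhs => rw [← List.take_append_drop (3 * b.length) ws]
    rw [← hws1]
    congr 1
    rw [List.drop_eq_getElem_cons (by omega), List.drop_eq_getElem_cons (by omega),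
      List.drop_eq_nil_of_le (by omega), htau]
  rw [hw', selSum_append _ _ _ _ _ (by rw [hl1, gad_length]),
    selSum_append _ _ _ _ _ (by rw [hl1, gad_length])] at heq
  simp only [selSum_cons, selSum_nil, ite_self, add_zero, if_true] at heq
  rw [if_neg (by decide : ¬ (1 : Fin 3) = 2)] at heq
  unfold TT at heq
  have h2 : selSum 1 ws1 (gad n 0 b) + digs 0 b + 8 ^ n * B =
      selSum 2 ws1 (gad n 0 b) + 8 ^ n * 0 := by omega
  obtain ⟨l, hl, hs⟩ := gadget_sound n b ws1 0 B 0 (by unfold isize at hn; omega) hl1 h2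
  exact ⟨l, hl, by omega⟩

lemma split_of_subsetSum {n : ℕ} {b : List ℕ} {B : ℕ} (h : SubsetSum b B) :
    ∃ w : Fin (pl n b B).length → Fin 3, w (tau n b B) = 1 ∧
      ∑ j with w j = 1, Af n b B j = ∑ j with w j = 2, Af n b B j ∧
      (Finset.univ.filter fun j => w j = 1).card = (Finset.univ.filter fun j => w j = 2).card := by
  obtain ⟨l, hl, rfl⟩ := h
  obtain ⟨ws, h1, h2, h3, h4, h5⟩ := gadget_complete n b l 0 hl
  set ws' := ws ++ [1, 2] with hws'
  have hlen : ws'.length = (pl n b l.sum).length := by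
    rw [pl_length, hws', List.length_append, h1]
    rfl
  set w : Fin (pl n b l.sum).length → Fin 3 := fun j => ws'.get (finCongr hlen.symm j) with hw
  have hofFn : List.ofFn w = ws' := by
    apply List.ext_getElem
    · rw [List.length_ofFn, hlen]
    · intro i h1 h2
      simp [hw]
  refine ⟨w, ?_, ?_, ?_⟩
  · simp only [hw, tau]
    simp only [finCongr_apply, Fin.cast_mk, List.get_eq_getElem, hws']
    rw [List.getElem_append_right (by rw [h1])]
    simp [h1]
  · unfold Af
    rw [selSum_pl, selSum_pl, pl_map_fst, hofFn, hws',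
      selSum_append _ _ _ _ _ (by rw [h1, gad_length]),
      selSum_append _ _ _ _ _ (by rw [h1, gad_length]), h2, h3]
    simp only [selSum_cons, selSum_nil, ite_self, add_zero, if_true]
    rw [if_neg (by decide : ¬ (1 : Fin 3) = 2)]
    unfold TT
    omega
  · rw [card_filter_eq_count, card_filter_eq_count, hofFn, hws', List.count_append,
      List.count_append, h4, h5]
    rfl

lemma xOut_ge (n : ℕ) : 16 ≤ xOut n := by
  unfold xOut
  have : 4 ≤ 2 ^ kap n := by
    calc 4 = 2 ^ 2 := by norm_num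
      _ ≤ 2 ^ kap n := Nat.pow_le_pow_right (by norm_num) (by
        have := param_z (n := n) (m := 0) (by omega)
        omega)
  nlinarith

lemma yOut_odd {n : ℕ} {b : List ℕ} {B : ℕ} (hn : n = isize b B) (ρ : List Bool) :
    Odd (yOut n b B ρ) := by
  rw [yOut_eq]
  exact odd_prod fun j => qf_odd (by unfold kap; omega) (cf_odd hn) j _

lemma xOut_lt_yOut {n : ℕ} {b : List ℕ} {B : ℕ} (hn : n = isize b B) (ρ : List Bool) :
    xOut n < yOut n b B ρ := by
  rw [yOut_eq]
  have hpos : ∀ j, 1 ≤ qf (kap n) (7 * kk n) (kk n) (cf n b B) j (chunk (7 * kk n) ρ j.val) :=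
    fun j => (qf_odd (by unfold kap; omega) (cf_odd hn) j _).pos
  have h1 : qf (kap n) (7 * kk n) (kk n) (cf n b B) (tau n b B)
      (chunk (7 * kk n) ρ (tau n b B).val) ≤
      ∏ j, qf (kap n) (7 * kk n) (kk n) (cf n b B) j (chunk (7 * kk n) ρ j.val) :=
    Finset.single_le_prod' (f := fun j => qf (kap n) (7 * kk n) (kk n) (cf n b B) j
      (chunk (7 * kk n) ρ j.val)) (fun j _ => hpos j) (Finset.mem_univ _)
  refine lt_of_lt_of_le ?_ h1
  unfold qf xOut
  have h2 := (cf_odd hn (tau n b B)).pos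
  have h3 : (1 : ℕ) ≤ 2 ^ (7 * kk n + kk n) := Nat.one_le_two_pow
  have h4 : (2 ^ kap n) ^ 2 * 1 ≤ (2 ^ kap n) ^ 2 *
      (2 ^ (7 * kk n + kk n) + chunk (7 * kk n) ρ (tau n b B).val) :=
    Nat.mul_le_mul_left _ (by omega)
  omega

lemma coprime_out {n : ℕ} {b : List ℕ} {B : ℕ} (hn : n = isize b B) (ρ : List Bool) :
    Nat.Coprime (xOut n) (yOut n b B ρ) := coprime_two_pow_sq (yOut_odd hn ρ)

/-- YES instances always give a two term representation with small denominators -/
theorem yes_final {n : ℕ} {b : List ℕ} {B : ℕ} (hn : n = isize b B) (h : SubsetSum b B)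
    (ρ : List Bool) : ∃ s : Finset ℕ, IsRep s ((xOut n : ℚ) / (yOut n b B ρ : ℚ)) ∧ s.card = 2 ∧
      2 ^ n * (s.sup id * xOut n) ≤ (2 * 2 ^ n + 1) * yOut n b B ρ := by
  obtain ⟨w, hw1, hw2, hw3⟩ := split_of_subsetSum (n := n) h
  obtain ⟨d1, d2, h1, h2, h3, h4, h5, h6⟩ := yes_case (κ := kap n) (r := 7 * kk n) (h := kk n)
    (A := Af n b B) (c := cf n b B) (τ := tau n b B)
    (by have := param_z (n := n) (m := 0) (by omega); omega)
    (cf_modEq hn) (cf_odd hn) (cf_lt hn) w hw1 hw2 hw3 (N := 2 ^ n)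
    (by rw [Fintype.card_fin]; exact param_H (pl_length_le hn))
    (ρ := fun j => chunk (7 * kk n) ρ j.val) (fun j => chunk_lt _ _ _)
  rw [← yOut_eq] at h1 h2
  exact rep_of_divisors (by have := xOut_ge n; omega) (yOut_odd hn ρ).pos h1 h2 h3 h4 h5 h6

lemma bad_of_rep {n : ℕ} {b : List ℕ} {B : ℕ} (hn : n = isize b B) (ρ : List Bool)
    (h : ∃ s : Finset ℕ, IsRep s ((xOut n : ℚ) / (yOut n b B ρ : ℚ)) ∧ s.card ≤ 2) :
    BadE (kap n) (7 * kk n) (kk n) (cf n b B) (fun j => chunk (7 * kk n) ρ j.val) := by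
  obtain ⟨s, hs, hc⟩ := h
  obtain ⟨d1, d2, h1, h2, h3, h4⟩ := exists_divisors_of_rep (by have := xOut_ge n; omega)
    (yOut_odd hn ρ).pos (coprime_out hn ρ) hs hc
  rw [yOut_eq] at h2 h3
  exact ⟨d1, d2, h1, h2, h3, h4⟩

/-- number of random bits -/
def ell (n : ℕ) : ℕ := (3 * (n + 1)) * (7 * kk n)

open Classical in
theorem no_final {n : ℕ} {b : List ℕ} {B : ℕ} (hn : n = isize b B) (h : ¬ SubsetSum b B) :
    ((Finset.univ : Finset (Fin (ell n) → Bool)).filter fun ρ =>
      ∃ s : Finset ℕ, IsRep s ((xOut n : ℚ) / (yOut n b B (List.ofFn ρ) : ℚ)) ∧ s.card ≤ 2).card *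
      4 ^ (n + 1) ≤ 2 ^ ell n := by
  set m := (pl n b B).length with hm
  set r := 7 * kk n with hr
  have hmle : m ≤ 3 * (n + 1) := pl_length_le hn
  have hmr : m * r ≤ ell n := Nat.mul_le_mul_right _ hmle
  obtain ⟨s, hs⟩ : ∃ s, ell n = m * r + s := ⟨ell n - m * r, by omega⟩
  -- the injection
  set G := (Fintype.piFinset (fun _ : Fin m => Finset.range (2 ^ r))).filter
    (BadE (kap n) r (kk n) (cf n b B)) with hG
  have hcard : ((Finset.univ : Finset (Fin (ell n) → Bool)).filter fun ρ =>
      ∃ s : Finset ℕ, IsRep s ((xOut n : ℚ) / (yOut n b B (List.ofFn ρ) : ℚ)) ∧ s.card ≤ 2).card ≤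
      (G ×ˢ (Finset.univ : Finset (Fin s → Bool))).card := by
    apply Finset.card_le_card_of_injOn
      (fun ρ => ((fun j : Fin m => chunk r (List.ofFn ρ) j.val),
        (fun i : Fin s => (List.ofFn ρ).getD (m * r + i.val) false)))
    · intro ρ hρ
      have hρ' := (Finset.mem_filter.1 (Finset.mem_coe.1 hρ)).2
      rw [Finset.mem_coe, Finset.mem_product]
      refine ⟨?_, Finset.mem_univ _⟩
      rw [hG, Finset.mem_filter]
      constructor
      · rw [Fintype.mem_piFinset]
        intro j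
        rw [Finset.mem_range]
        exact chunk_lt _ _ _
      · exact bad_of_rep hn _ hρ'
    · intro ρ _ ρ' _ heq
      simp only [Prod.mk.injEq] at heq
      obtain ⟨h1, h2⟩ := heq
      apply List.ofFn_injective
      -- compare entries
      apply List.ext_getElem
      · simp
      · intro i hi hi'
        rw [List.length_ofFn] at hi
        by_cases hlt : i < m * r
        · have hr0 : 0 < r := by
            rcases Nat.eq_zero_or_pos r with h0 | h0
            · rw [h0] at hlt; simp at hlt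
            · exact h0
          have hj : i / r < m := (Nat.div_lt_iff_lt_mul hr0).2 hlt
          have h3 := congrFun h1 ⟨i / r, hj⟩
          simp only at h3
          unfold chunk at h3
          have hlen : (((List.ofFn ρ).drop (i / r * r)).take r).length =
              (((List.ofFn ρ').drop (i / r * r)).take r).length := by simp
          have h4 := bval_inj _ _ hlen h3
          have hir : i % r < r := Nat.mod_lt _ hr0
          have hdm : i / r * r + i % r = i := Nat.div_add_mod' i r
          have hL : i % r < (((List.ofFn ρ).drop (i / r * r)).take r).length := by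
            rw [List.length_take, List.length_drop, List.length_ofFn]
            omega
          have h5 : (((List.ofFn ρ).drop (i / r * r)).take r)[i % r]'hL =
              (((List.ofFn ρ').drop (i / r * r)).take r)[i % r]'(by rw [← hlen]; exact hL) := by
            simp only [h4]
          rw [List.getElem_take, List.getElem_take, List.getElem_drop, List.getElem_drop] at h5
          simp only [hdm] at h5
          exact h5
        · have h3 := congrFun h2 ⟨i - m * r, by omega⟩
          simp only at h3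
          have e : m * r + (i - m * r) = i := by omega
          rw [e] at h3
          rw [List.getD_eq_getElem _ _ (by rw [List.length_ofFn]; exact hi),
            List.getD_eq_getElem _ _ (by rw [List.length_ofFn]; exact hi)] at h3
          exact h3
  rw [Finset.card_product, Finset.card_univ, Fintype.card_fun, Fintype.card_bool,
    Fintype.card_fin] at hcard
  have hGle := bad_count (κ := kap n) (z := zz n) (r := r) (h := kk n) (A := Af n b B)
    (c := cf n b B) (τ := tau n b B)
    (by rw [Fintype.card_fin]; exact param_z hmle) (param_r n) (sum_Af_lt hn) (cf_modEq hn)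
    (cf_odd hn) (cf_lt hn) (noSplit_of_not hn h)
  rw [Fintype.card_fin] at hGle
  have hfin := param_final (n := n) (m := m) (by rw [hm, pl_length]; omega) hmle
  have hGfin : (G.card : ℚ) * 4 ^ (n + 1) ≤ (2 ^ r) ^ m := by
    refine le_trans ?_ hfin
    exact mul_le_mul_of_nonneg_right hGle (by positivity)
  have hGnat : G.card * 4 ^ (n + 1) ≤ (2 ^ r) ^ m := by exact_mod_cast hGfin
  calc _ ≤ G.card * 2 ^ s * 4 ^ (n + 1) := Nat.mul_le_mul_right _ hcard
    _ = (G.card * 4 ^ (n + 1)) * 2 ^ s := by ring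
    _ ≤ (2 ^ r) ^ m * 2 ^ s := Nat.mul_le_mul_right _ hGnat
    _ = 2 ^ ell n := by
        rw [hs, pow_add, ← pow_mul, mul_comm r m]

end Pool.Agent.H44
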