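import Pool.Agent.H44.EFArith
import Pool.Agent.H44.EFMain

set_option autoImplicit false

namespace Pool.Agent.H44

open Pool.Agent.StackProg

lemma bits_length_le {a L : ℕ} (h : a < 2 ^ L) : a.bits.length ≤ L := by
  rw [Nat.size_eq_bits_len]
  exact Nat.size_le.2 h

lemma bits_length_mono {a b : ℕ} (h : a ≤ b) : a.bits.length ≤ b.bits.length := by
  rw [Nat.size_eq_bits_len, Nat.size_eq_bits_len]
  exact Nat.size_le_size h

def mulVal (y : ℕ) : List Bool → ℕ → ℕ
  | [], a => a
  | z :: zs, a => mulVal y zs (2 * a + if z then y else 0)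

lemma mulVal_mul (y : ℕ) : ∀ (zs : List Bool) (m : ℕ),
    mulVal y zs (y * m) = y * zs.foldl (fun m z => 2 * m + if z then 1 else 0) m
  | [], m => rfl
  | z :: zs, m => by
      simp only [mulVal, List.foldl_cons]
      rw [← mulVal_mul y zs]
      congr 1
      cases z <;> simp <;> ring

lemma foldl_rev (w : List Bool) :
    w.reverse.foldl (fun m z => 2 * m + if z then 1 else 0) 1 = 2 ^ w.length + bval w := by
  induction w with
  | nil => simp [bval]
  | cons b w ih =>
    rw [List.reverse_cons, List.foldl_append, ih]
    simp only [List.foldl_cons, List.foldl_nil, bval, List.length_cons, pow_succ]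
    ring

lemma mulVal_rev (y : ℕ) (w : List Bool) :
    mulVal y w.reverse y = y * (2 ^ w.length + bval w) := by
  have := mulVal_mul y w.reverse 1
  rw [mul_one] at this
  rw [this, foldl_rev]

def MULbody : P := .seq (put .A (.bit false)) (.ite (fun v => isOne v.1) ADD .skip)

def MUL : P := .seq ADD (.seq (each .Z MULbody) (.seq (clr .Y) (.seq (mv .A .t1) (mv .t1 .Y))))

lemma mul_loop (y : ℕ) : ∀ (zs : List Bool) (a : ℕ) (r : Rec), r.Z = bs zs → r.A = bs a.bits →
    1 ≤ a → y ≤ a → r.Y = bs y.bits → r.t1 = [] → r.t2 = [] →
    Does (each .Z MULbody) r (zs.length * (8 * y.bits.length +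
      5 * (a.bits.length + 2 * zs.length + 1) + 16) + 1)
      { r with Z := [], A := bs (mulVal y zs a).bits } := by
  intro zs
  induction zs with
  | nil =>
    intro a r hZ hA _ _ _ _ _
    have e : ({ r with Z := [], A := bs (mulVal y [] a).bits } : Rec) = r := by
      cases r
      simp only at hZ hA
      subst hZ hA
      rfl
    rw [e]
    exact (each_nil (show get .Z r = [] from hZ)).mono (by simp)
  | cons z zs ih =>
    intro a r hZ hA ha hya hY ht1 ht2
    set r1 : Rec := { r with Z := bs zs, A := bs (2 * a).bits } with hr1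
    have hput : set .A (Sym.bit false :: get .A (set .Z (bs zs) r)) (set .Z (bs zs) r) = r1 := by
      have : Sym.bit false :: r.A = bs (2 * a).bits := by
        rw [hA, Nat.bit0_bits a (by omega)]
        rfl
      show ({ r with Z := bs zs, A := Sym.bit false :: r.A } : Rec) = r1
      rw [this]
    have hl2 : (2 * a).bits.length ≤ a.bits.length + 1 := by
      rw [Nat.bit0_bits a (by omega)]
      simp
    set r2 : Rec := { r1 with A := bs (2 * a + if z then y else 0).bits } with hr2
    have hstep : DoesC (Sym.bit z) MULbody (set .Z (bs zs) r)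
        (1 + (1 + (8 * y.bits.length + 5 * (a.bits.length + 1) + 12))) r2 := by
      apply put_seq
      rw [hput]
      cases z with
      | true =>
        apply ite_true (f := isOne) rfl
        have h := ADD_nat y (2 * a) r1 hY rfl ht1 ht2
        have e : r2 = { r1 with A := bs (2 * a + y).bits } := by
          rw [hr2]; simp
        rw [e]
        exact (h.mono (by omega)).toC
      | false =>
        apply ite_false (f := isOne) rfl
        have e : r2 = r1 := by
          rw [hr2]; simp [hr1]
        rw [e]
        exact ((Does.skip r1).mono (by omega)).toC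
    have hlen : (2 * a + if z then y else 0).bits.length ≤ a.bits.length + 2 := by
      apply bits_length_le
      have h1 := bits_lt a
      rw [pow_add]
      cases z <;> simp <;> omega
    have hrec := ih (2 * a + if z then y else 0) r2 rfl rfl (by omega) (by omega) hY ht1 ht2
    have h := each_cons (show get .Z r = Sym.bit z :: bs zs from hZ) hstep hrec
    have e : ({ r2 with Z := [], A := bs (mulVal y zs (2 * a + if z then y else 0)).bits } : Rec) =
        { r with Z := [], A := bs (mulVal y (z :: zs) a).bits } := rfl
    rw [e] at h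
    refine h.mono ?_
    simp only [List.length_cons]
    have h2 : zs.length * (8 * y.bits.length + 5 * ((2 * a + if z then y else 0).bits.length +
        2 * zs.length + 1) + 16) ≤ zs.length * (8 * y.bits.length + 5 * (a.bits.length +
        2 * (zs.length + 1) + 1) + 16) := by
      apply Nat.mul_le_mul_left
      omega
    have h3 : (zs.length + 1) * (8 * y.bits.length + 5 * (a.bits.length +
        2 * (zs.length + 1) + 1) + 16) = zs.length * (8 * y.bits.length + 5 * (a.bits.length +
        2 * (zs.length + 1) + 1) + 16) + (8 * y.bits.length + 5 * (a.bits.length +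
        2 * (zs.length + 1) + 1) + 16) := by ring
    rw [h3]
    omega

lemma mulVal_bound (y : ℕ) : ∀ (zs : List Bool) (a : ℕ), y ≤ a →
    (mulVal y zs a).bits.length ≤ a.bits.length + 2 * zs.length
  | [], a, _ => by simp [mulVal]
  | z :: zs, a, h => by
      have hlen : (2 * a + if z then y else 0).bits.length ≤ a.bits.length + 2 := by
        apply bits_length_le
        have h1 := bits_lt a
        rw [pow_add]
        cases z <;> simp <;> omega
      have := mulVal_bound y zs (2 * a + if z then y else 0) (by omega)
      simp only [mulVal, List.length_cons]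
      omega

/-- time for a multiplication -/
def tMul (L W : ℕ) : ℕ := (W + 2) * (20 * (L + W) + 40)

lemma MUL_spec (y : ℕ) (w : List Bool) (r : Rec) (hy : 1 ≤ y) (hZ : r.Z = bs w.reverse)
    (hY : r.Y = bs y.bits) (hA : r.A = []) (ht1 : r.t1 = []) (ht2 : r.t2 = []) :
    Does MUL r (tMul y.bits.length w.length)
      { r with Z := [], Y := bs (y * (2 ^ w.length + bval w)).bits } := by
  have hA0 : r.A = bs (0 : ℕ).bits := by rw [hA]; simp
  have h1 := ADD_nat y 0 r hY hA0 ht1 ht2
  set r1 : Rec := { r with A := bs (0 + y).bits } with hr1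
  have h2 := mul_loop y w.reverse y r1 hZ (by rw [hr1, Nat.zero_add]) hy le_rfl hY ht1 ht2
  set a := mulVal y w.reverse y with ha
  set r2 : Rec := { r1 with Z := [], A := bs a.bits } with hr2
  have h3 := clr_spec (a := .Y) (bs y.bits) r2 hY
  set r3 : Rec := { r2 with Y := [] } with hr3
  have h4 := mv_spec (show Stk.A ≠ Stk.t1 by decide) (bs a.bits) r3 rfl
  have e4 : set .A [] (set .t1 ((bs a.bits).reverse ++ get .t1 r3) r3) =
      ({ r3 with A := [], t1 := bs a.bits.reverse } : Rec) := by
    have : (bs a.bits).reverse ++ r.t1 = bs a.bits.reverse := by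
      rw [ht1, bs_reverse, List.append_nil]
    show ({ r3 with A := [], t1 := (bs a.bits).reverse ++ r.t1 } : Rec) = _
    rw [this]
  rw [e4] at h4
  set r4 : Rec := { r3 with A := [], t1 := bs a.bits.reverse } with hr4
  have h5 := mv_spec (show Stk.t1 ≠ Stk.Y by decide) (bs a.bits.reverse) r4 rfl
  have e5 : set .t1 [] (set .Y ((bs a.bits.reverse).reverse ++ get .Y r4) r4) =
      ({ r with Z := [], Y := bs a.bits } : Rec) := by
    have e : (bs a.bits.reverse).reverse ++ get .Y r4 = bs a.bits := by
      rw [bs_reverse, List.reverse_reverse]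
      exact List.append_nil _
    rw [e]
    show ({ r with Z := [], A := [], Y := bs a.bits, t1 := [] } : Rec) = _
    cases r
    simp only at hA ht1
    subst hA ht1
    rfl
  rw [e5] at h5
  have h := h1.seq (h2.seq (h3.seq (h4.seq h5)))
  have hav : a = y * (2 ^ w.length + bval w) := mulVal_rev y w
  rw [hav] at h
  refine h.mono ?_
  have hb := mulVal_bound y w.reverse y le_rfl
  rw [← ha, hav, List.length_reverse] at hb
  simp only [bs_length, List.length_reverse]
  unfold tMul
  have h0 : (0 : ℕ).bits.length = 0 := by simp
  rw [h0]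
  set L := y.bits.length
  set W := w.length
  have e6 : (W + 2) * (20 * (L + W) + 40) = W * (8 * L + 5 * (L + 2 * W + 1) + 16) +
      W * (7 * L + 10 * W + 19) + 40 * L + 40 * W + 80 := by ring
  rw [e6]
  generalize W * (8 * L + 5 * (L + 2 * W + 1) + 16) = u
  generalize W * (7 * L + 10 * W + 19) = u'
  omega

/-- growth of the length -/
lemma mul_len (y : ℕ) (w : List Bool) :
    (y * (2 ^ w.length + bval w)).bits.length ≤ y.bits.length + w.length + 1 := by
  apply bits_length_le
  have h1 := bits_lt y
  have h2 := bval_lt w
  have h3 : 2 ^ w.length + bval w < 2 ^ (w.length + 1) := by rw [pow_succ]; omega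
  calc y * (2 ^ w.length + bval w) < 2 ^ y.bits.length * 2 ^ (w.length + 1) := by
        apply Nat.mul_lt_mul'' h1 h3
    _ = _ := by rw [← pow_add]; congr 1

end Pool.Agent.H44
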