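import Pool.Agent.H44.EFMul

set_option autoImplicit false

namespace Pool.Agent.H44

open Pool.Agent.StackProg

lemma bval_append : ∀ (l l' : List Bool), bval (l ++ l') = bval l + 2 ^ l.length * bval l'
  | [], l' => by simp [bval]
  | b :: l, l' => by
      simp only [List.cons_append, bval, List.length_cons, bval_append l l', pow_succ]
      ring

lemma bval_replicate_false (n : ℕ) : bval (List.replicate n false) = 0 := by
  induction n with
  | zero => rfl
  | succ n ih => simp [List.replicate_succ, bval, ih]

lemma bval_replicate_true (n : ℕ) : bval (List.replicate n true) = 2 ^ n - 1 := by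
  induction n with
  | zero => rfl
  | succ n ih =>
    have : 1 ≤ 2 ^ n := Nat.one_le_two_pow
    simp only [List.replicate_succ, bval, ih, if_true, pow_succ]
    omega

lemma bval_bits (x : ℕ) : bval x.bits = x := by
  induction x using Nat.binaryRec' with
  | zero => simp [bval]
  | bit b n h ih =>
    rw [Nat.bits_append_bit n b h]
    simp only [bval, ih, Nat.bit_val]
    cases b <;> simp <;> ring

lemma bval_not (l : List Bool) : bval (l.map not) + bval l + 1 = 2 ^ l.length := by
  induction l with
  | nil => simp [bval]
  | cons b l ih =>
    simp only [List.map_cons, bval, List.length_cons, pow_succ, ← ih]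
    cases b <;> simp <;> ring

/-- bits taken from the random source, padded with zeros -/
def padTake : ℕ → List Bool → List Bool
  | 0, _ => []
  | m + 1, q => q.headD false :: padTake m q.tail

lemma padTake_length : ∀ (m : ℕ) (q : List Bool), (padTake m q).length = m
  | 0, _ => rfl
  | m + 1, q => by simp [padTake, padTake_length m]

lemma bval_padTake : ∀ (m : ℕ) (q : List Bool), bval (padTake m q) = bval (q.take m)
  | 0, q => by simp [padTake, bval]
  | m + 1, [] => by
      simp only [padTake, List.headD_nil, List.tail_nil, bval, bval_padTake m]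
      simp [bval]
  | m + 1, b :: q => by simp [padTake, bval, bval_padTake m]

lemma padTake_add : ∀ (a b : ℕ) (q : List Bool), padTake (a + b) q = padTake a q ++ padTake b (q.drop a)
  | 0, b, q => by simp [padTake]
  | a + 1, b, q => by
      rw [show a + 1 + b = (a + b) + 1 by ring]
      simp only [padTake, List.cons_append]
      rw [padTake_add a b q.tail]
      congr 3
      cases q <;> simp

/-- one random bit -/
def PR : P := .seq (.pop .rho (fun v o => (.bit (coinOf (o.getD .comma)), v.2))) (putc .Z)

def PRn : ℕ → P
  | 0 => .skip
  | m + 1 => .seq PR (PRn m)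

lemma PR_spec (q w : List Bool) (r : Rec) (hrho : r.rho = cs q) (hZ : r.Z = bs w.reverse) :
    Does PR r 2 { r with rho := cs q.tail, Z := bs (w ++ [q.headD false]).reverse } := by
  intro v
  refine ⟨(.bit (q.headD false), v.2), 1 + 1, le_rfl, ?_⟩
  have h1 := Exec.pop (σ := Sym × Bool) Stk.rho (fun v o => (.bit (coinOf (o.getD .comma)), v.2)) v
    (fn r)
  rw [update_fn] at h1
  have hg : fn r Stk.rho = cs q := hrho
  rw [hg] at h1
  have e1 : (coinOf ((cs q).head?.getD .comma)) = q.headD false := by
    cases q <;> rfl
  have e2 : (cs q).tail = cs q.tail := by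
    cases q <;> rfl
  rw [e1, e2] at h1
  have h2 := Exec.push (σ := Sym × Bool) Stk.Z (fun v => v.1) (.bit (q.headD false), v.2)
    (fn (set .rho (cs q.tail) r))
  rw [update_fn] at h2
  have h3 := Exec.seq h1 h2
  have e3 : set .Z (Sym.bit (q.headD false) :: fn (set .rho (cs q.tail) r) .Z)
      (set .rho (cs q.tail) r) =
      { r with rho := cs q.tail, Z := bs (w ++ [q.headD false]).reverse } := by
    have : fn (set .rho (cs q.tail) r) .Z = bs w.reverse := hZ
    rw [this, List.reverse_append]
    rfl
  rw [e3] at h3
  exact h3

lemma PRn_spec : ∀ (m : ℕ) (q w : List Bool) (r : Rec), r.rho = cs q → r.Z = bs w.reverse →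
    Does (PRn m) r (2 * m + 1) { r with rho := cs (q.drop m), Z := bs (w ++ padTake m q).reverse }
  | 0, q, w, r, hrho, hZ => by
      have e : ({ r with rho := cs (q.drop 0), Z := bs (w ++ padTake 0 q).reverse } : Rec) = r := by
        cases r
        simp only at hrho hZ
        subst hrho hZ
        simp [padTake]
      rw [e]
      exact Does.skip r
  | m + 1, q, w, r, hrho, hZ => by
      have h1 := PR_spec q w r hrho hZ
      have h2 := PRn_spec m q.tail (w ++ [q.headD false])
        { r with rho := cs q.tail, Z := bs (w ++ [q.headD false]).reverse } rfl rfl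
      have h3 := h1.seq h2
      have e : ({ ({ r with rho := cs q.tail, Z := bs (w ++ [q.headD false]).reverse } : Rec) with
          rho := cs (q.tail.drop m), Z := bs (w ++ [q.headD false] ++ padTake m q.tail).reverse } : Rec) =
          { r with rho := cs (q.drop (m + 1)), Z := bs (w ++ padTake (m + 1) q).reverse } := by
        have e1 : q.tail.drop m = q.drop (m + 1) := by cases q <;> simp
        rw [e1]
        simp [padTake]
      rw [e] at h3
      exact h3.mono (by omega)

/-- the random field: seven bits for each symbol of `ks` -/
def RND : P := .seq (each .ks (.seq (putc .t1) (PRn 7))) (mv .t1 .ks)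

lemma RND_loop : ∀ (l : List Sym) (q w : List Bool) (r : Rec), r.ks = l → r.rho = cs q →
    r.Z = bs w.reverse →
    Does (each .ks (.seq (putc .t1) (PRn 7))) r (17 * l.length + 1)
      { r with
        ks := [], t1 := l.reverse ++ r.t1, rho := cs (q.drop (7 * l.length)),
        Z := bs (w ++ padTake (7 * l.length) q).reverse } := by
  intro l
  induction l with
  | nil =>
    intro q w r hk hrho hZ
    have e : ({ r with
        ks := [], t1 := ([] : List Sym).reverse ++ r.t1,
        rho := cs (q.drop (7 * ([] : List Sym).length)),
        Z := bs (w ++ padTake (7 * ([] : List Sym).length) q).reverse } : Rec) = r := by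
      cases r
      simp only at hk hrho hZ
      subst hk hrho hZ
      simp [padTake]
    rw [e]
    exact (each_nil (show get .ks r = [] from hk)).mono (by omega)
  | cons c l ih =>
    intro q w r hk hrho hZ
    have h1 : DoesC c (.seq (putc .t1) (PRn 7)) (set .ks l r) (1 + (2 * 7 + 1)) _ :=
      putc_seq (PRn_spec 7 q w (set .t1 (c :: get .t1 (set .ks l r)) (set .ks l r)) hrho hZ).toC
    have h2 := ih (q.drop 7) (w ++ padTake 7 q)
      { r with
        ks := l, t1 := c :: r.t1, rho := cs (q.drop 7),
        Z := bs (w ++ padTake 7 q).reverse } rfl rfl rfl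
    have h3 := each_cons (show get .ks r = c :: l from hk) h1 h2
    have e1 : (q.drop 7).drop (7 * l.length) = q.drop (7 * (c :: l).length) := by
      rw [List.drop_drop]
      congr 1
      simp only [List.length_cons]; ring
    have e2 : w ++ padTake 7 q ++ padTake (7 * l.length) (q.drop 7) =
        w ++ padTake (7 * (c :: l).length) q := by
      rw [List.append_assoc, ← padTake_add]
      congr 2
      simp only [List.length_cons]; ring
    have e3 : l.reverse ++ (c :: r.t1) = (c :: l).reverse ++ r.t1 := by simp
    have e : ({ r with
        ks := [], t1 := l.reverse ++ (c :: r.t1),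
        rho := cs ((q.drop 7).drop (7 * l.length)),
        Z := bs (w ++ padTake 7 q ++ padTake (7 * l.length) (q.drop 7)).reverse } : Rec) =
        { r with
          ks := [], t1 := (c :: l).reverse ++ r.t1, rho := cs (q.drop (7 * (c :: l).length)),
          Z := bs (w ++ padTake (7 * (c :: l).length) q).reverse } := by
      rw [e1, e2, e3]
    rw [← e]
    exact Does.mono h3 (by simp only [List.length_cons]; omega)

lemma RND_spec (q w : List Bool) (r : Rec) (hrho : r.rho = cs q) (hZ : r.Z = bs w.reverse)
    (ht1 : r.t1 = []) :
    Does RND r (19 * r.ks.length + 2)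
      { r with rho := cs (q.drop (7 * r.ks.length)),
               Z := bs (w ++ padTake (7 * r.ks.length) q).reverse } := by
  have h1 := RND_loop r.ks q w r rfl hrho hZ
  have h2 := mv_spec (show Stk.t1 ≠ Stk.ks by decide) (r.ks.reverse ++ r.t1) _
    (show get .t1 ({ r with
      ks := [], t1 := r.ks.reverse ++ r.t1,
      rho := cs (q.drop (7 * r.ks.length)),
      Z := bs (w ++ padTake (7 * r.ks.length) q).reverse } : Rec) = _ from rfl)
  have h3 := h1.seq h2
  have e : set .t1 [] (set .ks ((r.ks.reverse ++ r.t1).reverse ++ get .ks
      ({ r with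
      ks := [], t1 := r.ks.reverse ++ r.t1,
      rho := cs (q.drop (7 * r.ks.length)),
      Z := bs (w ++ padTake (7 * r.ks.length) q).reverse } : Rec))
      ({ r with
      ks := [], t1 := r.ks.reverse ++ r.t1,
      rho := cs (q.drop (7 * r.ks.length)),
      Z := bs (w ++ padTake (7 * r.ks.length) q).reverse } : Rec)) =
      { r with
        rho := cs (q.drop (7 * r.ks.length)),
        Z := bs (w ++ padTake (7 * r.ks.length) q).reverse } := by
    have e1 : (r.ks.reverse ++ r.t1).reverse ++ ([] : List Sym) = r.ks := by
      rw [ht1]; simp
    show ({ r with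
      ks := (r.ks.reverse ++ r.t1).reverse ++ [], t1 := [],
      rho := cs (q.drop (7 * r.ks.length)),
      Z := bs (w ++ padTake (7 * r.ks.length) q).reverse } : Rec) = _
    rw [e1]
    cases r
    simp only at ht1
    subst ht1
    rfl
  rw [e] at h3
  refine h3.mono ?_
  rw [ht1, List.append_nil, List.length_reverse]
  omega

/-- push a block of equal bits onto `Z`, once for each symbol of `a` -/
lemma fillZ {a : Stk} (ha1 : a ≠ .t1) (haZ : a ≠ .Z) (b : Bool) (m : ℕ) (w : List Bool) (r : Rec)
    (hZ : r.Z = bs w.reverse) (ht1 : r.t1 = []) :
    Does (fill a .t1 .Z (.bit b) m) r ((m + 5) * (get a r).length + 2)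
      { r with Z := bs (w ++ List.replicate (m * (get a r).length) b).reverse } := by
  have h := fill_spec ha1 haZ (show Stk.t1 ≠ Stk.Z by decide) (.bit b) m r ht1
  have e : set .Z (List.replicate (m * (get a r).length) (Sym.bit b) ++ get .Z r) r =
      { r with Z := bs (w ++ List.replicate (m * (get a r).length) b).reverse } := by
    have : List.replicate (m * (get a r).length) (Sym.bit b) ++ get .Z r =
        bs (w ++ List.replicate (m * (get a r).length) b).reverse := by
      rw [List.reverse_append, List.reverse_replicate, bs_append, ← bs_replicate]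
      congr 1
    rw [this]
    rfl
  rw [e] at h
  exact h

lemma putZ (b : Bool) (w : List Bool) (r : Rec) (hZ : r.Z = bs w.reverse) :
    Does (put .Z (.bit b)) r 1 { r with Z := bs (w ++ [b]).reverse } := by
  have h := put_spec .Z (.bit b) r
  have e : set .Z (Sym.bit b :: get .Z r) r = { r with Z := bs (w ++ [b]).reverse } := by
    have : Sym.bit b :: get .Z r = bs (w ++ [b]).reverse := by
      rw [List.reverse_append]
      show Sym.bit b :: r.Z = _
      rw [hZ]
      rfl
    rw [this]
    rfl
  rw [e] at h
  exact h

/-- `4n + k` equal bits -/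
def FILL (b : Bool) : P := .seq (fill .nn .t1 .Z (.bit b) 4) (fill .ks .t1 .Z (.bit b) 1)

lemma FILL_spec (b : Bool) (w : List Bool) (r : Rec) (hZ : r.Z = bs w.reverse) (ht1 : r.t1 = []) :
    Does (FILL b) r (9 * r.nn.length + 6 * r.ks.length + 4)
      { r with Z := bs (w ++ List.replicate (4 * r.nn.length + r.ks.length) b).reverse } := by
  have h1 := fillZ (a := .nn) (by decide) (by decide) b 4 w r hZ ht1
  have h2 := fillZ (a := .ks) (by decide) (by decide) b 1 (w ++ List.replicate (4 * (get .nn r).length) b)
    { r with Z := bs (w ++ List.replicate (4 * (get .nn r).length) b).reverse } rfl ht1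
  have h3 := h1.seq h2
  have e : (w ++ List.replicate (4 * (get .nn r).length) b) ++
      List.replicate (1 * r.ks.length) b = w ++ List.replicate (4 * r.nn.length + r.ks.length) b := by
    rw [List.append_assoc, ← List.replicate_add, one_mul]
    rfl
  have e' : ({ r with Z := bs ((w ++ List.replicate (4 * (get .nn r).length) b) ++
      List.replicate (1 * r.ks.length) b).reverse } : Rec) =
      { r with Z := bs (w ++ List.replicate (4 * r.nn.length + r.ks.length) b).reverse } := by rw [e]
  rw [← e']
  refine h3.mono ?_
  show (4 + 5) * r.nn.length + 2 + ((1 + 5) * r.ks.length + 2) ≤ _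
  omega

/-- copy `V` (stored most significant bit first) onto `Z`, least significant bit first -/
def VC : P := .seq (mv .V .t1) (each .t1 (.seq (putc .Z) (putc .V)))

lemma VC_loop : ∀ (x w u : List Bool) (r : Rec), r.t1 = bs x → r.Z = bs w.reverse →
    r.V = bs u.reverse →
    Does (each .t1 (.seq (putc .Z) (putc .V))) r (3 * x.length + 1)
      { r with t1 := [], Z := bs (w ++ x).reverse, V := bs (u ++ x).reverse } := by
  intro x
  induction x with
  | nil =>
    intro w u r h1 h2 h3
    have e : ({ r with t1 := [], Z := bs (w ++ []).reverse, V := bs (u ++ []).reverse } : Rec) = r := by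
      cases r
      simp only at h1 h2 h3
      subst h1 h2 h3
      simp
    rw [e]
    exact each_nil (show get .t1 r = [] from h1)
  | cons b x ih =>
    intro w u r h1 h2 h3
    have hs : DoesC (Sym.bit b) (.seq (putc .Z) (putc .V)) (set .t1 (bs x) r) (1 + 1)
        { r with t1 := bs x, Z := bs (w ++ [b]).reverse, V := bs (u ++ [b]).reverse } := by
      apply putc_seq
      have := putc_spec (Sym.bit b) .V (set .Z (Sym.bit b :: get .Z (set .t1 (bs x) r)) (set .t1 (bs x) r))
      have e : set .V (Sym.bit b :: get .V (set .Z (Sym.bit b :: get .Z (set .t1 (bs x) r)) (set .t1 (bs x) r)))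
          (set .Z (Sym.bit b :: get .Z (set .t1 (bs x) r)) (set .t1 (bs x) r)) =
          { r with t1 := bs x, Z := bs (w ++ [b]).reverse, V := bs (u ++ [b]).reverse } := by
        show ({ r with t1 := bs x, Z := Sym.bit b :: r.Z, V := Sym.bit b :: r.V } : Rec) = _
        rw [h2, h3]
        simp
      rw [e] at this
      exact this
    have h4 := ih (w ++ [b]) (u ++ [b])
      { r with t1 := bs x, Z := bs (w ++ [b]).reverse, V := bs (u ++ [b]).reverse } rfl rfl rfl
    have h5 := each_cons (show get .t1 r = Sym.bit b :: bs x from h1) hs h4
    have e : ({ ({ r with t1 := bs x, Z := bs (w ++ [b]).reverse, V := bs (u ++ [b]).reverse } : Rec) with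
        t1 := [], Z := bs (w ++ [b] ++ x).reverse, V := bs (u ++ [b] ++ x).reverse } : Rec) =
        { r with t1 := [], Z := bs (w ++ b :: x).reverse, V := bs (u ++ b :: x).reverse } := by
      simp
    rw [e] at h5
    refine h5.mono ?_
    simp only [List.length_cons]
    omega

lemma VC_spec (x w : List Bool) (r : Rec) (hV : r.V = bs x.reverse) (hZ : r.Z = bs w.reverse)
    (ht1 : r.t1 = []) :
    Does VC r (5 * x.length + 2) { r with Z := bs (w ++ x).reverse } := by
  have h1 := mv_spec (show Stk.V ≠ Stk.t1 by decide) (bs x.reverse) r hV
  have e1 : set .V [] (set .t1 ((bs x.reverse).reverse ++ get .t1 r) r) =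
      { r with V := [], t1 := bs x } := by
    have : (bs x.reverse).reverse ++ get .t1 r = bs x := by
      rw [bs_reverse, List.reverse_reverse]
      show bs x ++ r.t1 = bs x
      rw [ht1, List.append_nil]
    rw [this]
    rfl
  rw [e1] at h1
  have h2 := VC_loop x w [] { r with V := [], t1 := bs x } rfl hZ rfl
  have h3 := h1.seq h2
  have e : ({ ({ r with V := [], t1 := bs x } : Rec) with
      t1 := [], Z := bs (w ++ x).reverse, V := bs ([] ++ x).reverse } : Rec) =
      { r with Z := bs (w ++ x).reverse } := by
    cases r
    simp only at hV ht1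
    subst hV ht1
    rfl
  rw [e] at h3
  refine h3.mono ?_
  rw [bs_length, List.length_reverse]
  omega

/-- value part of the field: either the bits of the current number or zeros -/
def VV : Bool → P
  | true => VC
  | false => fill .V .t1 .Z (.bit false) 1

def vsel : Bool → List Bool → List Bool
  | true, x => x
  | false, x => List.replicate x.length false

lemma VV_spec (s : Bool) (x w : List Bool) (r : Rec) (hV : r.V = bs x.reverse)
    (hZ : r.Z = bs w.reverse) (ht1 : r.t1 = []) :
    Does (VV s) r (6 * x.length + 2) { r with Z := bs (w ++ vsel s x).reverse } := by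
  cases s with
  | true => exact (VC_spec x w r hV hZ ht1).mono (by omega)
  | false =>
    have h := fillZ (a := .V) (by decide) (by decide) false 1 w r hZ ht1
    have e : (get .V r).length = x.length := by
      show r.V.length = _
      rw [hV, bs_length, List.length_reverse]
    rw [e, one_mul] at h
    exact h.mono (by omega)

/-- the middle field for a list element -/
def AF (s : Bool) : P :=
  .seq (fill .n1 .t1 .Z (.bit false) 3) (.seq (put .Z (.bit true)) (.seq (put .Z (.bit false))
    (.seq (put .Z (.bit false)) (.seq (fill .n2 .t1 .Z (.bit false) 3) (.seq (VV s)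
    (.seq (fill .e .t1 .Z (.bit false) 1) (.seq (put .Z (.bit false))
    (fill .ks .t1 .Z (.bit false) 1))))))))

/-- the word written by `AF` -/
def afW (s : Bool) (p q el k : ℕ) (x : List Bool) : List Bool :=
  List.replicate (3 * p) false ++ [true] ++ [false] ++ [false] ++ List.replicate (3 * q) false ++
    vsel s x ++ List.replicate (1 * el) false ++ [false] ++ List.replicate (1 * k) false

lemma AF_spec (s : Bool) (x w : List Bool) (r : Rec) (hV : r.V = bs x.reverse)
    (hZ : r.Z = bs w.reverse) (ht1 : r.t1 = []) :
    Does (AF s) r (8 * r.n1.length + 8 * r.n2.length + 6 * x.length + 6 * r.e.length +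
      6 * r.ks.length + 14)
      { r with Z := bs (w ++ afW s r.n1.length r.n2.length r.e.length r.ks.length x).reverse } := by
  have h1 := fillZ (a := .n1) (by decide) (by decide) false 3 w r hZ ht1
  have h2 := putZ true _ _ (show ({ r with Z := bs (w ++ List.replicate
    (3 * (get .n1 r).length) false).reverse } : Rec).Z = _ from rfl)
  have h3 := putZ false _ _ (show ({ r with Z := bs (w ++ List.replicate
    (3 * (get .n1 r).length) false ++ [true]).reverse } : Rec).Z = _ from rfl)
  have h4 := putZ false _ _ (show ({ r with Z := bs (w ++ List.replicate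
    (3 * (get .n1 r).length) false ++ [true] ++ [false]).reverse } : Rec).Z = _ from rfl)
  have h5 := fillZ (a := .n2) (by decide) (by decide) false 3 _ _ (show ({ r with Z := bs (w ++
    List.replicate (3 * (get .n1 r).length) false ++ [true] ++ [false] ++ [false]).reverse }
    : Rec).Z = _ from rfl) ht1
  have h6 := VV_spec s x _ _ (show ({ r with Z := bs (w ++
    List.replicate (3 * (get .n1 r).length) false ++ [true] ++ [false] ++ [false] ++
    List.replicate (3 * (get .n2 r).length) false).reverse } : Rec).V = _ from hV) rfl ht1
  have h7 := fillZ (a := .e) (by decide) (by decide) false 1 _ _ (show ({ r with Z := bs (w ++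
    List.replicate (3 * (get .n1 r).length) false ++ [true] ++ [false] ++ [false] ++
    List.replicate (3 * (get .n2 r).length) false ++ vsel s x).reverse } : Rec).Z = _ from rfl) ht1
  have h8 := putZ false _ _ (show ({ r with Z := bs (w ++
    List.replicate (3 * (get .n1 r).length) false ++ [true] ++ [false] ++ [false] ++
    List.replicate (3 * (get .n2 r).length) false ++ vsel s x ++
    List.replicate (1 * (get .e r).length) false).reverse } : Rec).Z = _ from rfl)
  have h9 := fillZ (a := .ks) (by decide) (by decide) false 1 _ _ (show ({ r with Z := bs (w ++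
    List.replicate (3 * (get .n1 r).length) false ++ [true] ++ [false] ++ [false] ++
    List.replicate (3 * (get .n2 r).length) false ++ vsel s x ++
    List.replicate (1 * (get .e r).length) false ++ [false]).reverse } : Rec).Z = _ from rfl) ht1
  have h := h1.seq (h2.seq (h3.seq (h4.seq (h5.seq (h6.seq (h7.seq (h8.seq h9)))))))
  have e : ({ r with Z := bs (w ++
    List.replicate (3 * (get .n1 r).length) false ++ [true] ++ [false] ++ [false] ++
    List.replicate (3 * (get .n2 r).length) false ++ vsel s x ++
    List.replicate (1 * (get .e r).length) false ++ [false] ++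
    List.replicate (1 * (get .ks r).length) false).reverse } : Rec) =
    { r with Z := bs (w ++ afW s r.n1.length r.n2.length r.e.length r.ks.length x).reverse } := by
    unfold afW
    simp only [List.append_assoc]
    rfl
  rw [← e]
  refine h.mono ?_
  show (3 + 5) * r.n1.length + 2 + (1 + (1 + (1 + ((3 + 5) * r.n2.length + 2 +
    (6 * x.length + 2 + ((1 + 5) * r.e.length + 2 + (1 + ((1 + 5) * r.ks.length + 2)))))))) ≤ _
  omega

end Pool.Agent.H44
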