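import Pool.Agent.H44.EFNum

set_option autoImplicit false

namespace Pool.Agent.H44

open Pool.Agent.StackProg

/-- common tail: random field, zeros, multiplication -/
def TAIL : P := .seq RND (.seq (fill .ks .t1 .Z (.bit false) 1) MUL)

lemma tail_val (hd q : List Bool) (k : ℕ) :
    2 ^ (hd ++ padTake (7 * k) q ++ List.replicate k false).length +
      bval (hd ++ padTake (7 * k) q ++ List.replicate k false) =
      bval hd + 2 ^ hd.length * (2 ^ (7 * k + k) + bval (q.take (7 * k))) := by
  rw [bval_append, bval_append, bval_replicate_false, bval_padTake]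
  simp only [List.length_append, List.length_replicate, padTake_length, Nat.mul_zero, Nat.add_zero]
  rw [Nat.add_assoc, pow_add]
  ring

lemma TAIL_spec (y : ℕ) (q hd : List Bool) (r : Rec) (hy : 1 ≤ y) (hrho : r.rho = cs q)
    (hZ : r.Z = bs hd.reverse) (hY : r.Y = bs y.bits) (hA : r.A = []) (ht1 : r.t1 = [])
    (ht2 : r.t2 = []) :
    Does TAIL r (25 * r.ks.length + 4 + tMul y.bits.length (hd.length + 8 * r.ks.length))
      { r with
        rho := cs (q.drop (7 * r.ks.length)), Z := [],
        Y := bs (y * (bval hd + 2 ^ hd.length * (2 ^ (7 * r.ks.length + r.ks.length) +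
          bval (q.take (7 * r.ks.length))))).bits } := by
  have h1 := RND_spec q hd r hrho hZ ht1
  set k := r.ks.length with hk
  set r1 : Rec := { r with
    rho := cs (q.drop (7 * k)), Z := bs (hd ++ padTake (7 * k) q).reverse } with hr1
  have h2 := fillZ (a := .ks) (by decide) (by decide) false 1 (hd ++ padTake (7 * k) q) r1 rfl ht1
  have hk1 : (get .ks r1).length = k := rfl
  rw [hk1, one_mul] at h2
  set w := hd ++ padTake (7 * k) q ++ List.replicate k false with hw
  set r2 : Rec := { r1 with Z := bs w.reverse } with hr2
  have h3 := MUL_spec y w r2 hy rfl hY hA ht1 ht2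
  have hwl : w.length = hd.length + 8 * k := by
    rw [hw]
    simp only [List.length_append, List.length_replicate, padTake_length]
    ring
  rw [tail_val hd q k] at h3
  rw [hwl] at h3
  have h := h1.seq (h2.seq h3)
  refine h.mono ?_
  omega

lemma bval_bs_true (m : ℕ) (l : List Bool) : bval ([true] ++ List.replicate m false ++ l) =
    1 + 2 ^ (m + 1) * bval l := by
  rw [bval_append, bval_append, bval_replicate_false]
  simp [bval]

/-- a list number -/
def NUM (s : Bool) : P :=
  .seq (put .Z (.bit true)) (.seq (FILL false) (.seq (AF s) TAIL))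

lemma afW_length (s : Bool) (p u el k : ℕ) (x : List Bool) :
    (afW s p u el k x).length = 3 * p + 3 + 3 * u + x.length + el + 1 + k := by
  unfold afW
  have : (vsel s x).length = x.length := by cases s <;> simp [vsel]
  simp only [List.length_append, List.length_replicate, List.length_singleton, this]
  ring

lemma afW_val (s : Bool) (p u el k : ℕ) (x : List Bool) :
    bval (afW s p u el k x) = 8 ^ p + 8 ^ (p + 1 + u) * (if s then bval x else 0) := by
  unfold afW
  have h1 : bval (vsel s x) = if s then bval x else 0 := by
    cases s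
    · simp [vsel, bval_replicate_false]
    · simp [vsel]
  have e1 : bval ([true] : List Bool) = 1 := rfl
  have e2 : bval ([false] : List Bool) = 0 := rfl
  rw [bval_append, bval_append, bval_append, bval_append, bval_append, bval_append, bval_append,
    bval_append, bval_replicate_false, bval_replicate_false, bval_replicate_false,
    bval_replicate_false, h1, e1, e2]
  simp only [List.length_append, List.length_replicate, List.length_singleton, Nat.mul_zero,
    Nat.add_zero, Nat.zero_add, Nat.mul_one]
  rw [show (8 : ℕ) = 2 ^ 3 by norm_num, ← pow_mul, ← pow_mul]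
  congr 3
  ring

/-- time of a list number -/
def tNum (n k L : ℕ) : ℕ := 100 * (n + k + 1) + tMul L (8 * n + 10 * k + 2)

lemma NUM_spec (s : Bool) (y n k p u el : ℕ) (q x : List Bool) (r : Rec) (hy : 1 ≤ y)
    (hrho : r.rho = cs q) (hZ : r.Z = []) (hY : r.Y = bs y.bits) (hA : r.A = []) (ht1 : r.t1 = [])
    (ht2 : r.t2 = []) (hV : r.V = bs x.reverse) (hks : r.ks.length = k) (hnn : r.nn.length = n)
    (h1 : r.n1.length = p) (h2 : r.n2.length = u) (he : r.e.length = el) (hn : p + 1 + u = n)
    (hxe : x.length + el = n) :
    Does (NUM s) r (tNum n k y.bits.length)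
      { r with
        rho := cs (q.drop (7 * k)),
        Y := bs (y * ((1 + 2 ^ (4 * n + k + 1) * (8 ^ p + 8 ^ n * (if s then bval x else 0))) +
          (2 ^ (4 * n + k + 1)) ^ 2 * (2 ^ (7 * k + k) + bval (q.take (7 * k))))).bits } := by
  have g1 := putZ true [] r hZ
  set r1 : Rec := { r with Z := bs ([] ++ [true]).reverse } with hr1
  have g2 := FILL_spec false ([] ++ [true]) r1 rfl ht1
  have hnn1 : r1.nn.length = n := hnn
  have hks1 : r1.ks.length = k := hks
  rw [hnn1, hks1] at g2
  set w2 := ([] : List Bool) ++ [true] ++ List.replicate (4 * n + k) false with hw2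
  set r2 : Rec := { r1 with Z := bs w2.reverse } with hr2
  have g3 := AF_spec s x w2 r2 hV rfl ht1
  have e1 : r2.n1.length = p := h1
  have e2 : r2.n2.length = u := h2
  have e3 : r2.e.length = el := he
  have e4 : r2.ks.length = k := hks
  rw [e1, e2, e3, e4] at g3
  set w3 := w2 ++ afW s p u el k x with hw3
  set r3 : Rec := { r2 with Z := bs w3.reverse } with hr3
  have g4 := TAIL_spec y q w3 r3 hy hrho rfl hY hA ht1 ht2
  have e5 : r3.ks.length = k := hks
  rw [e5] at g4
  have hl3 : w3.length = 2 * (4 * n + k + 1) := by
    rw [hw3, hw2]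
    simp only [List.length_append, List.length_replicate, List.length_singleton, afW_length,
      List.length_nil]
    omega
  have hv3 : bval w3 = 1 + 2 ^ (4 * n + k + 1) * (8 ^ p + 8 ^ n * (if s then bval x else 0)) := by
    rw [hw3, hw2, List.nil_append, bval_bs_true, afW_val, hn]
  rw [hl3, hv3, mul_comm 2 (4 * n + k + 1), pow_mul] at g4
  have g := g1.seq (g2.seq (g3.seq g4))
  have e : ({ r3 with
      rho := cs (q.drop (7 * k)), Z := [],
      Y := bs (y * ((1 + 2 ^ (4 * n + k + 1) * (8 ^ p + 8 ^ n * (if s then bval x else 0))) +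
          (2 ^ (4 * n + k + 1)) ^ 2 * (2 ^ (7 * k + k) + bval (q.take (7 * k))))).bits } : Rec) =
      { r with
        rho := cs (q.drop (7 * k)),
        Y := bs (y * ((1 + 2 ^ (4 * n + k + 1) * (8 ^ p + 8 ^ n * (if s then bval x else 0))) +
          (2 ^ (4 * n + k + 1)) ^ 2 * (2 ^ (7 * k + k) + bval (q.take (7 * k))))).bits } := by
    cases r
    simp only at hZ
    subst hZ
    rfl
  rw [e] at g
  refine g.mono ?_
  unfold tNum
  rw [show (4 * n + k + 1) * 2 + 8 * k = 8 * n + 10 * k + 2 by ring]
  omega

/-- a dummy number -/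
def NUMZ : P :=
  .seq (put .Z (.bit true)) (.seq (FILL false) (.seq (put .Z (.bit false)) (.seq (FILL false) TAIL)))

lemma NUMZ_spec (y n k : ℕ) (q : List Bool) (r : Rec) (hy : 1 ≤ y)
    (hrho : r.rho = cs q) (hZ : r.Z = []) (hY : r.Y = bs y.bits) (hA : r.A = []) (ht1 : r.t1 = [])
    (ht2 : r.t2 = []) (hks : r.ks.length = k) (hnn : r.nn.length = n) :
    Does NUMZ r (tNum n k y.bits.length)
      { r with
        rho := cs (q.drop (7 * k)),
        Y := bs (y * (1 +
          (2 ^ (4 * n + k + 1)) ^ 2 * (2 ^ (7 * k + k) + bval (q.take (7 * k))))).bits } := by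
  have g1 := putZ true [] r hZ
  set r1 : Rec := { r with Z := bs ([] ++ [true]).reverse } with hr1
  have g2 := FILL_spec false ([] ++ [true]) r1 rfl ht1
  have hnn1 : r1.nn.length = n := hnn
  have hks1 : r1.ks.length = k := hks
  rw [hnn1, hks1] at g2
  set w2 := ([] : List Bool) ++ [true] ++ List.replicate (4 * n + k) false with hw2
  set r2 : Rec := { r1 with Z := bs w2.reverse } with hr2
  have g3 := putZ false w2 r2 rfl
  set r2' : Rec := { r2 with Z := bs (w2 ++ [false]).reverse } with hr2'
  have g3' := FILL_spec false (w2 ++ [false]) r2' rfl ht1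
  have hnn2 : r2'.nn.length = n := hnn
  have hks2 : r2'.ks.length = k := hks
  rw [hnn2, hks2] at g3'
  set w3 := w2 ++ [false] ++ List.replicate (4 * n + k) false with hw3
  set r3 : Rec := { r2' with Z := bs w3.reverse } with hr3
  have g4 := TAIL_spec y q w3 r3 hy hrho rfl hY hA ht1 ht2
  have e5 : r3.ks.length = k := hks
  rw [e5] at g4
  have hl3 : w3.length = 2 * (4 * n + k + 1) := by
    rw [hw3, hw2]
    simp only [List.length_append, List.length_replicate, List.length_singleton,
      List.length_nil]
    ring
  have hv3 : bval w3 = 1 := by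
    rw [hw3, hw2, List.nil_append, List.append_assoc, bval_bs_true, bval_append,
      bval_replicate_false]
    simp [bval]
  rw [hl3, hv3, mul_comm 2 (4 * n + k + 1), pow_mul] at g4
  have g := g1.seq (g2.seq (g3.seq (g3'.seq g4)))
  have e : ({ r3 with
      rho := cs (q.drop (7 * k)), Z := [],
      Y := bs (y * (1 +
          (2 ^ (4 * n + k + 1)) ^ 2 * (2 ^ (7 * k + k) + bval (q.take (7 * k))))).bits } : Rec) =
      { r with
        rho := cs (q.drop (7 * k)),
        Y := bs (y * (1 +
          (2 ^ (4 * n + k + 1)) ^ 2 * (2 ^ (7 * k + k) + bval (q.take (7 * k))))).bits } := by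
    cases r
    simp only at hZ
    subst hZ
    rfl
  rw [e] at g
  refine g.mono ?_
  unfold tNum
  rw [show (4 * n + k + 1) * 2 + 8 * k = 8 * n + 10 * k + 2 by ring]
  omega

/-- push the complemented symbol -/
def putf (b : Stk) : P := .ite (fun v => isOne v.1) (put b (.bit false)) (put b (.bit true))

/-- move a bit string from `a` (top = last bit) to `Z`, complemented, in the original order -/
def FLIP (a : Stk) : P := .seq (mv a .t1) (each .t1 (putf .Z))

lemma FLIP_loop : ∀ (x w : List Bool) (r : Rec), r.t1 = bs x → r.Z = bs w.reverse →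
    Does (each .t1 (putf .Z)) r (3 * x.length + 1)
      { r with t1 := [], Z := bs (w ++ x.map not).reverse } := by
  intro x
  induction x with
  | nil =>
    intro w r h1 h2
    have e : ({ r with t1 := [], Z := bs (w ++ ([] : List Bool).map not).reverse } : Rec) = r := by
      cases r
      simp only at h1 h2
      subst h1 h2
      simp
    rw [e]
    exact each_nil (show get .t1 r = [] from h1)
  | cons b x ih =>
    intro w r h1 h2
    have hs : DoesC (Sym.bit b) (putf .Z) (set .t1 (bs x) r) (1 + 1)
        { r with t1 := bs x, Z := bs (w ++ [!b]).reverse } := by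
      have hput : ∀ c : Bool, Does (put .Z (.bit c)) (set .t1 (bs x) r) 1
          { r with t1 := bs x, Z := bs (w ++ [c]).reverse } := fun c => by
        have := putZ c w (set .t1 (bs x) r) h2
        exact this
      cases b with
      | true => exact ite_true (f := isOne) rfl (hput false).toC
      | false => exact ite_false (f := isOne) rfl (hput true).toC
    have h4 := ih (w ++ [!b]) { r with t1 := bs x, Z := bs (w ++ [!b]).reverse } rfl rfl
    have h5 := each_cons (show get .t1 r = Sym.bit b :: bs x from h1) hs h4
    have e : ({ ({ r with t1 := bs x, Z := bs (w ++ [!b]).reverse } : Rec) with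
        t1 := [], Z := bs (w ++ [!b] ++ x.map not).reverse } : Rec) =
        { r with t1 := [], Z := bs (w ++ (b :: x).map not).reverse } := by
      simp
    rw [e] at h5
    refine h5.mono ?_
    simp only [List.length_cons]
    omega

lemma FLIP_spec {a : Stk} (ha1 : a ≠ .t1) (x w : List Bool) (r : Rec) (hV : get a r = bs x.reverse)
    (haZ : get .Z (set a [] r) = bs w.reverse) (ht1 : get .t1 (set a [] r) = []) :
    Does (FLIP a) r (5 * x.length + 2)
      { set a [] r with t1 := [], Z := bs (w ++ x.map not).reverse } := by
  have h1 := mv_spec ha1 (bs x.reverse) r hV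
  have e1 : set a [] (set .t1 ((bs x.reverse).reverse ++ get .t1 r) r) =
      { set a [] r with t1 := bs x } := by
    have : (bs x.reverse).reverse ++ get .t1 r = bs x := by
      rw [bs_reverse, List.reverse_reverse]
      rw [get_set_ne ha1.symm] at ht1
      rw [ht1, List.append_nil]
    rw [this, set_comm ha1]
    rfl
  rw [e1] at h1
  have h2 := FLIP_loop x w { set a [] r with t1 := bs x } rfl haZ
  have h3 := h1.seq h2
  refine h3.mono ?_
  rw [bs_length, List.length_reverse]
  omega

end Pool.Agent.H44
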