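import Pool.Agent.H44.EFNum2

set_option autoImplicit false

namespace Pool.Agent.H44

open Pool.Agent.StackProg

/-- the special number -/
def NUMS : P :=
  .seq (put .Z (.bit true)) (.seq (FILL true) (.seq (FLIP .TD) (.seq (FLIP .V)
    (.seq (fill .e .t1 .Z (.bit true) 1) (.seq (put .Z (.bit true))
    (.seq (fill .ks .t1 .Z (.bit true) 1) TAIL))))))

/-- the word of the special number -/
def spW (n k el : ℕ) (d x : List Bool) : List Bool :=
  ([] : List Bool) ++ [true] ++ List.replicate (4 * n + k) true ++ d.map not ++ x.map not ++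
    List.replicate el true ++ [true] ++ List.replicate k true

lemma spW_length (n k el : ℕ) (d x : List Bool) :
    (spW n k el d x).length = 5 * n + 0 + 2 * k + 2 + d.length + x.length + el - n := by
  unfold spW
  simp only [List.length_append, List.length_replicate, List.length_singleton, List.length_map,
    List.length_nil]
  omega

lemma spW_val (n k el : ℕ) (d x : List Bool) (hd : d.length = 3 * n) (hx : x.length + el = n) :
    bval (spW n k el d x) = (2 ^ (4 * n + k + 1)) ^ 2 - 1 -
      2 ^ (4 * n + k + 1) * (bval d + 8 ^ n * bval x) := by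
  have e1 : spW n k el d x = List.replicate (4 * n + k + 1) true ++
      (d ++ x ++ List.replicate (el + 1 + k) false).map not := by
    unfold spW
    simp only [List.nil_append, List.map_append, List.map_replicate, Bool.not_false]
    rw [show List.replicate (4 * n + k + 1) true = [true] ++ List.replicate (4 * n + k) true by
      rw [List.replicate_succ]; rfl]
    rw [List.replicate_add (el + 1) k, List.replicate_succ' ]
    simp only [List.append_assoc]
  rw [e1, bval_append, bval_replicate_true, List.length_replicate]
  have h1 := bval_not (d ++ x ++ List.replicate (el + 1 + k) false)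
  have hlen : (d ++ x ++ List.replicate (el + 1 + k) false).length = 4 * n + k + 1 := by
    simp only [List.length_append, List.length_replicate]
    omega
  rw [hlen] at h1
  have h2 : bval (d ++ x ++ List.replicate (el + 1 + k) false) = bval d + 8 ^ n * bval x := by
    rw [bval_append, bval_append, bval_replicate_false, hd, pow_mul]
    norm_num
  rw [h2] at h1
  set M := 2 ^ (4 * n + k + 1) with hM
  set T := bval d + 8 ^ n * bval x with hT
  set N := bval ((d ++ x ++ List.replicate (el + 1 + k) false).map not) with hN
  have hM1 : 1 ≤ M := Nat.one_le_two_pow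
  have h3 : M * (N + T + 1) = M ^ 2 := by rw [h1]; ring
  have h4 : M * (N + T + 1) = M * N + M * T + M := by ring
  omega

lemma NUMS_spec (y n k el : ℕ) (q d x : List Bool) (r : Rec) (hy : 1 ≤ y)
    (hrho : r.rho = cs q) (hZ : r.Z = []) (hY : r.Y = bs y.bits) (hA : r.A = []) (ht1 : r.t1 = [])
    (ht2 : r.t2 = []) (hV : r.V = bs x.reverse) (hTD : r.TD = bs d.reverse)
    (hks : r.ks.length = k) (hnn : r.nn.length = n)
    (he : r.e.length = el) (hd : d.length = 3 * n) (hxe : x.length + el = n) :
    Does NUMS r (tNum n k y.bits.length)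
      { r with
        rho := cs (q.drop (7 * k)), V := [], TD := [],
        Y := bs (y * (((2 ^ (4 * n + k + 1)) ^ 2 - 1 -
          2 ^ (4 * n + k + 1) * (bval d + 8 ^ n * bval x)) +
          (2 ^ (4 * n + k + 1)) ^ 2 * (2 ^ (7 * k + k) + bval (q.take (7 * k))))).bits } := by
  have g1 := putZ true [] r hZ
  set r1 : Rec := { r with Z := bs ([] ++ [true]).reverse } with hr1
  have g2 := FILL_spec true ([] ++ [true]) r1 rfl ht1
  have hnn1 : r1.nn.length = n := hnn
  have hks1 : r1.ks.length = k := hks
  rw [hnn1, hks1] at g2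
  set w2 := ([] : List Bool) ++ [true] ++ List.replicate (4 * n + k) true with hw2
  set r2 : Rec := { r1 with Z := bs w2.reverse } with hr2
  have g3 := FLIP_spec (a := .TD) (by decide) d w2 r2 hTD rfl ht1
  set w3 := w2 ++ d.map not with hw3
  set r3 : Rec := { set .TD [] r2 with t1 := [], Z := bs w3.reverse } with hr3
  have g4 := FLIP_spec (a := .V) (by decide) x w3 r3 hV rfl rfl
  set w4 := w3 ++ x.map not with hw4
  set r4 : Rec := { set .V [] r3 with t1 := [], Z := bs w4.reverse } with hr4
  have g5 := fillZ (a := .e) (by decide) (by decide) true 1 w4 r4 rfl rfl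
  have e5 : (get .e r4).length = el := he
  rw [e5, one_mul] at g5
  set w5 := w4 ++ List.replicate el true with hw5
  set r5 : Rec := { r4 with Z := bs w5.reverse } with hr5
  have g6 := putZ true w5 r5 rfl
  set w6 := w5 ++ [true] with hw6
  set r6 : Rec := { r5 with Z := bs w6.reverse } with hr6
  have g7 := fillZ (a := .ks) (by decide) (by decide) true 1 w6 r6 rfl rfl
  have e7 : (get .ks r6).length = k := hks
  rw [e7, one_mul] at g7
  set w7 := w6 ++ List.replicate k true with hw7
  set r7 : Rec := { r6 with Z := bs w7.reverse } with hr7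
  have g8 := TAIL_spec y q w7 r7 hy hrho rfl hY hA rfl ht2
  have e8 : r7.ks.length = k := hks
  rw [e8] at g8
  have hwsp : w7 = spW n k el d x := rfl
  have hl3 : w7.length = 2 * (4 * n + k + 1) := by
    rw [hwsp, spW_length]
    omega
  rw [hl3, hwsp, spW_val n k el d x hd hxe, mul_comm 2 (4 * n + k + 1), pow_mul] at g8
  have g := g1.seq (g2.seq (g3.seq (g4.seq (g5.seq (g6.seq (g7.seq g8))))))
  have e : ({ r7 with
        rho := cs (q.drop (7 * k)), Z := [],
        Y := bs (y * (((2 ^ (4 * n + k + 1)) ^ 2 - 1 -
          2 ^ (4 * n + k + 1) * (bval d + 8 ^ n * bval x)) +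
          (2 ^ (4 * n + k + 1)) ^ 2 * (2 ^ (7 * k + k) + bval (q.take (7 * k))))).bits } : Rec) =
      { r with
        rho := cs (q.drop (7 * k)), V := [], TD := [],
        Y := bs (y * (((2 ^ (4 * n + k + 1)) ^ 2 - 1 -
          2 ^ (4 * n + k + 1) * (bval d + 8 ^ n * bval x)) +
          (2 ^ (4 * n + k + 1)) ^ 2 * (2 ^ (7 * k + k) + bval (q.take (7 * k))))).bits } := by
    cases r
    simp only at hZ ht1
    subst hZ ht1
    rfl
  rw [e] at g
  refine g.mono ?_
  unfold tNum
  rw [show (4 * n + k + 1) * 2 + 8 * k = 8 * n + 10 * k + 2 by ring]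
  omega

end Pool.Agent.H44
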