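import Pool.Agent.Lib.StackProg
import Pool.Agent.H44.EFDefs

set_option autoImplicit false

namespace Pool.Agent.H44

open Pool.Agent.StackProg

/-- stacks of the machine -/
inductive Stk
  | inp | out | F | rho | ks | n1 | n2 | e | V | TD | Z | A | Y | t1 | t2 | nn
  deriving DecidableEq

instance : Fintype Stk :=
  Fintype.ofList [.inp, .out, .F, .rho, .ks, .n1, .n2, .e, .V, .TD, .Z, .A, .Y, .t1, .t2, .nn]
    (by intro x; cases x <;> simp)

/-- stack contents as a record -/
structure Rec where
  inp : List Sym
  out : List Sym
  F : List Sym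
  rho : List Sym
  ks : List Sym
  n1 : List Sym
  n2 : List Sym
  e : List Sym
  V : List Sym
  TD : List Sym
  Z : List Sym
  A : List Sym
  Y : List Sym
  t1 : List Sym
  t2 : List Sym
  nn : List Sym

def get : Stk → Rec → List Sym
  | .inp, r => r.inp
  | .out, r => r.out
  | .F, r => r.F
  | .rho, r => r.rho
  | .ks, r => r.ks
  | .n1, r => r.n1
  | .n2, r => r.n2
  | .e, r => r.e
  | .V, r => r.V
  | .TD, r => r.TD
  | .Z, r => r.Z
  | .A, r => r.A
  | .Y, r => r.Y
  | .t1, r => r.t1
  | .t2, r => r.t2
  | .nn, r => r.nn

def set : Stk → List Sym → Rec → Rec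
  | .inp, l, r => { r with inp := l }
  | .out, l, r => { r with out := l }
  | .F, l, r => { r with F := l }
  | .rho, l, r => { r with rho := l }
  | .ks, l, r => { r with ks := l }
  | .n1, l, r => { r with n1 := l }
  | .n2, l, r => { r with n2 := l }
  | .e, l, r => { r with e := l }
  | .V, l, r => { r with V := l }
  | .TD, l, r => { r with TD := l }
  | .Z, l, r => { r with Z := l }
  | .A, l, r => { r with A := l }
  | .Y, l, r => { r with Y := l }
  | .t1, l, r => { r with t1 := l }
  | .t2, l, r => { r with t2 := l }
  | .nn, l, r => { r with nn := l }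

def fn (r : Rec) : Stk → List Sym := fun k => get k r

lemma get_set_same (k : Stk) (l : List Sym) (r : Rec) : get k (set k l r) = l := by
  cases k <;> rfl

lemma get_set_ne {a b : Stk} (h : a ≠ b) (l : List Sym) (r : Rec) :
    get a (set b l r) = get a r := by
  cases a <;> cases b <;> first | rfl | exact absurd rfl h

lemma set_set_same (k : Stk) (l l' : List Sym) (r : Rec) : set k l (set k l' r) = set k l r := by
  cases k <;> rfl

lemma set_get (k : Stk) (r : Rec) : set k (get k r) r = r := by
  cases k <;> rfl

lemma set_comm {a b : Stk} (h : a ≠ b) (l l' : List Sym) (r : Rec) :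
    set a l (set b l' r) = set b l' (set a l r) := by
  cases a <;> cases b <;> first | rfl | exact absurd rfl h

lemma update_fn (r : Rec) (k : Stk) (l : List Sym) :
    Function.update (fn r) k l = fn (set k l r) := by
  funext j
  by_cases hj : j = k
  · subst hj
    rw [Function.update_self]
    exact (get_set_same j l r).symm
  · rw [Function.update_of_ne hj]
    exact (get_set_ne hj l r).symm

abbrev P := Prog Stk Sym (Sym × Bool)

/-- register-agnostic specification -/
def Does (p : P) (r : Rec) (T : ℕ) (r' : Rec) : Prop :=
  ∀ v, ∃ v' t, t ≤ T ∧ Exec p (v, fn r) t (v', fn r')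

/-- specification with known current symbol -/
def DoesC (c : Sym) (p : P) (r : Rec) (T : ℕ) (r' : Rec) : Prop :=
  ∀ cy, ∃ v' t, t ≤ T ∧ Exec p ((c, cy), fn r) t (v', fn r')

lemma Does.mono {p : P} {r r' : Rec} {T T' : ℕ} (h : Does p r T r') (hT : T ≤ T') :
    Does p r T' r' := by
  intro v
  obtain ⟨v', t, ht, he⟩ := h v
  exact ⟨v', t, ht.trans hT, he⟩

lemma DoesC.mono {c : Sym} {p : P} {r r' : Rec} {T T' : ℕ} (h : DoesC c p r T r') (hT : T ≤ T') :
    DoesC c p r T' r' := by
  intro v
  obtain ⟨v', t, ht, he⟩ := h v
  exact ⟨v', t, ht.trans hT, he⟩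

lemma Does.toC {c : Sym} {p : P} {r r' : Rec} {T : ℕ} (h : Does p r T r') : DoesC c p r T r' :=
  fun cy => h (c, cy)

lemma Does.skip (r : Rec) : Does .skip r 1 r := fun v => ⟨v, 1, le_rfl, Exec.skip _⟩

lemma Does.seq {p q : P} {r r' r'' : Rec} {T T' : ℕ} (h : Does p r T r') (h' : Does q r' T' r'') :
    Does (.seq p q) r (T + T') r'' := by
  intro v
  obtain ⟨v', t, ht, he⟩ := h v
  obtain ⟨v'', t', ht', he'⟩ := h' v'
  exact ⟨v'', t + t', by omega, Exec.seq he he'⟩

lemma DoesC.seq {c : Sym} {p q : P} {r r' r'' : Rec} {T T' : ℕ} (h : DoesC c p r T r')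
    (h' : Does q r' T' r'') : DoesC c (.seq p q) r (T + T') r'' := by
  intro v
  obtain ⟨v', t, ht, he⟩ := h v
  obtain ⟨v'', t', ht', he'⟩ := h' v'
  exact ⟨v'', t + t', by omega, Exec.seq he he'⟩

/-- push a constant -/
def put (k : Stk) (s : Sym) : P := .push k (fun _ => s)
/-- push the current symbol -/
def putc (k : Stk) : P := .push k (fun v => v.1)
/-- discard the top symbol -/
def drop1 (k : Stk) : P := .pop k (fun v _ => v)
/-- loop over the symbols of a stack -/
def each (k : Stk) (body : P) : P := .loop k (fun v c => (c, v.2)) body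

lemma put_spec (k : Stk) (s : Sym) (r : Rec) : Does (put k s) r 1 (set k (s :: get k r) r) := by
  intro v
  refine ⟨v, 1, le_rfl, ?_⟩
  have := Exec.push (σ := Sym × Bool) k (fun _ => s) v (fn r)
  rw [update_fn] at this
  exact this

lemma putc_spec (c : Sym) (k : Stk) (r : Rec) : DoesC c (putc k) r 1 (set k (c :: get k r) r) := by
  intro cy
  refine ⟨(c, cy), 1, le_rfl, ?_⟩
  have := Exec.push (σ := Sym × Bool) k (fun v => v.1) (c, cy) (fn r)
  rw [update_fn] at this
  exact this

lemma drop_spec (k : Stk) (r : Rec) : Does (drop1 k) r 1 (set k (get k r).tail r) := by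
  intro v
  refine ⟨v, 1, le_rfl, ?_⟩
  have := Exec.pop (σ := Sym × Bool) k (fun v _ => v) v (fn r)
  rw [update_fn] at this
  exact this

/-- preserving operations first, then the rest still knows the current symbol -/
lemma putc_seq {c : Sym} {k : Stk} {q : P} {r r' : Rec} {T : ℕ}
    (h : DoesC c q (set k (c :: get k r) r) T r') : DoesC c (.seq (putc k) q) r (1 + T) r' := by
  intro cy
  obtain ⟨v', t, ht, he⟩ := h cy
  have := Exec.push (σ := Sym × Bool) k (fun v => v.1) (c, cy) (fn r)
  rw [update_fn] at this
  exact ⟨v', 1 + t, by omega, Exec.seq this he⟩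

lemma put_seq {c : Sym} {k : Stk} {s : Sym} {q : P} {r r' : Rec} {T : ℕ}
    (h : DoesC c q (set k (s :: get k r) r) T r') : DoesC c (.seq (put k s) q) r (1 + T) r' := by
  intro cy
  obtain ⟨v', t, ht, he⟩ := h cy
  have := Exec.push (σ := Sym × Bool) k (fun _ => s) (c, cy) (fn r)
  rw [update_fn] at this
  exact ⟨v', 1 + t, by omega, Exec.seq this he⟩

lemma drop_seq {c : Sym} {k : Stk} {q : P} {r r' : Rec} {T : ℕ}
    (h : DoesC c q (set k (get k r).tail r) T r') : DoesC c (.seq (drop1 k) q) r (1 + T) r' := by
  intro cy
  obtain ⟨v', t, ht, he⟩ := h cy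
  have := Exec.pop (σ := Sym × Bool) k (fun v _ => v) (c, cy) (fn r)
  rw [update_fn] at this
  exact ⟨v', 1 + t, by omega, Exec.seq this he⟩

lemma ite_true {c : Sym} {f : Sym → Bool} {p q : P} {r r' : Rec} {T : ℕ} (hf : f c = true)
    (h : DoesC c p r T r') : DoesC c (.ite (fun v => f v.1) p q) r (1 + T) r' := by
  intro cy
  obtain ⟨v', t, ht, he⟩ := h cy
  exact ⟨v', 1 + t, by omega, Exec.iteT hf he⟩

lemma ite_false {c : Sym} {f : Sym → Bool} {p q : P} {r r' : Rec} {T : ℕ} (hf : f c = false)
    (h : DoesC c q r T r') : DoesC c (.ite (fun v => f v.1) p q) r (1 + T) r' := by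
  intro cy
  obtain ⟨v', t, ht, he⟩ := h cy
  exact ⟨v', 1 + t, by omega, Exec.iteF hf he⟩

lemma each_nil {k : Stk} {body : P} {r : Rec} (h : get k r = []) : Does (each k body) r 1 r := by
  intro v
  exact ⟨v, 1, le_rfl, Exec.loopNil h⟩

lemma each_cons {k : Stk} {body : P} {r r1 r2 : Rec} {c : Sym} {l : List Sym} {T1 T2 : ℕ}
    (h : get k r = c :: l) (h1 : DoesC c body (set k l r) T1 r1) (h2 : Does (each k body) r1 T2 r2) :
    Does (each k body) r (1 + T1 + T2) r2 := by
  intro v
  obtain ⟨v1, t1, ht1, he1⟩ := h1 v.2
  obtain ⟨v2, t2, ht2, he2⟩ := h2 v1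
  refine ⟨v2, 1 + t1 + t2, by omega, Exec.loopCons h ?_ he2⟩
  rw [update_fn]
  exact he1

/-- move (reversing) -/
def mv (a b : Stk) : P := each a (putc b)

lemma mv_spec {a b : Stk} (hab : a ≠ b) : ∀ (l : List Sym) (r : Rec), get a r = l →
    Does (mv a b) r (2 * l.length + 1) (set a [] (set b (l.reverse ++ get b r) r)) := by
  intro l
  induction l with
  | nil =>
    intro r h
    have : set a [] (set b ([].reverse ++ get b r) r) = r := by
      rw [List.reverse_nil, List.nil_append, set_get, ← h, set_get]
    rw [this]
    exact each_nil h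
  | cons c l ih =>
    intro r h
    have h1 := putc_spec c b (set a l r)
    have h2 := ih (set b (c :: get b (set a l r)) (set a l r)) (by
      rw [get_set_ne hab, get_set_same])
    have h3 := each_cons h h1 h2
    have e : set a [] (set b (l.reverse ++ get b (set b (c :: get b (set a l r)) (set a l r)))
        (set b (c :: get b (set a l r)) (set a l r))) =
        set a [] (set b ((c :: l).reverse ++ get b r) r) := by
      rw [get_set_same, get_set_ne hab.symm, set_set_same, set_comm hab.symm, set_set_same]
      simp
    rw [e] at h3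
    refine h3.mono ?_
    simp only [List.length_cons]; omega

/-- clear a stack -/
def clr (a : Stk) : P := each a .skip

lemma clr_spec {a : Stk} : ∀ (l : List Sym) (r : Rec), get a r = l →
    Does (clr a) r (2 * l.length + 1) (set a [] r) := by
  intro l
  induction l with
  | nil =>
    intro r h
    have : set a [] r = r := by rw [← h, set_get]
    rw [this]
    exact each_nil h
  | cons c l ih =>
    intro r h
    have h1 : DoesC c (.skip : P) (set a l r) 1 (set a l r) := (Does.skip _).toC
    have h2 := ih (set a l r) (get_set_same _ _ _)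
    have h3 := each_cons h h1 h2
    rw [set_set_same] at h3
    refine h3.mono ?_
    simp only [List.length_cons]; omega

/-- several pushes of a constant -/
def puts (k : Stk) (s : Sym) : ℕ → P
  | 0 => .skip
  | n + 1 => .seq (put k s) (puts k s n)

lemma puts_spec (k : Stk) (s : Sym) : ∀ (n : ℕ) (r : Rec),
    Does (puts k s n) r (n + 1) (set k (List.replicate n s ++ get k r) r) := by
  intro n
  induction n with
  | zero =>
    intro r
    have : set k (List.replicate 0 s ++ get k r) r = r := by
      rw [List.replicate_zero, List.nil_append, set_get]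
    rw [this]
    exact Does.skip r
  | succ n ih =>
    intro r
    have h1 := put_spec k s r
    have h2 := ih (set k (s :: get k r) r)
    have h3 := h1.seq h2
    rw [get_set_same, set_set_same] at h3
    have e : List.replicate n s ++ s :: get k r = List.replicate (n + 1) s ++ get k r := by
      rw [List.replicate_succ']
      simp
    rw [e] at h3
    exact h3.mono (by omega)

/-- for each symbol of `a` (restored at the end, using `t`), push `m` copies of `s` on `z` -/
def fill (a t z : Stk) (s : Sym) (m : ℕ) : P :=
  .seq (each a (.seq (putc t) (puts z s m))) (mv t a)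

lemma fill_loop {a t z : Stk} (hat : a ≠ t) (haz : a ≠ z) (htz : t ≠ z) (s : Sym) (m : ℕ) :
    ∀ (l : List Sym) (r : Rec), get a r = l →
    Does (each a (.seq (putc t) (puts z s m))) r ((m + 3) * l.length + 1)
      (set a [] (set t (l.reverse ++ get t r) (set z (List.replicate (m * l.length) s ++ get z r) r))) := by
  intro l
  induction l with
  | nil =>
    intro r h
    have : set a [] (set t (([] : List Sym).reverse ++ get t r)
        (set z (List.replicate (m * ([] : List Sym).length) s ++ get z r) r)) = r := by
      simp only [List.reverse_nil, List.nil_append, List.length_nil, Nat.mul_zero,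
        List.replicate_zero]
      rw [set_get, set_get, ← h, set_get]
    rw [this]
    exact (each_nil h).mono (by omega)
  | cons c l ih =>
    intro r h
    have h1 : DoesC c (.seq (putc t) (puts z s m)) (set a l r) (1 + (m + 1)) _ :=
      putc_seq (puts_spec z s m _).toC
    have h2 := ih _ (show get a (set z (List.replicate m s ++
      get z (set t (c :: get t (set a l r)) (set a l r))) (set t (c :: get t (set a l r)) (set a l r))) = l by
        rw [get_set_ne haz, get_set_ne hat, get_set_same])
    have h3 := each_cons h h1 h2
    have e : set a [] (set t (l.reverse ++ get t (set z (List.replicate m s ++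
        get z (set t (c :: get t (set a l r)) (set a l r))) (set t (c :: get t (set a l r)) (set a l r))))
        (set z (List.replicate (m * l.length) s ++ get z (set z (List.replicate m s ++
        get z (set t (c :: get t (set a l r)) (set a l r))) (set t (c :: get t (set a l r)) (set a l r))))
        (set z (List.replicate m s ++
        get z (set t (c :: get t (set a l r)) (set a l r))) (set t (c :: get t (set a l r)) (set a l r)))))
        = set a [] (set t ((c :: l).reverse ++ get t r)
          (set z (List.replicate (m * (c :: l).length) s ++ get z r) r)) := by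
      rw [set_set_same, get_set_same, get_set_ne htz, get_set_same, get_set_ne htz.symm,
        get_set_ne haz.symm, get_set_ne hat.symm]
      rw [set_comm htz.symm, set_set_same, set_comm haz.symm, set_comm hat.symm, set_set_same]
      have e1 : List.replicate (m * l.length) s ++ (List.replicate m s ++ get z r) =
          List.replicate (m * (c :: l).length) s ++ get z r := by
        rw [← List.append_assoc, ← List.replicate_add]
        congr 2
      have e2 : l.reverse ++ c :: get t r = (c :: l).reverse ++ get t r := by simp
      rw [e1, e2]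
    rw [e] at h3
    refine h3.mono ?_
    simp only [List.length_cons]
    ring_nf
    omega

lemma fill_spec {a t z : Stk} (hat : a ≠ t) (haz : a ≠ z) (htz : t ≠ z) (s : Sym) (m : ℕ)
    (r : Rec) (ht : get t r = []) :
    Does (fill a t z s m) r ((m + 5) * (get a r).length + 2)
      (set z (List.replicate (m * (get a r).length) s ++ get z r) r) := by
  set l := get a r with hl
  have h1 := fill_loop hat haz htz s m l r hl.symm
  have h2 := mv_spec hat.symm l.reverse (set a [] (set t (l.reverse ++ get t r)
    (set z (List.replicate (m * l.length) s ++ get z r) r))) (by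
      rw [get_set_ne hat.symm, get_set_same, ht, List.append_nil])
  have h3 := h1.seq h2
  have e : set t [] (set a (l.reverse.reverse ++ get a (set a [] (set t (l.reverse ++ get t r)
      (set z (List.replicate (m * l.length) s ++ get z r) r)))) (set a [] (set t (l.reverse ++ get t r)
      (set z (List.replicate (m * l.length) s ++ get z r) r)))) =
      set z (List.replicate (m * l.length) s ++ get z r) r := by
    rw [get_set_same, set_set_same, List.reverse_reverse, List.append_nil, set_comm hat.symm,
      set_set_same]
    rw [set_comm htz, ← ht, set_get, set_comm haz, hl, set_get]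
  rw [e] at h3
  refine h3.mono ?_
  rw [List.length_reverse]
  ring_nf
  omega

end Pool.Agent.H44
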