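import Pool.Agent.H44.EFCount

set_option autoImplicit false

namespace Pool.Agent.H44

open Finset

lemma rig1 {m K C x x' : ℕ} (hK : Nat.Coprime m K) (h : m ∣ K * x + C) (h' : m ∣ K * x' + C) :
    (m : ℤ) ∣ (x : ℤ) ^ 2 - (x' : ℤ) ^ 2 := by
  have h1 : (m : ℤ) ∣ (K : ℤ) * x + C := by exact_mod_cast h
  have h2 : (m : ℤ) ∣ (K : ℤ) * x' + C := by exact_mod_cast h'
  have h3 := dvd_sub h1 h2
  rw [show ((K : ℤ) * x + C) - ((K : ℤ) * x' + C) = K * ((x : ℤ) - x') by ring] at h3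
  have hc : IsCoprime (m : ℤ) (K : ℤ) := Nat.isCoprime_iff_coprime.2 hK
  have h4 := hc.dvd_of_dvd_mul_left h3
  rw [show (x : ℤ) ^ 2 - (x' : ℤ) ^ 2 = ((x : ℤ) - x') * (x + x') by ring]
  exact h4.mul_right _

lemma rig2 {m K C x x' : ℕ} (hK : Nat.Coprime m K) (h : m ∣ K * x ^ 2 + C)
    (h' : m ∣ K * x' ^ 2 + C) :
    (m : ℤ) ∣ (x : ℤ) ^ 2 - (x' : ℤ) ^ 2 := by
  have h1 : (m : ℤ) ∣ (K : ℤ) * x ^ 2 + C := by exact_mod_cast h
  have h2 : (m : ℤ) ∣ (K : ℤ) * x' ^ 2 + C := by exact_mod_cast h'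
  have h3 := dvd_sub h1 h2
  rw [show ((K : ℤ) * x ^ 2 + C) - ((K : ℤ) * x' ^ 2 + C) = K * ((x : ℤ) ^ 2 - x' ^ 2) by ring] at h3
  have hc : IsCoprime (m : ℤ) (K : ℤ) := Nat.isCoprime_iff_coprime.2 hK
  exact hc.dvd_of_dvd_mul_left h3

variable {ι : Type} [Fintype ι] [DecidableEq ι]

/-- the congruence condition on the small parts -/
def GG (κ : ℕ) (c : ι → ℕ) (w : ι → Fin 3) (v : ι × Bool → ℕ) : Prop :=
  (2 ^ κ) ^ 2 ∣ ∏ j, Uf (w j) (v (j, false)) (v (j, true)) (c j) +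
    ∏ j, Vf (w j) (v (j, false)) (v (j, true)) (c j)

lemma Uf_odd {w : Fin 3} {a b c : ℕ} (ha : Odd a) (hb : Odd b) (hc : Odd c) : Odd (Uf w a b c) := by
  fin_cases w
  · simpa [Uf] using ha
  · simpa [Uf] using hc
  · simpa [Uf] using ha.pow.mul hb

lemma Vf_odd {w : Fin 3} {a b c : ℕ} (ha : Odd a) (hb : Odd b) (hc : Odd c) : Odd (Vf w a b c) := by
  fin_cases w
  · simpa [Vf] using hb
  · simpa [Vf] using ha.pow.mul hb
  · simpa [Vf] using hc

lemma coprime_two_pow_sq {κ n : ℕ} (hn : Odd n) : Nat.Coprime ((2 ^ κ) ^ 2) n :=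
  Nat.Coprime.pow_left _ (Nat.Coprime.pow_left _ (Nat.coprime_two_left.2 hn))

lemma rigid {κ : ℕ} {c : ι → ℕ} (hco : ∀ j, Odd (c j)) {w : ι → Fin 3} {v : ι × Bool → ℕ}
    (hv : ∀ i, Odd (v i)) (i0 : ι × Bool) {x x' : ℕ}
    (h : GG κ c w (Function.update v i0 x)) (h' : GG κ c w (Function.update v i0 x')) :
    (((2 ^ κ) ^ 2 : ℕ) : ℤ) ∣ (x : ℤ) ^ 2 - (x' : ℤ) ^ 2 := by
  obtain ⟨j0, s0⟩ := i0
  have key : ∀ y : ℕ, GG κ c w (Function.update v (j0, s0) y) → (2 ^ κ) ^ 2 ∣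
      Uf (w j0) (Function.update v (j0, s0) y (j0, false))
          (Function.update v (j0, s0) y (j0, true)) (c j0) *
        (∏ j : {j // j ≠ j0}, Uf (w j.1) (v (j.1, false)) (v (j.1, true)) (c j.1)) +
      Vf (w j0) (Function.update v (j0, s0) y (j0, false))
          (Function.update v (j0, s0) y (j0, true)) (c j0) *
        (∏ j : {j // j ≠ j0}, Vf (w j.1) (v (j.1, false)) (v (j.1, true)) (c j.1)) := by
    intro y hy
    unfold GG at hy
    rw [Fintype.prod_eq_mul_prod_subtype_ne _ j0,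
      Fintype.prod_eq_mul_prod_subtype_ne
        (fun j => Vf (w j) (Function.update v (j0, s0) y (j, false))
          (Function.update v (j0, s0) y (j, true)) (c j)) j0] at hy
    have e : ∀ (j : {j // j ≠ j0}) (s : Bool), Function.update v (j0, s0) y (j.1, s) = v (j.1, s) := by
      intro j s
      apply Function.update_of_ne
      intro hcon
      exact j.2 (congrArg Prod.fst hcon)
    simp only [e] at hy
    exact hy
  have k1 := key x h
  have k2 := key x' h'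
  set P := ∏ j : {j // j ≠ j0}, Uf (w j.1) (v (j.1, false)) (v (j.1, true)) (c j.1) with hP
  set Q := ∏ j : {j // j ≠ j0}, Vf (w j.1) (v (j.1, false)) (v (j.1, true)) (c j.1) with hQ
  have hPo : Odd P := odd_prod fun j => Uf_odd (hv _) (hv _) (hco _)
  have hQo : Odd Q := odd_prod fun j => Vf_odd (hv _) (hv _) (hco _)
  have hval : w j0 = 0 ∨ w j0 = 1 ∨ w j0 = 2 := by
    generalize w j0 = k
    fin_cases k <;> simp
  cases s0 with
  | false =>
    have ut : ∀ y, Function.update v (j0, false) y (j0, true) = v (j0, true) := by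
      intro y
      apply Function.update_of_ne
      simp
    simp only [Function.update_self, ut] at k1 k2
    set b := v (j0, true) with hb
    have hbo : Odd b := hv _
    rcases hval with h0 | h0 | h0
    · simp only [h0, Uf, Vf, if_true] at k1 k2
      refine rig1 (coprime_two_pow_sq hPo) (C := b * Q) ?_ ?_
      · rw [mul_comm P x]; exact k1
      · rw [mul_comm P x']; exact k2
    · simp only [h0, Uf, Vf, if_true, if_neg (show ¬ (1 : Fin 3) = 0 by decide)] at k1 k2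
      refine rig2 (coprime_two_pow_sq (hbo.mul hQo)) (C := c j0 * P) ?_ ?_
      · rw [show b * Q * x ^ 2 + c j0 * P = c j0 * P + x ^ 2 * b * Q by ring]; exact k1
      · rw [show b * Q * x' ^ 2 + c j0 * P = c j0 * P + x' ^ 2 * b * Q by ring]; exact k2
    · simp only [h0, Uf, Vf, if_neg (show ¬ (2 : Fin 3) = 0 by decide),
        if_neg (show ¬ (2 : Fin 3) = 1 by decide)] at k1 k2
      refine rig2 (coprime_two_pow_sq (hbo.mul hPo)) (C := c j0 * Q) ?_ ?_
      · rw [show b * P * x ^ 2 + c j0 * Q = x ^ 2 * b * P + c j0 * Q by ring]; exact k1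
      · rw [show b * P * x' ^ 2 + c j0 * Q = x' ^ 2 * b * P + c j0 * Q by ring]; exact k2
  | true =>
    have ut : ∀ y, Function.update v (j0, true) y (j0, false) = v (j0, false) := by
      intro y
      apply Function.update_of_ne
      simp
    simp only [Function.update_self, ut] at k1 k2
    set a := v (j0, false) with ha
    have hao : Odd a := hv _
    rcases hval with h0 | h0 | h0
    · simp only [h0, Uf, Vf, if_true] at k1 k2
      refine rig1 (coprime_two_pow_sq hQo) (C := a * P) ?_ ?_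
      · rw [show Q * x + a * P = a * P + x * Q by ring]; exact k1
      · rw [show Q * x' + a * P = a * P + x' * Q by ring]; exact k2
    · simp only [h0, Uf, Vf, if_true, if_neg (show ¬ (1 : Fin 3) = 0 by decide)] at k1 k2
      refine rig1 (coprime_two_pow_sq ((hao.pow (n := 2)).mul hQo)) (C := c j0 * P) ?_ ?_
      · rw [show a ^ 2 * Q * x + c j0 * P = c j0 * P + a ^ 2 * x * Q by ring]; exact k1
      · rw [show a ^ 2 * Q * x' + c j0 * P = c j0 * P + a ^ 2 * x' * Q by ring]; exact k2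
    · simp only [h0, Uf, Vf, if_neg (show ¬ (2 : Fin 3) = 0 by decide),
        if_neg (show ¬ (2 : Fin 3) = 1 by decide)] at k1 k2
      refine rig1 (coprime_two_pow_sq ((hao.pow (n := 2)).mul hPo)) (C := c j0 * Q) ?_ ?_
      · rw [show a ^ 2 * P * x + c j0 * Q = a ^ 2 * x * P + c j0 * Q by ring]; exact k1
      · rw [show a ^ 2 * P * x' + c j0 * Q = a ^ 2 * x' * P + c j0 * Q by ring]; exact k2

/-- admissible values of a small part -/
def SS (r : ℕ) : Finset ℕ := (Finset.Icc 1 (2 ^ r)).filter Odd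

lemma SS_sum_le (r : ℕ) : ∑ x ∈ SS r, (1 : ℚ) / x ≤ r + 1 := by
  refine le_trans ?_ (HH_pow_two r)
  apply Finset.sum_le_sum_of_subset_of_nonneg (Finset.filter_subset _ _)
  intro i _ _
  positivity

lemma class_bound {κ r z : ℕ} (hκ : 1 ≤ κ) (X : Finset ℕ) (hXS : X ⊆ SS r)
    (hXz : ∀ x ∈ X, 2 ^ z ≤ x)
    (hX : ∀ x ∈ X, ∀ x' ∈ X, (((2 ^ κ) ^ 2 : ℕ) : ℤ) ∣ (x : ℤ) ^ 2 - (x' : ℤ) ^ 2) :
    ∑ x ∈ X, (1 : ℚ) / x ≤ 2 * (1 / 2 ^ z + (r + 1) / 2 ^ (2 * κ - 1)) := by
  classical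
  have hnn : (0 : ℚ) ≤ 2 * (1 / 2 ^ z + (r + 1) / 2 ^ (2 * κ - 1)) := by positivity
  by_cases hne : X.Nonempty
  swap
  · rw [Finset.not_nonempty_iff_eq_empty] at hne
    subst hne
    simpa using hnn
  obtain ⟨x0, hx0⟩ := hne
  have hSSo : ∀ x ∈ X, Odd x ∧ x ≤ 2 ^ r := by
    intro x hx
    have := hXS hx
    simp only [SS, Finset.mem_filter, Finset.mem_Icc] at this
    exact ⟨this.2, this.1.2⟩
  have hpm : ∀ x ∈ X, ((2 : ℤ) ^ (2 * κ - 1) ∣ (x : ℤ) - x0) ∨ ((2 : ℤ) ^ (2 * κ - 1) ∣ (x : ℤ) + x0) := by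
    intro x hx
    have h1 := hX x hx x0 hx0
    have e : (((2 ^ κ) ^ 2 : ℕ) : ℤ) = (2 : ℤ) ^ ((2 * κ - 1) + 1) := by
      push_cast
      rw [← pow_mul]
      congr 1
      omega
    rw [e] at h1
    have ho : Odd (x : ℤ) := by exact_mod_cast (hSSo x hx).1
    have ho' : Odd (x0 : ℤ) := by exact_mod_cast (hSSo x0 hx0).1
    exact sq_dvd_pow_two ho ho' h1
  have hclass : ∀ Y : Finset ℕ, Y ⊆ X →
      (∀ x ∈ Y, ∀ x' ∈ Y, (2 : ℤ) ^ (2 * κ - 1) ∣ (x : ℤ) - x') →
      ∑ x ∈ Y, (1 : ℚ) / x ≤ 1 / 2 ^ z + (r + 1) / 2 ^ (2 * κ - 1) := by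
    intro Y hY hYc
    have h1 := sum_inv_class_le (D := 2 ^ (2 * κ - 1)) (z0 := 2 ^ z) (R := 2 ^ r) (by positivity)
      (by positivity) Y (fun x hx => ⟨hXz x (hY hx), (hSSo x (hY hx)).2⟩) (by
        intro x hx x' hx'
        have := hYc x' hx' x hx
        rw [← Int.natCast_modEq_iff]
        rw [Int.modEq_iff_dvd]
        push_cast
        exact this)
    refine h1.trans ?_
    push_cast
    have := HH_pow_two r
    gcongr
  have hsplit : X = X.filter (fun x : ℕ => (2 : ℤ) ^ (2 * κ - 1) ∣ (x : ℤ) - x0) ∪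
      X.filter (fun x : ℕ => (2 : ℤ) ^ (2 * κ - 1) ∣ (x : ℤ) + x0) := by
    ext x
    simp only [Finset.mem_union, Finset.mem_filter]
    constructor
    · intro hx
      rcases hpm x hx with h | h
      · exact Or.inl ⟨hx, h⟩
      · exact Or.inr ⟨hx, h⟩
    · rintro (h | h) <;> exact h.1
  have hle : ∑ x ∈ X, (1 : ℚ) / x ≤
      ∑ x ∈ X.filter (fun x : ℕ => (2 : ℤ) ^ (2 * κ - 1) ∣ (x : ℤ) - x0), (1 : ℚ) / x +
      ∑ x ∈ X.filter (fun x : ℕ => (2 : ℤ) ^ (2 * κ - 1) ∣ (x : ℤ) + x0), (1 : ℚ) / x := by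
    conv_lhs => rw [hsplit]
    rw [← Finset.sum_union_inter]
    have : (0 : ℚ) ≤ ∑ x ∈ X.filter (fun x : ℕ => (2 : ℤ) ^ (2 * κ - 1) ∣ (x : ℤ) - x0) ∩
      X.filter (fun x : ℕ => (2 : ℤ) ^ (2 * κ - 1) ∣ (x : ℤ) + x0), (1 : ℚ) / x :=
      Finset.sum_nonneg fun _ _ => by positivity
    linarith
  refine hle.trans ?_
  rw [two_mul (1 / (2 : ℚ) ^ z + (r + 1) / 2 ^ (2 * κ - 1))]
  apply add_le_add
  · apply hclass _ (Finset.filter_subset _ _)
    intro x hx x' hx'
    simp only [Finset.mem_filter] at hx hx'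
    have := dvd_sub hx.2 hx'.2
    rw [show ((x : ℤ) - x0) - (x' - x0) = (x : ℤ) - x' by ring] at this
    exact this
  · apply hclass _ (Finset.filter_subset _ _)
    intro x hx x' hx'
    simp only [Finset.mem_filter] at hx hx'
    have := dvd_sub hx.2 hx'.2
    rw [show ((x : ℤ) + x0) - (x' + x0) = (x : ℤ) - x' by ring] at this
    exact this

open Classical in
/-- total weight of the admissible patterns of a given type -/
theorem weight_le {κ z r : ℕ} {A c : ι → ℕ} {τ : ι}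
    (hz : 3 * z * Fintype.card ι + 2 ≤ κ) (hA : ∑ j, A j < 2 ^ κ)
    (hc : ∀ j, (c j : ℤ) ≡ (if j = τ then -1 else 1) * (1 + ((2 ^ κ : ℕ) : ℤ) * (A j : ℤ))
      [ZMOD ((2 ^ κ : ℕ) : ℤ) ^ 2])
    (hco : ∀ j, Odd (c j))
    (hno : NoSplit A τ) (w : ι → Fin 3) :
    ∑ v ∈ Fintype.piFinset (fun _ : ι × Bool => SS r) with GG κ c w v, ∏ i, (1 : ℚ) / (v i : ℚ) ≤
      (2 * Fintype.card ι) * ((r + 1) ^ (2 * Fintype.card ι - 1) *
        (2 * (1 / 2 ^ z + (r + 1) / 2 ^ (2 * κ - 1)))) := by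
  have hcardI : Fintype.card (ι × Bool) = 2 * Fintype.card ι := by
    rw [Fintype.card_prod, Fintype.card_bool, mul_comm]
  have hSS : ∀ v ∈ Fintype.piFinset (fun _ : ι × Bool => SS r), ∀ i, Odd (v i) ∧ 1 ≤ v i := by
    intro v hv i
    rw [Fintype.mem_piFinset] at hv
    have := hv i
    simp only [SS, Finset.mem_filter, Finset.mem_Icc] at this
    exact ⟨this.2, this.1.1⟩
  -- every admissible pattern has a large coordinate
  have hlarge : ∀ v ∈ Fintype.piFinset (fun _ : ι × Bool => SS r), GG κ c w v →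
      ∃ i, 2 ^ z ≤ v i := by
    intro v hv hG
    by_contra hcon
    push Not at hcon
    exact core_small hz hA hc hno w (fun j => v (j, false)) (fun j => v (j, true))
      (fun j => (hSS v hv _).1) (fun j => (hSS v hv _).1) (fun j => hcon _) (fun j => hcon _) hG
  have h1 : ∑ v ∈ Fintype.piFinset (fun _ : ι × Bool => SS r) with GG κ c w v,
      ∏ i, (1 : ℚ) / (v i : ℚ) ≤
      ∑ i0 : ι × Bool, ∑ v ∈ Fintype.piFinset (fun _ : ι × Bool => SS r) with
        (GG κ c w v ∧ 2 ^ z ≤ v i0), ∏ i, (1 : ℚ) / (v i : ℚ) := by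
    simp_rw [Finset.sum_filter]
    rw [Finset.sum_comm]
    apply Finset.sum_le_sum
    intro v hv
    have hF : (0 : ℚ) ≤ ∏ i, (1 : ℚ) / (v i : ℚ) := Finset.prod_nonneg fun _ _ => by positivity
    by_cases hG : GG κ c w v
    · simp only [hG, if_true, true_and]
      obtain ⟨i, hi⟩ := hlarge v hv hG
      have h2 : (if 2 ^ z ≤ v i then ∏ i, (1 : ℚ) / (v i : ℚ) else 0) ≤
          ∑ i0 : ι × Bool, if 2 ^ z ≤ v i0 then ∏ i, (1 : ℚ) / (v i : ℚ) else 0 := by
        apply Finset.single_le_sum (f := fun i0 : ι × Bool =>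
          if 2 ^ z ≤ v i0 then ∏ i, (1 : ℚ) / (v i : ℚ) else 0)
        · intro i0 _
          split_ifs
          · exact hF
          · exact le_refl _
        · exact Finset.mem_univ _
      rwa [if_pos hi] at h2
    · simp [hG]
  refine h1.trans ?_
  set B : ℚ := 2 * (1 / 2 ^ z + (r + 1) / 2 ^ (2 * κ - 1)) with hB
  have hB0 : 0 ≤ B := by rw [hB]; positivity
  have h2 : ∀ i0 : ι × Bool, ∑ v ∈ Fintype.piFinset (fun _ : ι × Bool => SS r) with
        (GG κ c w v ∧ 2 ^ z ≤ v i0), ∏ i, (1 : ℚ) / (v i : ℚ) ≤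
        (r + 1) ^ (2 * Fintype.card ι - 1) * B := by
    intro i0
    refine (sum_piFinset_le (SS r) i0 (fun v => GG κ c w v ∧ 2 ^ z ≤ v i0)
      (fun x => (1 : ℚ) / (x : ℚ)) (fun x _ => by positivity) B hB0 ?_).trans ?_
    · intro v hv
      have hv' : v ∈ Fintype.piFinset (fun _ : ι × Bool => SS r) := by
        rw [Fintype.mem_piFinset]; exact hv
      apply class_bound (by omega) _ (Finset.filter_subset _ _)
      · intro x hx
        simp only [Finset.mem_filter, Function.update_self] at hx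
        exact hx.2.2
      · intro x hx x' hx'
        simp only [Finset.mem_filter, Function.update_self] at hx hx'
        exact rigid hco (fun i => (hSS v hv' i).1) i0 hx.2.1 hx'.2.1
    · rw [hcardI]
      apply mul_le_mul_of_nonneg_right _ hB0
      apply pow_le_pow_left₀ (Finset.sum_nonneg fun _ _ => by positivity)
      exact SS_sum_le r
  refine (Finset.sum_le_sum fun i0 _ => h2 i0).trans ?_
  rw [Finset.sum_const, Finset.card_univ, hcardI, nsmul_eq_mul]
  push_cast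
  exact le_refl _

end Pool.Agent.H44
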